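import Pool.Agent.SplH.VDefs

set_option autoImplicit false
set_option linter.all false

/-!
# Module V6 (generic filters over almost all countable sets) difficulty 2

Library: Pool/Agent/H55/Lav/Club.lean and the beginning of Nm.lean (`club`, `club_countable`, `club_inT`, `diagT`, `GenF`).
(1) closure: ∀ᶠ N in club (Un Q), ∀ D : Set Q, InT N D → ∀ q : Q, InT N q → (∀ p, ∃ r ∈ D, r ≤ p) → ∃ r ∈ D, r ≤ q ∧ InT N r: `diagT` (for D), `diagT` (for q), choose r, `club_inT r`. Also `club_inT ⊤`.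
(2) N is countable (`club_countable`), so the set of all D : Set Q with InT N D is countable (uT injective): enumerate them D 0, D 1, ... (it may be empty: then G = {q | InT N q ∧ q0 ≤ q} with q0 = ⊤; or add the set univ
 to the enumeration: ∀ᶠ N, InT N (Set.univ : Set Q)). Build q 0 = ⊤ ≥ q 1 ≥ ... in N with q (n+1) ∈ D n if D n is dense (q (n+1) = q n otherwise). G := {q | InT N q ∧ ∃ n, q n ≤ q}.
-/

namespace Pool.Agent.SplH

open Cardinal Pool.Agent.SplK Pool.Agent.H55.Lav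

theorem exists_genF_all (Q : Type) [Preorder Q] [OrderTop Q] : ∀ᶠ N in club (Un Q), ∃ G : Set Q, GenF N G := by
  have hcl : ∀ᶠ N in club (Un Q), ∀ D : Set Q, InT N D → ∀ q : Q, InT N q →
      (∀ p, ∃ r ∈ D, r ≤ p) → ∃ r ∈ D, r ≤ q ∧ InT N r := by
    refine diagT (fun D => diagT (fun q => ?_))
    by_cases hD : ∀ p, ∃ r ∈ D, r ≤ p
    · obtain ⟨r, hr, hrq⟩ := hD q
      exact (club_inT r).mono (fun N hN _ => ⟨r, hr, hrq, hN⟩)
    · exact Filter.Eventually.of_forall (fun N h => absurd h hD)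
  filter_upwards [hcl, club_inT (⊤ : Q), club_countable] with N h1 h2 h3
  have hc : {D : Set Q | InT N D ∧ ∀ p, ∃ r ∈ D, r ≤ p}.Countable := by
    have h4 : ((uT Q : Set Q → Un Q) ⁻¹' N).Countable :=
      h3.preimage_of_injOn (uT_inj.injOn)
    exact h4.mono (fun D hD => hD.1)
  obtain ⟨D, hD⟩ := (hc.insert Set.univ).exists_eq_range ⟨Set.univ, Set.mem_insert _ _⟩
  have hE : ∀ n, ∀ q : {q : Q // InT N q}, ∃ r : {q : Q // InT N q}, r.1 ∈ D n ∧ r.1 ≤ q.1 := by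
    intro n q
    have h4 : D n ∈ insert Set.univ {D : Set Q | InT N D ∧ ∀ p, ∃ r ∈ D, r ≤ p} := by
      rw [hD]
      exact ⟨n, rfl⟩
    rcases h4 with h4 | h4
    · exact ⟨q, by rw [h4]; trivial, le_rfl⟩
    · obtain ⟨r, hr1, hr2, hr3⟩ := h1 (D n) h4.1 q.1 q.2 h4.2
      exact ⟨⟨r, hr3⟩, hr1, hr2⟩
  choose st hst1 hst2 using hE
  let q : ℕ → {q : Q // InT N q} := fun n => Nat.rec ⟨⊤, h2⟩ (fun n q => st n q) n
  have hq : ∀ n, q (n + 1) = st n (q n) := fun n => rfl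
  have hanti : ∀ n m, n ≤ m → (q m).1 ≤ (q n).1 := by
    intro n m hnm
    induction m, hnm using Nat.le_induction with
    | base => exact le_rfl
    | succ m _ ih =>
      rw [hq]
      exact (hst2 m (q m)).trans ih
  refine ⟨{p | InT N p ∧ ∃ n, (q n).1 ≤ p}, ?_, ?_, ?_, ?_⟩
  · exact fun p hp => hp.1
  · rintro p ⟨_, n, hn⟩ p' hpp hp'
    exact ⟨hp', n, hn.trans hpp⟩
  · rintro p ⟨_, n, hn⟩ p' ⟨_, m, hm⟩
    exact ⟨(q (max n m)).1, ⟨(q (max n m)).2, _, le_rfl⟩, (hanti _ _ (le_max_left n m)).trans hn,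
      (hanti _ _ (le_max_right n m)).trans hm⟩
  · intro D' hD' hdense
    have h4 : D' ∈ insert Set.univ {D : Set Q | InT N D ∧ ∀ p, ∃ r ∈ D, r ≤ p} := Or.inr ⟨hD', hdense⟩
    rw [hD] at h4
    obtain ⟨n, hn⟩ := h4
    refine ⟨(q (n + 1)).1, ⟨(q (n + 1)).2, n + 1, le_rfl⟩, ?_⟩
    rw [← hn, hq]
    exact hst1 n (q n)

end Pool.Agent.SplH
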