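import Pool.Agent.SplH.V1

set_option autoImplicit false
set_option linter.all false

/-!
# Preservation of cardinals
-/

namespace Pool.Agent.SplH

open Cardinal Pool.Agent.SplK Pool.Agent.H55.Lav
open Pool.Agent.SplC (LOrd lord_lt lord_card lord_n lord_elt lord_le)

theorem v4_small {L : Type} [LinearOrder L] {κ : Cardinal.{0}}
    {Q : Type} [Preorder Q] (hcc : ∀ S : Set Q, (∀ p ∈ S, ∀ q ∈ S, p ≠ q → ∀ r, r ≤ p → ¬ r ≤ q) → #S ≤ κ)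
    {μ' : L} (S : L → Set Q) :
    #{j : L | j < μ' ∧ ∃ q, BelQ (S j) q ∧ ∀ j' < μ', j' ≠ j → IncQ (S j') q} ≤ κ := by
  have hex : ∀ j : {j : L | j < μ' ∧ ∃ q, BelQ (S j) q ∧ ∀ j' < μ', j' ≠ j → IncQ (S j') q},
      ∃ q, BelQ (S j.1) q ∧ ∀ j' < μ', j' ≠ j.1 → IncQ (S j') q := fun j => j.2.2
  choose g hg using hex
  have key : ∀ j j' : {j : L | j < μ' ∧ ∃ q, BelQ (S j) q ∧ ∀ j' < μ', j' ≠ j → IncQ (S j') q}, j ≠ j' →
      ∀ r, r ≤ g j → ¬ r ≤ g j' := by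
    intro j j' hne r h1 h2
    obtain ⟨C, hC, hC'⟩ := (hg j).1
    exact (hg j').2 j.1 j.2.1 (fun e => hne (Subtype.ext e)) r h2 ⟨C, hC, h1.trans hC'⟩
  have hinj : Function.Injective g := by
    intro j j' hjj
    by_contra hne
    exact key j j' hne (g j) le_rfl (le_of_eq hjj)
  rw [← mk_range_eq g hinj]
  apply hcc
  rintro _ ⟨j, rfl⟩ _ ⟨j', rfl⟩ hne r h1 h2
  exact key j j' (fun e => hne (congrArg g e)) r h1 h2

theorem vfrc_cd {L : Type} [LinearOrder L] {o : L → Ordinal.{0}} {κ : Cardinal.{0}} {ν : Cardinal.{0}} (h : LOrd L o ν) (hκ : ℵ₀ ≤ κ)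
    {Q : Type} [Preorder Q] (hcc : ∀ S : Set Q, (∀ p ∈ S, ∀ q ∈ S, p ≠ q → ∀ r, r ≤ p → ¬ r ≤ q) → #S ≤ κ)
    {μ μ' : L} {n : ℕ} (hμ : o μ = (mc κ n).ord) (hμ' : o μ' = (mc κ (n + 1)).ord) (S : L → L → Set Q) :
    ∃ j < μ', CdP μ μ' S j := by
  have hc1 : #(Set.Iio μ) = mc κ n := by rw [lord_card h, hμ, Cardinal.card_ord]
  have hc2 : #(Set.Iio μ') = mc κ (n + 1) := by rw [lord_card h, hμ', Cardinal.card_ord]
  have hU : #(⋃ i : Set.Iio μ, {j : L | j < μ' ∧ ∃ q, BelQ (S i.1 j) q ∧ ∀ j' < μ', j' ≠ j → IncQ (S i.1 j') q} : Set L) ≤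
      mc κ n := by
    refine (mk_iUnion_le _).trans ?_
    have h1 : (⨆ i : Set.Iio μ, #{j : L | j < μ' ∧ ∃ q, BelQ (S i.1 j) q ∧ ∀ j' < μ', j' ≠ j → IncQ (S i.1 j') q}) ≤
        mc κ n := ciSup_le' (fun i => (v4_small hcc (S i.1)).trans (mc_inf hκ n))
    rw [hc1]
    exact (mul_le_mul' le_rfl h1).trans (mul_eq_self (hκ.trans (mc_inf hκ n))).le
  by_contra hno
  push Not at hno
  have hsub : Set.Iio μ' ⊆
      (⋃ i : Set.Iio μ, {j : L | j < μ' ∧ ∃ q, BelQ (S i.1 j) q ∧ ∀ j' < μ', j' ≠ j → IncQ (S i.1 j') q} : Set L) := by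
    intro j hj
    have h1 := hno j hj
    unfold CdP at h1
    push Not at h1
    obtain ⟨i, hi, q, hq1, hq2⟩ := h1
    exact Set.mem_iUnion.2 ⟨⟨i, hi⟩, hj, q, hq1, hq2⟩
  have h2 := (mk_le_mk_of_subset hsub).trans hU
  rw [hc2] at h2
  exact absurd h2 (not_le.2 (mc_lt κ n))

end Pool.Agent.SplH
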