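import Pool.Agent.SplH.V1

set_option autoImplicit false
set_option linter.all false

/-!
# Module V5 (transport from K to L) difficulty 2

e : K → L is an order isomorphism onto Iio k (he, hr). Let `i : L → K` be an inverse on Iio k (choose; arbitrary outside; K is nonempty as soon as some element below k exists; if you need it
in general use `Classical.choice` only in the case where k has an element below it).
* `vfrc_reg`: b = e b'. Apply hQ.reg to b', f' a d := f (e a) (e d), p: q, c. Take e c. In BdP a < b and d < k are a = e a' (a' < b' by he), d = e d'.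
* `vfrc_ns`: apply hQ.ns n to the index type I := Iio δ, x' i a := x i (e a), p: q and A' : K → Set Q. A b := {E | ∃ a, e a = b ∧ E ∈ A' a}. BelQ (A (e a)) E ↔ BelQ (A' a) E (e injective). All quantifiers over b < k
  are over b = e b'.
* `vfrc_pw`: b = e b'. hQ.pw b' p: q ≤ p, m, I, hI : #I ≤ pl (max ℵ₀ #(Iio b')) m, z. I is nonempty (apply the property to any X and q' = q). So there is a surjection σ from Iio (D.c (D.nL m) b) (of size `pl (max ℵ₀ #(Iio b')) m` by hc) onto I.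
  z' i a := {E | ∃ (h : i < D.c (D.nL m) b) (a' : K), e a' = a ∧ E ∈ z (σ ⟨i, h⟩) a'}. Given X : L → Set Q put X' a' := X (e a'); get q'' and i ∈ I, i = σ ⟨i', h⟩. FoQ (z' i' (e a')) E ↔ FoQ (z i a') E as the sets have the same members.
-/

namespace Pool.Agent.SplH

open Cardinal Pool.Agent.SplK Pool.Agent.H55.Lav

variable {K : Type} [LinearOrder K] {L : Type} [LinearOrder L] {Q : Type} [Preorder Q] [OrderTop Q]

theorem vfrc_reg (hQ : KFrc Q K) {e : K → L} {k : L} (he : StrictMono e) (hr : ∀ x, (∃ a, e a = x) ↔ x < k) (b : L)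
    (f : L → L → Set Q) (p : Q) (hb : b < k) : ∃ q ≤ p, ∃ c < k, BdP k b f q c := by
  obtain ⟨b', rfl⟩ := (hr b).2 hb
  obtain ⟨q, hq, c, h⟩ := hQ.reg b' (fun a d => f (e a) (e d)) p
  refine ⟨q, hq, e c, (hr (e c)).1 ⟨c, rfl⟩, ?_⟩
  intro a ha d hd E hE hB
  obtain ⟨a', rfl⟩ := (hr a).2 (ha.trans hb)
  obtain ⟨d', rfl⟩ := (hr d).2 hd
  obtain ⟨E', hE', d'', hd'', hB'⟩ := h a' (he.lt_iff_lt.1 ha) d' E hE hB
  exact ⟨E', hE', e d'', he hd'', hB'⟩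

theorem vfrc_ns (hQ : KFrc Q K) {e : K → L} {k : L} (he : StrictMono e) (hr : ∀ x, (∃ a, e a = x) ↔ x < k) (δ : L)
    (n : ℕ) (hδ : #(Set.Iio δ) ≤ pl (2 ^ #K) n) (x : L → L → Set Q) (p : Q) : ∃ q ≤ p, ∃ A : L → Set Q, NsP k δ x q A := by
  obtain ⟨q, hq, A', h1, h2⟩ := hQ.ns n (Set.Iio δ) hδ (fun i a => x i.1 (e a)) p
  have hA : ∀ a E, BelQ {E | ∃ a', e a' = e a ∧ E ∈ A' a'} E → BelQ (A' a) E := by
    rintro a E ⟨C, ⟨a', haa, hC⟩, hEC⟩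
    obtain rfl := he.injective haa
    exact ⟨C, hC, hEC⟩
  refine ⟨q, hq, fun b => {E | ∃ a, e a = b ∧ E ∈ A' a}, ⟨?_, ?_⟩⟩
  · intro a ha
    obtain ⟨a', rfl⟩ := (hr a).2 ha
    intro E' hE'
    obtain ⟨E'', hE'', C, ⟨b', hb', hC⟩, hEC⟩ := h1 a' E' hE'
    exact ⟨E'', hE'', C, ⟨e b', he hb', (hr (e b')).1 ⟨b', rfl⟩, b', rfl, hC⟩, hEC⟩
  · intro i hi q' hq'
    obtain ⟨q'', hq'', a', h⟩ := h2 ⟨i, hi⟩ q' hq'
    refine ⟨q'', hq'', e a', (hr (e a')).1 ⟨a', rfl⟩, ?_⟩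
    rcases h with h | h
    · left
      intro b hab hbk E hE hB
      obtain ⟨b', rfl⟩ := (hr b).2 hbk
      exact h b' (he.lt_iff_lt.1 hab) E hE (hA b' E hB)
    · right
      intro b hab hbk E hE hB
      obtain ⟨b', rfl⟩ := (hr b).2 hbk
      exact h b' (he.lt_iff_lt.1 hab) E hE (hA b' E hB)

theorem vfrc_pw {e : K → L} {k : L} (he : StrictMono e) (hr : ∀ x, (∃ a, e a = x) ↔ x < k)
    {F : K → Cardinal.{0}} (hp : ∀ (b : K) (p : Q), ∃ q ≤ p, ∃ (m : ℕ) (I : Type) (_ : #I ≤ pl (F b) m) (z : I → K → Set Q),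
      ∀ X : K → Set Q, ∀ q' ≤ q, ∃ q'' ≤ q', ∃ i, ∀ a < b, ∀ E ≤ q'', (FoQ (X a) E ↔ FoQ (z i a) E))
    (D : VDat L) (hc : ∀ (n : ℕ) (a : K), #(Set.Iio (D.c (D.nL n) (e a))) = pl (max ℵ₀ (F a)) n) (b : L)
    (hb : b < k) (p : Q) : ∃ q ≤ p, ∃ (m : ℕ) (z : L → L → Set Q), PwP D b q m z := by
  obtain ⟨b', rfl⟩ := (hr b).2 hb
  obtain ⟨q, hq, m, I, hI, z, hz⟩ := hp b' p
  replace hI := hI.trans (pl_mono (le_max_right ℵ₀ (F b')) m)
  rw [← hc m b'] at hI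
  obtain ⟨g⟩ := (Cardinal.le_def _ _).1 hI
  refine ⟨q, hq, m, fun i a => {E | ∃ i0 : I, (g i0).1 = i ∧ ∃ a', e a' = a ∧ E ∈ z i0 a'}, ?_⟩
  intro X q' hq'
  obtain ⟨q'', hq'', i0, h⟩ := hz (fun a => X (e a)) q' hq'
  refine ⟨q'', hq'', (g i0).1, (g i0).2, ?_⟩
  intro a ha E hE
  obtain ⟨a', rfl⟩ := (hr a).2 (ha.trans hb)
  rw [h a' (he.lt_iff_lt.1 ha) E hE]
  have hset : {E | ∃ i1 : I, (g i1).1 = (g i0).1 ∧ ∃ a'', e a'' = e a' ∧ E ∈ z i1 a''} = z i0 a' := by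
    ext E
    constructor
    · rintro ⟨i1, h1, a'', h2, h3⟩
      obtain rfl := g.injective (Subtype.ext h1)
      obtain rfl := he.injective h2
      exact h3
    · intro hE
      exact ⟨i0, rfl, a', rfl, hE⟩
  dsimp only
  rw [hset]


theorem vfrc_ap (hQ : KFrc Q K) {e : K → L} {k : L} (he : StrictMono e) (hr : ∀ x, (∃ a, e a = x) ↔ x < k)
    {k1 n0 : L} {eK : L → L → L} (hs : ∀ X : Set L, ∃ j < k1, ∀ x < k, (x ∈ X ↔ eK j x = n0))
    (X : L → Set Q) (p : Q) (h : ∀ b < k, ∀ q ≤ p, ∃ q' ≤ q, ∀ x < b, FoQ (X x) q' ∨ IncQ (X x) q') :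
    ∃ q ≤ p, ∃ j < k1, ∀ x < k, (eK j x = n0 → FoQ (X x) q) ∧ (eK j x ≠ n0 → IncQ (X x) q) := by
  obtain ⟨q, hq, h1⟩ := hQ.ap (fun a => X (e a)) p (fun b q hq => by
    obtain ⟨q', hq', h2⟩ := h (e b) ((hr _).1 ⟨b, rfl⟩) q hq
    exact ⟨q', hq', fun x hx => h2 (e x) (he hx)⟩)
  obtain ⟨j, hj, hj'⟩ := hs {x | FoQ (X x) q}
  refine ⟨q, hq, j, hj, fun x hx => ⟨fun h2 => (hj' x hx).2 h2, fun h2 => ?_⟩⟩
  obtain ⟨a, rfl⟩ := (hr x).2 hx
  rcases h1 a with h3 | h3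
  · exact (h2 ((hj' _ hx).1 h3)).elim
  · exact h3

end Pool.Agent.SplH
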