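import Pool.Agent.SplH.V3
import Pool.Agent.SplH.V4
import Pool.Agent.SplH.V5

set_option autoImplicit false
set_option linter.all false

/-!
# The forcing facts on one wellordered type
-/

namespace Pool.Agent.SplH

open Cardinal Pool.Agent.SplK Pool.Agent.H55.Lav
open Pool.Agent.SplC (LOrd lord_lt lord_card lord_n exists_lord)

theorem exists_vfrc {K : Type} [LinearOrder K] (h : Inac K) {Q : Type} [Preorder Q] [OrderTop Q] (hQ : KFrc Q K) :
    ∃ (L : Type) (_ : LinearOrder L) (_ : WellFoundedLT L) (D : VDat L), VFrc Q D := by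
  obtain ⟨L, i1, i2, o, hL⟩ := exists_lord (2 ^ #K)
  obtain ⟨e, he, hr, hc⟩ := exists_e' h hL (Cardinal.cantor #K).le
  obtain ⟨F, hF1, hF2, hF3⟩ := hQ.pw
  obtain ⟨D, hD⟩ := exists_vdat h hL he hr hc F hF1 hF2
  have hk : ∀ x, o x < (#K).ord ↔ x < D.k := by
    intro x
    rw [← lord_lt hL]
    have := hD.mu 0
    rw [mc_zero] at this
    rw [show D.k = D.mu (D.nL 0) from rfl, this]
  have hr' : ∀ x, (∃ a, e a = x) ↔ x < D.k := fun x => (hr x).trans (hk x)
  refine ⟨L, i1, i2, D, ⟨fun b f p hb => vfrc_reg hQ he hr' b f p hb, fun n S => ?_, fun δ x p => ?_, fun b p hb => ?_,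
    fun X p hX => vfrc_ap hQ he hr' D.eK_sur X p hX⟩⟩
  · exact vfrc_cd hL h.unc.le hQ.cc (hD.mu n) (hD.mu (n + 1)) S
  · obtain ⟨n, hn⟩ := lord_n hL δ
    exact vfrc_ns hQ he hr' δ n (by rw [lord_card hL]; exact (Cardinal.lt_ord.mp hn).le) x p
  · refine vfrc_pw he hr' hF3 D (fun n a => ?_) b hb p
    rw [lord_card hL, hD.c n a, Cardinal.card_ord]

end Pool.Agent.SplH
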