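import Pool.Agent.SplH.F5
import Pool.Agent.SplH.VFin

set_option autoImplicit false
set_option linter.all false

/-!
# From the forcing notion to the model, without the generalized continuum hypothesis
-/

namespace Pool.Agent.SplH

open Pool.Agent.H55.SC Pool.Agent.H55.CS Pool.Agent.SplK
open Pool.Agent.SplC (IsBij IsCard IsRegularUncountable IsSingular IsLarge SplitsAt IsSplittingFamily IsSplittingNumber)

theorem splh_final {K : Type} [LinearOrder K] (hK : Inac K) {Q : Type} [Preorder Q] [OrderTop Q] (h : KFrc Q K) :
    ∃ (M : Type 1) (E : M → M → Prop), Countable M ∧ WellFounded E ∧ ZFC E ∧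
      ∃ w k l, IsOmega E w ∧ IsRegularUncountable E w k ∧ IsSingular E l ∧ E k l ∧ IsSplittingNumber E k l := by
  obtain ⟨L, i1, i2, D, hV⟩ := exists_vfrc hK h
  exact main_vfrc hV

end Pool.Agent.SplH
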