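import Pool.Agent.H55.Lav.MLev2
import Pool.Agent.SplK.Defs

set_option autoImplicit false
set_option linter.all false

/-!
# MP_72b20c_lc, block C: what is used about the forcing notion `Q`

`KFrc Q K` is the interface to the blocks A, B, D (`K` wellordered of inaccessible order type, `Inac K`). `VDat L`, `VFrc Q D` are the same
facts for one wellordered type `L` of order type `(2^κ)⁺ω`.
-/

namespace Pool.Agent.SplH

open Cardinal Pool.Agent.SplK Pool.Agent.H55.Lav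

/-- The facts on the forcing notion `Q`. -/
structure KFrc (Q : Type) [Preorder Q] [OrderTop Q] (K : Type) [LinearOrder K] : Prop where
  /-- functions from `b` to `K` are bounded -/
  reg : ∀ (b : K) (f : K → K → Set Q) (p : Q), ∃ q ≤ p, ∃ c : K, ∀ a < b, ∀ d, ∀ E ≤ q,
    BelQ (f a d) E → ∃ E' ≤ E, ∃ d' < c, BelQ (f a d') E'
  /-- chain condition -/
  cc : ∀ S : Set Q, (∀ p ∈ S, ∀ q ∈ S, p ≠ q → ∀ r, r ≤ p → ¬ r ≤ q) → #S ≤ #K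
  /-- families of `(2^κ)⁺ⁿ` sets are not splitting -/
  ns : ∀ (n : ℕ) (I : Type), #I ≤ pl (2 ^ #K) n → ∀ (x : I → K → Set Q) (p : Q), ∃ q ≤ p, ∃ A : K → Set Q,
    (∀ a, FoQ {E | ∃ b, a < b ∧ E ∈ A b} q) ∧
    ∀ i, ∀ q' ≤ q, ∃ q'' ≤ q', ∃ a, (∀ b, a < b → ∀ E ≤ q'', BelQ (A b) E → FoQ (x i b) E) ∨
      ∀ b, a < b → ∀ E ≤ q'', BelQ (A b) E → IncQ (x i b) E
  /-- power sets of the elements of `K` -/
  pw : ∃ F : K → Cardinal.{0}, (∀ b, F b < #K) ∧ (∀ b, Inac (Set.Iio b) → F b = 2 ^ #(Set.Iio b)) ∧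
    ∀ (b : K) (p : Q), ∃ q ≤ p, ∃ (m : ℕ) (I : Type) (_ : #I ≤ pl (F b) m) (z : I → K → Set Q),
      ∀ X : K → Set Q, ∀ q' ≤ q, ∃ q'' ≤ q', ∃ i, ∀ a < b, ∀ E ≤ q'', (FoQ (X a) E ↔ FoQ (z i a) E)
  /-- a subset of `K` all of whose initial segments are in the ground model is in the ground model -/
  ap : ∀ (X : K → Set Q) (p : Q), (∀ b : K, ∀ q ≤ p, ∃ q' ≤ q, ∀ x < b, FoQ (X x) q' ∨ IncQ (X x) q') →
    ∃ q ≤ p, ∀ x, FoQ (X x) q ∨ IncQ (X x) q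

/-- Ordinals and functions of the ground model. -/
structure VDat (L : Type) [LinearOrder L] where
  nL : ℕ → L
  om : L
  mu : L → L
  c : L → L → L
  J : L → L → L → L → L
  s : L → L → L → L
  p : L → L → L
  q : L → L → L
  pL : L → L
  qL : L → L
  eK : L → L → L
  be : L → L
  nL_lt : ∀ m n, m < n → nL m < nL n
  om_iff : ∀ x, x < om ↔ ∃ n, nL n = x
  om_lt : om < mu (nL 0)
  mu_lt : ∀ n, mu (nL n) < mu (nL (n + 1))
  mu_cof : ∀ x, ∃ n, x < mu (nL n)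
  c_lt : ∀ n b, c n b < mu (nL 0)
  J_lt : ∀ n b y f, J n b y f < mu (nL 0)
  J_c : ∀ (n : ℕ) b y f, b < mu (nL 0) → y < c (nL (n + 1)) b → f ≤ y → J (nL (n + 5)) b y f < c (nL n) b
  J_inj : ∀ (n : ℕ) b y f f', b < mu (nL 0) → y < c (nL (n + 1)) b → f ≤ y → f' ≤ y →
    J (nL (n + 5)) b y f = J (nL (n + 5)) b y f' → f = f'
  s_sur : ∀ (n : ℕ) δ, δ < mu (nL (n + 2)) → ∀ y < δ, ∃ x < mu (nL (n + 1)), s (nL (n + 1)) δ x = y
  pq : ∀ (n : ℕ) x y, x < mu (nL n) → y < mu (nL n) → ∃ z < mu (nL n), p (nL n) z = x ∧ q (nL n) z = y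
  pqL : ∀ x y, ∃ z, pL z = x ∧ qL z = y
  e_d : ∀ b i i', b < mu (nL 0) → J (nL 3) b b b = nL 0 → i < c (nL 0) b → i' < c (nL 0) b → i ≠ i' →
    J (nL 4) b i i' < b ∧
      ¬ (J (nL 0) b i (J (nL 4) b i i') = nL 0 ↔ J (nL 0) b i' (J (nL 4) b i i') = nL 0)
  eK_sur : ∀ X : Set L, ∃ j < mu (nL 1), ∀ x < mu (nL 0), (x ∈ X ↔ eK j x = nL 0)
  h_lt : ∀ b, nL 0 < b → b < mu (nL 0) → J (nL 3) b b b ≠ nL 0 → J (nL 2) b b b < b
  h_v : ∀ b ξ, nL 0 < b → b < mu (nL 0) → J (nL 3) b b b ≠ nL 0 → J (nL 1) b ξ ξ < b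
  be_lt : ∀ x, be x < mu (nL 0)
  h_s : ∀ b, b < mu (nL 0) → J (nL 3) b b b ≠ nL 0 → ∀ x < b, ∃ ξ < be (J (nL 2) b b b), x ≤ J (nL 1) b ξ ξ

/-- `κ` -/
def VDat.k {L : Type} [LinearOrder L] (D : VDat L) : L := D.mu (D.nL 0)

/-- `A` is forced by `q` to be unbounded in `κ` and not split by the sets `x i`, `i < δ`. -/
structure NsP {Q : Type} [Preorder Q] {L : Type} [LinearOrder L] (k δ : L) (x : L → L → Set Q) (q : Q)
    (A : L → Set Q) : Prop where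
  unb : ∀ a < k, FoQ {E | ∃ b, a < b ∧ b < k ∧ E ∈ A b} q
  uns : ∀ i < δ, ∀ q' ≤ q, ∃ q'' ≤ q', ∃ a < k,
    (∀ b, a < b → b < k → ∀ E ≤ q'', BelQ (A b) E → FoQ (x i b) E) ∨
      ∀ b, a < b → b < k → ∀ E ≤ q'', BelQ (A b) E → IncQ (x i b) E

/-- `z` is forced by `q` to be an enumeration of the subsets of `b`, of length `c m b`. -/
def PwP {Q : Type} [Preorder Q] {L : Type} [LinearOrder L] (D : VDat L) (b : L) (q : Q) (m : ℕ)
    (z : L → L → Set Q) : Prop :=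
  ∀ X : L → Set Q, ∀ q' ≤ q, ∃ q'' ≤ q', ∃ i < D.c (D.nL m) b, ∀ a < b, ∀ E ≤ q'', (FoQ (X a) E ↔ FoQ (z i a) E)

/-- `c` bounds the values of the function with the name `f` on `b`. -/
def BdP {Q : Type} [Preorder Q] {L : Type} [LinearOrder L] (k b : L) (f : L → L → Set Q) (q : Q) (c : L) : Prop :=
  ∀ a < b, ∀ d < k, ∀ E ≤ q, BelQ (f a d) E → ∃ E' ≤ E, ∃ d' < c, BelQ (f a d') E'

/-- `j` is not a value of the function with the name `S` on `μ`. -/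
def CdP {Q : Type} [Preorder Q] {L : Type} [LinearOrder L] (μ μ' : L) (S : L → L → Set Q) (j : L) : Prop :=
  ∀ i < μ, ∀ q, ¬ (BelQ (S i j) q ∧ ∀ j' < μ', j' ≠ j → IncQ (S i j') q)

/-- The facts on the forcing notion `Q`, for the type `L`. -/
structure VFrc (Q : Type) [Preorder Q] [OrderTop Q] {L : Type} [LinearOrder L] (D : VDat L) : Prop where
  reg : ∀ (b : L) (f : L → L → Set Q) (p : Q), b < D.k → ∃ q ≤ p, ∃ c < D.k, BdP D.k b f q c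
  cd : ∀ (n : ℕ) (S : L → L → Set Q), ∃ j < D.mu (D.nL (n + 1)), CdP (D.mu (D.nL n)) (D.mu (D.nL (n + 1))) S j
  ns : ∀ (δ : L) (x : L → L → Set Q) (p : Q), ∃ q ≤ p, ∃ A : L → Set Q, NsP D.k δ x q A
  pw : ∀ (b : L) (p : Q), b < D.k → ∃ q ≤ p, ∃ (m : ℕ) (z : L → L → Set Q), PwP D b q m z
  ap : ∀ (X : L → Set Q) (p : Q), (∀ b < D.k, ∀ q ≤ p, ∃ q' ≤ q, ∀ x < b, FoQ (X x) q' ∨ IncQ (X x) q') →
    ∃ q ≤ p, ∃ j < D.mu (D.nL 1), ∀ x < D.k,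
      (D.eK j x = D.nL 0 → FoQ (X x) q) ∧ (D.eK j x ≠ D.nL 0 → IncQ (X x) q)

end Pool.Agent.SplH
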