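import Pool.Agent.SplH.IDefs
import Pool.Agent.SplC.FDefs
import Pool.Agent.H55.SCBridge

set_option autoImplicit false
set_option linter.all false
universe u

/-!
# F1 (3): translation to the relation `Model.E`, and the Cantor–Bernstein theorem in the model

`isOrdinal_iff`: `IsOrd` is `IsSet ∧ Trans ∧ ..`, all elements are sets (`pure_isSet`). `isFun_iff`: `pair_iff`, `rel_iff` (SCBridge), `FnOn`, `app_eq`, `opair_app`; `mem_funs`. `isSurj_iff`, `isBij_iff` from it.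
`csb` (Cantor-Bernstein): `f` injective from `a` to `b`, `g` injective from `b` to `a`. `C = bigU (sep (pow a) (fun X => ∀ x, x ∈ X → ¬ ∃ y, y ∈ b ∧ app g y = x ∧ ∀ z, z ∈ X → app f z ≠ y))` (the union of all `X ⊆ a` with `X ⊆ a \ g[b \ f[X]]`; the operator is monotone, so `C = a \ g[b \ f[C]]`).
`h = lam a (fun x => iteM (x ∈ C) (app f x) (mu' ..))`: for `x ∉ C` there is `y ∈ b \ f[C]` with `app g y = x`; to have a definable choice use `app (lam ..)`: e.g. `h` = the set of pairs `sep (prod a b) (fun p => (fst p ∈ C ∧ snd p = app f (fst p)) ∨ (fst p ∉ C ∧ app g (snd p) = fst p))`, it is functional.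
`img_bij`: `Img a b` (IDefs) with `b ≠ ∅`: from a surjection `s` get `f` with `FnOn f a`, values in `b`: `lam a (fun x => iteM (app s x ∈ b) (app s x) y0)`.
-/

namespace Pool.Agent.SplH

open Pool.Agent.H55.SC Pool.Agent.H55.CS Pool.Agent.H55.ZFU
open Pool.Agent.SplC (IsBij IsCard IsRegularUncountable IsSingular IsLarge SplitsAt IsSplittingFamily IsSplittingNumber)

variable {M : Type u} [Model M] [Pool.Agent.H55.ZFU.Pure M]

theorem isOrdinal_iff {a : M} : IsOrdinal Model.E a ↔ IsOrd a := by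
  constructor
  · rintro ⟨h1, h2⟩
    exact ⟨inferInstance, fun x hx y hy => h1 x hx y hy, fun b hb => ⟨inferInstance, fun x hx y hy => h2 b hb x hx y hy⟩⟩
  · rintro ⟨_, h1, h2⟩
    exact ⟨fun x hx y hy => h1 x hx y hy, fun b hb x hx y hy => (h2 b hb).2 x hx y hy⟩

theorem isFun_iff {f a b : M} : IsFun Model.E f a b ↔ FnOn f a ∧ ∀ x, x ∈ a → app f x ∈ b := by
  constructor
  · rintro ⟨h1, h2⟩
    have h3 : FnOn f a := by
      refine ⟨inferInstance, ?_, ?_⟩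
      · intro p hp
        obtain ⟨x, y, hx, _, hxy⟩ := h1 p hp
        exact ⟨x, hx, y, pair_iff.1 hxy⟩
      · intro x hx
        obtain ⟨y, hy, hy'⟩ := h2 x hx
        exact ⟨y, rel_iff.1 hy, fun z hz => hy' z (rel_iff.2 hz)⟩
    refine ⟨h3, fun x hx => ?_⟩
    obtain ⟨x', y', _, hy', hxy⟩ := h1 _ (h3.mem hx)
    rw [pair_iff, opair_inj] at hxy
    rw [hxy.2]
    exact hy'
  · rintro ⟨h1, h2⟩
    refine ⟨?_, ?_⟩
    · intro p hp
      obtain ⟨x, hx, rfl⟩ := h1.mem_iff.1 hp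
      exact ⟨x, app f x, hx, h2 x hx, pair_iff.2 rfl⟩
    · intro x hx
      refine ⟨app f x, rel_iff.2 (h1.mem hx), fun z hz => ?_⟩
      exact (h1.app_eq (rel_iff.1 hz)).symm

theorem f1_rel {f a x y : M} (h : FnOn f a) (hx : x ∈ a) : Rel Model.E f x y ↔ app f x = y := by
  rw [rel_iff]
  constructor
  · exact fun h1 => h.app_eq h1
  · rintro rfl
    exact h.mem hx

theorem isSurj_iff {f a b : M} : IsSurj Model.E f a b ↔
    FnOn f a ∧ (∀ x, x ∈ a → app f x ∈ b) ∧ ∀ y, y ∈ b → ∃ x, x ∈ a ∧ app f x = y := by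
  constructor
  · rintro ⟨h1, h2⟩
    rw [isFun_iff] at h1
    refine ⟨h1.1, h1.2, fun y hy => ?_⟩
    obtain ⟨x, hx, hxy⟩ := h2 y hy
    exact ⟨x, hx, (f1_rel h1.1 hx).1 hxy⟩
  · rintro ⟨h1, h2, h3⟩
    refine ⟨isFun_iff.2 ⟨h1, h2⟩, fun y hy => ?_⟩
    obtain ⟨x, hx, hxy⟩ := h3 y hy
    exact ⟨x, hx, (f1_rel h1 hx).2 hxy⟩

theorem isBij_iff {f a b : M} : IsBij Model.E f a b ↔
    FnOn f a ∧ (∀ x, x ∈ a → app f x ∈ b) ∧ (∀ y, y ∈ b → ∃ x, x ∈ a ∧ app f x = y) ∧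
      ∀ x x', x ∈ a → x' ∈ a → app f x = app f x' → x = x' := by
  constructor
  · rintro ⟨h1, h2⟩
    rw [isSurj_iff] at h1
    refine ⟨h1.1, h1.2.1, h1.2.2, fun x x' hx hx' he => ?_⟩
    exact h2 x x' (app f x') hx hx' ((f1_rel h1.1 hx).2 he) ((f1_rel h1.1 hx').2 rfl)
  · rintro ⟨h1, h2, h3, h4⟩
    refine ⟨isSurj_iff.2 ⟨h1, h2, h3⟩, fun x x' y hx hx' hxy hxy' => ?_⟩
    apply h4 x x' hx hx'
    rw [(f1_rel h1 hx).1 hxy, (f1_rel h1 hx').1 hxy']

theorem csb {a b f g : M} (hf : ∀ x, x ∈ a → app f x ∈ b) (hfi : ∀ x x', x ∈ a → x' ∈ a → app f x = app f x' → x = x')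
    (hg : ∀ x, x ∈ b → app g x ∈ a) (hgi : ∀ x x', x ∈ b → x' ∈ b → app g x = app g x' → x = x') :
    ∃ h : M, IsBij Model.E h a b := by
  have i1 : Dfn1 (fun X : M => ∀ x : M, x ∈ X → ¬ ∃ y : M, y ∈ b ∧ app g y = x ∧ ∀ z : M, z ∈ X → ¬ app f z = y) :=
    inferInstance
  obtain ⟨C, hC⟩ : ∃ C : M, C = bigU (sep (pow a)
      (fun X : M => ∀ x : M, x ∈ X → ¬ ∃ y : M, y ∈ b ∧ app g y = x ∧ ∀ z : M, z ∈ X → ¬ app f z = y)) := ⟨_, rfl⟩
  have hCm : ∀ x : M, x ∈ C ↔ ∃ X : M, (X ⊆ a ∧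
      ∀ x : M, x ∈ X → ¬ ∃ y : M, y ∈ b ∧ app g y = x ∧ ∀ z : M, z ∈ X → ¬ app f z = y) ∧ x ∈ X := by
    intro x
    rw [hC, mem_bigU]
    constructor
    · rintro ⟨X, hX, hx⟩
      rw [mem_sep, mem_pow'] at hX
      exact ⟨X, hX, hx⟩
    · rintro ⟨X, hX, hx⟩
      exact ⟨X, mem_sep.2 ⟨mem_pow'.2 hX.1, hX.2⟩, hx⟩
  have hCa : C ⊆ a := by
    intro x hx
    obtain ⟨X, hX, hx⟩ := (hCm x).1 hx
    exact hX.1 x hx
  have hC1 : ∀ x : M, x ∈ C → ¬ ∃ y : M, y ∈ b ∧ app g y = x ∧ ∀ z : M, z ∈ C → ¬ app f z = y := by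
    rintro x hx ⟨y, hy, hyx, hyC⟩
    obtain ⟨X, hX, hx⟩ := (hCm x).1 hx
    exact hX.2 x hx ⟨y, hy, hyx, fun z hz => hyC z ((hCm z).2 ⟨X, hX, hz⟩)⟩
  have hC2 : ∀ x : M, x ∈ a → x ∉ C → ∃ y : M, y ∈ b ∧ app g y = x ∧ ∀ z : M, z ∈ C → ¬ app f z = y := by
    intro x hx hxC
    by_contra hcon
    apply hxC
    refine (hCm x).2 ⟨un C (sing x), ⟨?_, ?_⟩, by rw [mem_un, mem_sing]; exact Or.inr rfl⟩
    · intro z hz
      rw [mem_un, mem_sing] at hz
      rcases hz with hz | rfl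
      · exact hCa z hz
      · exact hx
    · rintro z hz ⟨y, hy, hyz, hyC⟩
      have hyC' : ∀ w : M, w ∈ C → ¬ app f w = y := fun w hw => hyC w (by rw [mem_un]; exact Or.inl hw)
      rw [mem_un, mem_sing] at hz
      rcases hz with hz | rfl
      · exact hC1 z hz ⟨y, hy, hyz, hyC'⟩
      · exact hcon ⟨y, hy, hyz, hyC'⟩
  have i2 : Dfn1 (fun p : M => (fst p ∈ C ∧ snd p = app f (fst p)) ∨ (fst p ∉ C ∧ app g (snd p) = fst p)) := inferInstance
  obtain ⟨h, hh⟩ : ∃ h : M, h = sep (prod a b)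
      (fun p : M => (fst p ∈ C ∧ snd p = app f (fst p)) ∨ (fst p ∉ C ∧ app g (snd p) = fst p)) := ⟨_, rfl⟩
  have hhm : ∀ x y : M, opair x y ∈ h ↔ (x ∈ a ∧ y ∈ b) ∧ ((x ∈ C ∧ y = app f x) ∨ (x ∉ C ∧ app g y = x)) := by
    intro x y
    rw [hh, mem_sep, opair_mem_prod, fst_opair, snd_opair]
  have hfn : FnOn h a := by
    refine ⟨inferInstance, ?_, ?_⟩
    · intro p hp
      rw [hh, mem_sep, mem_prod] at hp
      obtain ⟨x, hx, y, _, rfl⟩ := hp.1
      exact ⟨x, hx, y, rfl⟩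
    · intro x hx
      by_cases hxC : x ∈ C
      · refine ⟨app f x, (hhm _ _).2 ⟨⟨hx, hf x hx⟩, Or.inl ⟨hxC, rfl⟩⟩, fun z hz => ?_⟩
        rcases ((hhm _ _).1 hz).2 with h1 | h1
        · exact h1.2
        · exact absurd hxC h1.1
      · obtain ⟨y, hy, hyx, _⟩ := hC2 x hx hxC
        refine ⟨y, (hhm _ _).2 ⟨⟨hx, hy⟩, Or.inr ⟨hxC, hyx⟩⟩, fun z hz => ?_⟩
        have h0 := (hhm _ _).1 hz
        rcases h0.2 with h1 | h1
        · exact absurd h1.1 hxC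
        · exact hgi z y h0.1.2 hy (by rw [h1.2, hyx])
  have hval : ∀ x : M, x ∈ a → (x ∈ a ∧ app h x ∈ b) ∧ ((x ∈ C ∧ app h x = app f x) ∨ (x ∉ C ∧ app g (app h x) = x)) :=
    fun x hx => (hhm _ _).1 (hfn.mem hx)
  refine ⟨h, isBij_iff.2 ⟨hfn, fun x hx => (hval x hx).1.2, ?_, ?_⟩⟩
  · intro y hy
    by_cases h1 : ∃ z : M, z ∈ C ∧ app f z = y
    · obtain ⟨z, hz, rfl⟩ := h1
      refine ⟨z, hCa z hz, ?_⟩
      rcases (hval z (hCa z hz)).2 with h2 | h2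
      · exact h2.2
      · exact absurd hz h2.1
    · refine ⟨app g y, hg y hy, ?_⟩
      have hxC : app g y ∉ C := fun h2 => hC1 _ h2 ⟨y, hy, rfl, fun z hz he => h1 ⟨z, hz, he⟩⟩
      have h0 := hval _ (hg y hy)
      rcases h0.2 with h2 | h2
      · exact absurd h2.1 hxC
      · exact hgi _ _ h0.1.2 hy h2.2
  · have key : ∀ x x' : M, x ∈ a → x' ∈ a → app h x = app h x' → x ∈ C → x' ∈ C := by
      intro x x' hx hx' he hxC
      by_contra hxC'
      obtain ⟨y', hy', hyx', hyC'⟩ := hC2 x' hx' hxC'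
      have h1 := hval x hx
      have h2 := hval x' hx'
      rcases h1.2 with h3 | h3
      · rcases h2.2 with h4 | h4
        · exact hxC' h4.1
        · have h5 : app h x' = y' := hgi _ _ h2.1.2 hy' (by rw [h4.2, hyx'])
          exact hyC' x hxC (by rw [← h3.2, he, h5])
      · exact h3.1 hxC
    intro x x' hx hx' he
    have h1 := hval x hx
    have h2 := hval x' hx'
    rcases h1.2 with h3 | h3
    · rcases h2.2 with h4 | h4
      · exact hfi x x' hx hx' (by rw [← h3.2, ← h4.2, he])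
      · exact absurd (key x x' hx hx' he h3.1) h4.1
    · rcases h2.2 with h4 | h4
      · exact absurd (key x' x hx' hx he.symm h4.1) h3.1
      · rw [← h3.2, ← h4.2, he]

theorem img_surj {a b y0 : M} (h : Img a b) (hy : y0 ∈ b) : ∃ f : M, IsSurj Model.E f a b := by
  obtain ⟨s, hs⟩ := h
  have i1 : Fn1 (fun x : M => iteM (app s x ∈ b) (app s x) y0) := inferInstance
  refine ⟨lam a (fun x : M => iteM (app s x ∈ b) (app s x) y0), isSurj_iff.2 ⟨lam_fnOn _ _, ?_, ?_⟩⟩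
  · intro x hx
    rw [app_lam hx]
    by_cases h1 : app s x ∈ b
    · rw [iteM_pos h1]
      exact h1
    · rw [iteM_neg h1]
      exact hy
  · intro y hy'
    obtain ⟨x, hx, hxy⟩ := hs y hy'
    refine ⟨x, hx, ?_⟩
    rw [app_lam hx, iteM_pos (by rw [hxy]; exact hy'), hxy]

theorem surj_img {a b f : M} (h : IsSurj Model.E f a b) : Img a b :=
  ⟨f, (isSurj_iff.1 h).2.2⟩

end Pool.Agent.SplH
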