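import Pool.Agent.SplH.I3b
import Pool.Agent.SplH.I4

set_option autoImplicit false
set_option linter.all false
universe u

/-!
# I5: the counting argument
-/

namespace Pool.Agent.SplH

open Pool.Agent.H55.ZFU

variable {M : Type u} [Model M] [Pure M] {k l cf jf mf kf Φ mb z X A g : M}

/-- a long sequence of small functions -/
def Bad (k cf mf Φ A g n : M) : Prop := ∃ x : M,
  (∀ ξ, ξ ∈ app mf (suc (suc n)) → app x ξ ∈ Φ ∧ Ev k A (fun a => app (app x ξ) a ∈ Cn cf n (app g a))) ∧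
  ∀ ξ ζ, ξ ∈ app mf (suc (suc n)) → ζ ∈ app mf (suc (suc n)) → ξ ≠ ζ →
    ¬ Ev k A (fun a => app (app x ξ) a = app (app x ζ) a)

omit [Pure M] in
theorem i5_ord (hU : UI k l cf jf mf kf) {n : M} (hn : n ∈ (omega : M)) : IsOrd (app mf n) :=
  hU.ordl.mem (hU.mu_l n hn)

omit [Pure M] in
theorem i5_sub (hU : UI k l cf jf mf kf) {n : M} (hn : n ∈ (omega : M)) :
    app mf n ⊆ app mf (suc n) :=
  (i5_ord hU (suc_mem_omega hn)).sub (hU.mu_mem n hn)

theorem i5_zero (hU : UI k l cf jf mf kf) (hC : Clo k l cf jf Φ mb z X)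
    (hD : Dcd k Φ A) (hg : Gl k Φ A g) : ¬ Bad k cf mf Φ A g ∅ := by
  rintro ⟨x, hx, hne⟩
  have hk := hU.reg
  have hic := gl_ic hU hC hD hg
  have hgk : ∀ a, a ∈ A → app g a ∈ k := fun a ha => hC.fn g hg.mem a (hD.unb.1 a ha)
  -- decidedness
  have hdec : ∀ ξ, ξ ∈ app mf (suc (suc ∅)) → ∀ y, y ∈ k →
      Ev k A (fun a => Jn jf ∅ (app g a) (app (app x ξ) a) y = ∅) ∨
      Ev k A (fun a => Jn jf ∅ (app g a) (app (app x ξ) a) y ≠ ∅) := by
    intro ξ hξ y hy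
    obtain ⟨c, hc, hc2⟩ := hC.cst y hy
    obtain ⟨f', hf', hf2⟩ := hC.jcl ∅ g (app x ξ) c empty_mem_omega hg.mem (hx ξ hξ).1 hc
    rcases gl_dec hk hC hD hf' (empty_mem_k hk) with h | h
    · exact Or.inl (h.mono (fun a ha h1 => by
        have hak := hD.unb.1 a ha
        show Jn jf ∅ (app g a) (app (app x ξ) a) y = ∅
        rw [← hc2 a hak, ← hf2 a hak]
        exact h1))
    · exact Or.inr (h.mono (fun a ha h1 h2 => h1 (by
        have hak := hD.unb.1 a ha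
        show app f' a = ∅
        rw [hf2 a hak, hc2 a hak]
        exact h2)))
  -- the sets
  have hS : ∀ ξ, ξ ∈ app mf (suc (suc ∅)) → ∃ j, j ∈ app mf (suc ∅) ∧ ∀ y, y ∈ k →
      (Ev k A (fun a => Jn jf ∅ (app g a) (app (app x ξ) a) y = ∅) ↔ Cn kf j y = ∅) := by
    intro ξ hξ
    have i0 : Dfn1 (fun y : M => Ev k A (fun a => Jn jf ∅ (app g a) (app (app x ξ) a) y = ∅)) := inferInstance
    obtain ⟨j, hj, hj'⟩ := hU.ap (sep k (fun y : M => Ev k A (fun a => Jn jf ∅ (app g a) (app (app x ξ) a) y = ∅)))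
      (fun y hy => (mem_sep.1 hy).1) (by
        intro b hb
        have i1 : Dfn2 (fun y a : M => (Ev k A (fun a' => Jn jf ∅ (app g a') (app (app x ξ) a') y = ∅) ↔
          Jn jf ∅ (app g a) (app (app x ξ) a) y = ∅)) := inferInstance
        obtain ⟨γ, hγ, h⟩ := ev_all hk hD.unb.1 (fun y a : M =>
          (Ev k A (fun a' => Jn jf ∅ (app g a') (app (app x ξ) a') y = ∅) ↔
          Jn jf ∅ (app g a) (app (app x ξ) a) y = ∅)) hb (fun y hy => by
            rcases hdec ξ hξ y (i3_sub hk hb hy) with h1 | h1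
            · exact h1.mono (fun a ha h2 => ⟨fun _ => h2, fun _ => h1⟩)
            · exact h1.mono (fun a ha h2 => ⟨fun h3 => (ev_not hD.unb hk h3 h1).elim, fun h3 => (h2 h3).elim⟩))
        obtain ⟨a, ha, hγa⟩ := hD.unb.2 γ hγ
        refine ⟨app g a, app (app x ξ) a, hgk a ha, hC.fn _ (hx ξ hξ).1 a (hD.unb.1 a ha), fun y hy => ?_⟩
        rw [mem_sep]
        exact ⟨fun h1 => (h a ha hγa y hy).1 h1.2, fun h1 => ⟨i3_sub hk hb hy, (h a ha hγa y hy).2 h1⟩⟩)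
    refine ⟨j, hj, fun y hy => ?_⟩
    rw [← hj' y hy, mem_sep]
    exact ⟨fun h => ⟨hy, h⟩, fun h => h.2⟩
  apply hU.card1 (suc ∅) (suc_mem_omega empty_mem_omega)
  refine img_of_fn (fun j : M => mu (fun ξ : M => ξ ∈ app mf (suc (suc ∅)) ∧ ∀ y, y ∈ k →
    (Ev k A (fun a => Jn jf ∅ (app g a) (app (app x ξ) a) y = ∅) ↔ Cn kf j y = ∅))) ?_
  intro ζ hζ
  obtain ⟨j, hj, hj'⟩ := hS ζ hζ
  refine ⟨j, hj, ?_⟩
  have hs := mu_spec (fun ξ : M => ξ ∈ app mf (suc (suc ∅)) ∧ ∀ y, y ∈ k →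
    (Ev k A (fun a => Jn jf ∅ (app g a) (app (app x ξ) a) y = ∅) ↔ Cn kf j y = ∅))
    ⟨ζ, (i5_ord hU (suc_mem_omega (suc_mem_omega empty_mem_omega))).mem hζ, hζ, hj'⟩
  obtain ⟨ξ, hξe⟩ : ∃ ξ : M, ξ = mu (fun ξ : M => ξ ∈ app mf (suc (suc ∅)) ∧ ∀ y, y ∈ k →
    (Ev k A (fun a => Jn jf ∅ (app g a) (app (app x ξ) a) y = ∅) ↔ Cn kf j y = ∅)) := ⟨_, rfl⟩
  rw [← hξe] at hs ⊢
  obtain ⟨hξ, hξ'⟩ := hs.2.1
  by_contra hney
  have hxne : Ev k A (fun a => app (app x ξ) a ≠ app (app x ζ) a) := by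
    rcases hD.eq _ _ (hx ξ hξ).1 (hx ζ hζ).1 with h | h
    · exact (hne ξ ζ hξ hζ hney h).elim
    · exact h
  obtain ⟨f4, hf4, hf4'⟩ := hC.jcl o4 g (app x ξ) (app x ζ) o4_mem hg.mem (hx ξ hξ).1 (hx ζ hζ).1
  have hboth := Ev.and hk hD.unb.1 hic (Ev.and hk hD.unb.1 hxne (Ev.and hk hD.unb.1 (hx ξ hξ).2 (hx ζ hζ).2))
  obtain ⟨d, hd, hd'⟩ := gl_const hk hC hD hg hf4 (hboth.mono (by
    rintro a ha ⟨h1, h2, h3, h4⟩
    show app f4 a ∈ app g a
    rw [hf4' a (hD.unb.1 a ha)]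
    exact (hU.e_d _ _ _ (hgk a ha) h1 h3 h4 h2).1))
  have hneq : Ev k A (fun a => ¬ (Jn jf ∅ (app g a) (app (app x ξ) a) d = ∅ ↔
      Jn jf ∅ (app g a) (app (app x ζ) a) d = ∅)) := by
    refine (Ev.and hk hD.unb.1 hd' hboth).mono ?_
    rintro a ha ⟨h0, h1, h2, h3, h4⟩
    have h5 := (hU.e_d _ _ _ (hgk a ha) h1 h3 h4 h2).2
    have h6 : Jn jf o4 (app g a) (app (app x ξ) a) (app (app x ζ) a) = d := by
      rw [← hf4' a (hD.unb.1 a ha)]
      exact h0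
    rw [h6] at h5
    exact h5
  have hiff : Ev k A (fun a => Jn jf ∅ (app g a) (app (app x ξ) a) d = ∅) ↔
      Ev k A (fun a => Jn jf ∅ (app g a) (app (app x ζ) a) d = ∅) := (hξ' d hd).trans (hj' d hd).symm
  refine ev_not hD.unb hk (φ := fun a => (Jn jf ∅ (app g a) (app (app x ξ) a) d = ∅ ↔
      Jn jf ∅ (app g a) (app (app x ζ) a) d = ∅)) ?_ hneq
  rcases hdec ξ hξ d hd with h1 | h1
  · exact (Ev.and hk hD.unb.1 h1 (hiff.1 h1)).mono (fun a ha h => ⟨fun _ => h.2, fun _ => h.1⟩)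
  · rcases hdec ζ hζ d hd with h2 | h2
    · exact (ev_not hD.unb hk (hiff.2 h2) h1).elim
    · exact (Ev.and hk hD.unb.1 h1 h2).mono (fun a ha h => ⟨fun h3 => (h.1 h3).elim, fun h3 => (h.2 h3).elim⟩)

theorem i5_inj [Choice M] (hU : UI k l cf jf mf kf) (hC : Clo k l cf jf Φ mb z X)
    (hD : Dcd k Φ A) (hg : Gl k Φ A g) {n : M} (hn : n ∈ (omega : M)) (hno : ¬ Bad k cf mf Φ A g n)
    {x : M}
    (hx : ∀ ξ, ξ ∈ app mf (suc (suc (suc n))) → app x ξ ∈ Φ ∧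
      Ev k A (fun a => app (app x ξ) a ∈ Cn cf (suc n) (app g a)))
    (hne : ∀ ξ ζ, ξ ∈ app mf (suc (suc (suc n))) → ζ ∈ app mf (suc (suc (suc n))) → ξ ≠ ζ →
      ¬ Ev k A (fun a => app (app x ξ) a = app (app x ζ) a))
    {ζ : M} (hζ : ζ ∈ app mf (suc (suc (suc n)))) {e : M}
    (he : ∀ i, i ∈ app mf (suc (suc n)) → app e i ∈ app mf (suc (suc (suc n))) ∧
      Ev k A (fun a => app (app x (app e i)) a ∈ suc (app (app x ζ) a)))
    (hinj : ∀ i j, i ∈ app mf (suc (suc n)) → j ∈ app mf (suc (suc n)) → app e i = app e j → i = j) : False := by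
  obtain ⟨hζΦ, hζE⟩ := hx ζ hζ
  obtain ⟨x', _, hx'⟩ := choose_fn (fun η f' : M => ∀ a, a ∈ k →
    app f' a = Jn jf (s5 n) (app g a) (app (app x ζ) a) (app (app x (app e η)) a)) (app mf (suc (suc n))) Φ (by
      intro η hη
      exact hC.jcl (s5 n) g (app x ζ) (app x (app e η)) (s5_mem hn) hg.mem hζΦ (hx _ (he η hη).1).1)
  apply hno
  refine ⟨x', ?_, ?_⟩
  · intro η hη
    obtain ⟨h1, h2⟩ := hx' η hη
    refine ⟨h1, Ev.mono (Ev.and hU.reg hD.unb.1 hζE (he η hη).2) ?_⟩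
    rintro a ha ⟨h3, h4⟩
    have hak := hD.unb.1 a ha
    show app (app x' η) a ∈ Cn cf n (app g a)
    rw [h2 a hak]
    exact hU.j_c n _ _ _ hn (hC.fn g hg.mem a hak) h3 h4
  · intro η η' hη hη' hηη' hE
    refine hne _ _ (he η hη).1 (he η' hη').1 (fun h => hηη' (hinj η η' hη hη' h)) ?_
    refine Ev.mono (Ev.and hU.reg hD.unb.1 hE (Ev.and hU.reg hD.unb.1 hζE
      (Ev.and hU.reg hD.unb.1 (he η hη).2 (he η' hη').2))) ?_
    rintro a ha ⟨h3, h4, h5, h6⟩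
    have hak := hD.unb.1 a ha
    have h7 : app (app x' η) a = app (app x' η') a := h3
    rw [(hx' η hη).2 a hak, (hx' η' hη').2 a hak] at h7
    exact hU.j_inj n _ _ _ _ hn (hC.fn g hg.mem a hak) h4 h5 h6 h7

theorem i5_succ [Choice M] (hU : UI k l cf jf mf kf) (hC : Clo k l cf jf Φ mb z X)
    (hD : Dcd k Φ A) (hg : Gl k Φ A g) {n : M} (hn : n ∈ (omega : M)) (hno : ¬ Bad k cf mf Φ A g n) :
    ¬ Bad k cf mf Φ A g (suc n) := by
  rintro ⟨x, hx, hne⟩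
  have hsn := suc_mem_omega hn
  have hssn := suc_mem_omega hsn
  have hinj : ∀ ζ, ζ ∈ app mf (suc (suc (suc n))) → ∀ e : M,
      (∀ i, i ∈ app mf (suc (suc n)) → app e i ∈ app mf (suc (suc (suc n))) ∧
        Ev k A (fun a => app (app x (app e i)) a ∈ suc (app (app x ζ) a))) →
      (∀ i j, i ∈ app mf (suc (suc n)) → j ∈ app mf (suc (suc n)) → app e i = app e j → i = j) → False :=
    fun ζ hζ e he hi => i5_inj hU hC hD hg hn hno hx hne hζ he hi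
  -- the initial segments
  obtain ⟨P, hP⟩ : ∃ P : M → M, P = fun ζ => sep (app mf (suc (suc (suc n))))
    (fun ξ => Ev k A (fun a => app (app x ξ) a ∈ suc (app (app x ζ) a))) := ⟨_, rfl⟩
  have iP : Fn1 P := by rw [hP]; infer_instance
  have memP : ∀ ζ ξ, ξ ∈ P ζ ↔ ξ ∈ app mf (suc (suc (suc n))) ∧
      Ev k A (fun a => app (app x ξ) a ∈ suc (app (app x ζ) a)) := by
    intro ζ ξ
    rw [hP]
    exact mem_sep
  have hImg : ∀ ζ, ζ ∈ app mf (suc (suc (suc n))) → Img (app mf (suc n)) (P ζ) := by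
    intro ζ hζ
    rcases img_or_inj (s := P ζ) (i5_ord hU hssn) (fun δ hδ => hU.card2 n δ hn hδ) with h | ⟨e, he, he'⟩
    · exact h
    · exact (hinj ζ hζ e (fun i hi => (memP ζ _).1 (he i hi)) he').elim
  have hcov : ∀ ζ, ζ ∈ app mf (suc (suc (suc n))) → ∃ ξ, ξ ∈ app mf (suc (suc n)) ∧ ζ ∈ P ξ := by
    intro ζ hζ
    by_contra hcon
    push Not at hcon
    have h1 : ∀ ξ, ξ ∈ app mf (suc (suc n)) → Ev k A (fun a => app (app x ξ) a ∈ app (app x ζ) a) := by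
      intro ξ hξ
      have hξ2 := i5_sub hU hssn ξ hξ
      rcases hD.mem _ _ (hx ξ hξ2).1 (hx ζ hζ).1 with h | h
      · exact h
      · refine (hcon ξ hξ ((memP ξ ζ).2 ⟨hζ, Ev.mono h ?_⟩)).elim
        intro a ha h2
        have hak := hD.unb.1 a ha
        have o1 := hU.reg.ord.mem (hC.fn _ (hx ξ hξ2).1 a hak)
        have o2 := hU.reg.ord.mem (hC.fn _ (hx ζ hζ).1 a hak)
        show app (app x ζ) a ∈ suc (app (app x ξ) a)
        rw [mem_suc]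
        exact (ord_sub_iff o2 o1).1 (ord_not_mem o1 o2 h2)
    refine hinj ζ hζ (lam (app mf (suc (suc n))) (fun i => i)) ?_ ?_
    · intro i hi
      rw [app_lam hi]
      refine ⟨i5_sub hU hssn i hi, Ev.mono (h1 i hi) ?_⟩
      intro a _ h2
      show app (app x i) a ∈ suc (app (app x ζ) a)
      rw [mem_suc]
      exact Or.inl h2
    · intro i j hi hj h
      rw [app_lam hi, app_lam hj] at h
      exact h
  have h1 : Img (prod (app mf (suc (suc n))) (app mf (suc n))) (app mf (suc (suc (suc n)))) :=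
    img_union P (fun ξ hξ => hImg ξ (i5_sub hU hssn ξ hξ)) hcov
  have h2 : Img (app mf (suc (suc n))) (prod (app mf (suc (suc n))) (app mf (suc n))) := by
    refine img_sub (hU.pn (suc (suc n)) hssn) (Sub.refl _) ?_
    intro p hp
    obtain ⟨a, ha, b, hb, rfl⟩ := mem_prod.1 hp
    exact opair_mem_prod.2 ⟨ha, i5_sub hU hsn b hb⟩
  exact hU.card1 (suc (suc n)) hssn (img_trans h2 h1)

theorem not_bad [Choice M] (hU : UI k l cf jf mf kf) (hC : Clo k l cf jf Φ mb z X)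
    (hD : Dcd k Φ A) (hg : Gl k Φ A g) : ∀ n, n ∈ (omega : M) → ¬ Bad k cf mf Φ A g n := by
  have : Dfn1 (fun n : M => ¬ Bad k cf mf Φ A g n) := by
    unfold Bad
    infer_instance
  exact omega_induction (fun n : M => ¬ Bad k cf mf Φ A g n) (i5_zero hU hC hD hg)
    (fun n hn ih => i5_succ hU hC hD hg hn ih)

end Pool.Agent.SplH
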