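import Pool.Agent.SplH.IDefs

set_option autoImplicit false
set_option linter.all false
universe u

/-!
# I7 (3): every unbounded set is split by some set

Parity: by recursion (`exists_rec`, Rec.lean, parameter `A`) there is a definable `p : M → M` with, for `a ∈ A`: if `A ∩ a` has a greatest element `b` (`b ∈ A`, `b ∈ a`, no element of `A` in `a` above `b`) and `p b = ∅` then
`p a = suc ∅`, otherwise `p a = ∅`. `B = {a ∈ A | p a = ∅}`. For `γ ∈ k` take `a ∈ A` with `γ ∈ a` (`Unb`) and the least `a' ∈ A` with `a ∈ a'` (`mu`, `least_ord`; exists by `Unb` for `a ∈ k`). Then `a` is the greatest element of `A ∩ a'`, so exactly one of `p a`, `p a'` is `∅`: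
if `p a = ∅` then `p a' = suc ∅ ≠ ∅`; if `p a ≠ ∅` then `p a' = ∅`. Both are above `γ`.
(All elements of `k` are ordinals; `ord_tri`.)
-/

namespace Pool.Agent.SplH

open Pool.Agent.H55.ZFU

variable {M : Type u} [Model M] [Pure M]

theorem exists_spl {k A : M} (hk : Reg k) (hA : Unb k A) : ∃ B, B ⊆ k ∧ Spl k B A := by
  obtain ⟨F, hF, hrec⟩ := exists_rec (M := M) (fun p x g =>
    iteM (∃ b, b ∈ A ∧ b ∈ x ∧ (∀ c, c ∈ A → c ∈ x → b ∉ c) ∧ app g b = ∅) (suc ∅) ∅)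
  have iF : Fn1 (fun y => F ∅ y) := DFun.comp2 hF (fun _ => ∅) (fun v => v 0)
  have iFs : ∀ {ι : Type} (t : (ι → M) → M) [DFun t], DFun (fun v => F ∅ (t v)) :=
    fun t => DFun.comp1 iF t
  have hord : ∀ x, x ∈ A → IsOrd x := fun x hx => hk.ord.mem (hA.1 x hx)
  -- the successor in `A`
  have hsucc : ∀ γ, γ ∈ k → ∃ a a', a ∈ A ∧ a' ∈ A ∧ γ ∈ a ∧ γ ∈ a' ∧ (F ∅ a = ∅ ↔ F ∅ a' ≠ ∅) := by
    intro γ hγ
    obtain ⟨a, ha, hγa⟩ := hA.2 γ hγ
    obtain ⟨a1, ha1, haa1⟩ := hA.2 a (hA.1 a ha)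
    have iP : Dfn1 (fun x : M => x ∈ A ∧ a ∈ x) := inferInstance
    obtain ⟨a', ha'o, ⟨ha', haa'⟩, hleast⟩ := least_ord (fun x : M => x ∈ A ∧ a ∈ x) ⟨a1, hord a1 ha1, ha1, haa1⟩
    refine ⟨a, a', ha, ha', hγa, ha'o.2.1 a haa' γ hγa, ?_⟩
    have hmax : ∀ c, c ∈ A → c ∈ a' → a ∉ c := by
      intro c hc hca' hac
      exact not_mem_self c (hleast c (hord c hc) ⟨hc, hac⟩ c hca')
    have huniq : ∀ b, b ∈ A → b ∈ a' → (∀ c, c ∈ A → c ∈ a' → b ∉ c) → b = a := by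
      intro b hb hba' hbmax
      rcases ord_tri b (hord b hb) a (hord a ha) with h | h | h
      · exact absurd h (hbmax a ha haa')
      · exact h
      · exact absurd h (hmax b hb hba')
    have hr := hrec ∅ a'
    by_cases h0 : F ∅ a = ∅
    · rw [iteM_pos] at hr
      · rw [hr]
        exact ⟨fun _ => suc_ne_empty ∅, fun _ => h0⟩
      · exact ⟨a, ha, haa', hmax, by rw [app_lam haa']; exact h0⟩
    · rw [iteM_neg] at hr
      · rw [hr]
        exact ⟨fun h => absurd h h0, fun h => absurd rfl h⟩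
      · rintro ⟨b, hb, hba', hbmax, hb0⟩
        rw [app_lam hba', huniq b hb hba' hbmax] at hb0
        exact h0 hb0
  have iB : Dfn1 (fun a : M => F ∅ a = ∅) := inferInstance
  refine ⟨sep A (fun a => F ∅ a = ∅), fun x hx => hA.1 x (mem_sep.1 hx).1, ?_, ?_⟩
  · intro γ hγ
    obtain ⟨a, a', ha, ha', hγa, hγa', h⟩ := hsucc γ hγ
    by_cases h0 : F ∅ a = ∅
    · exact ⟨a, ha, mem_sep.2 ⟨ha, h0⟩, hγa⟩
    · refine ⟨a', ha', mem_sep.2 ⟨ha', ?_⟩, hγa'⟩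
      by_contra h1
      exact h0 (h.2 h1)
  · intro γ hγ
    obtain ⟨a, a', ha, ha', hγa, hγa', h⟩ := hsucc γ hγ
    by_cases h0 : F ∅ a = ∅
    · exact ⟨a', ha', fun h1 => h.1 h0 (mem_sep.1 h1).2, hγa'⟩
    · exact ⟨a, ha, fun h1 => h0 (mem_sep.1 h1).2, hγa⟩

end Pool.Agent.SplH
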