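import Pool.Agent.SplH.I2
import Pool.Agent.SplH.I5
import Pool.Agent.SplH.I6
import Pool.Agent.SplH.I7

set_option autoImplicit false
set_option linter.all false
universe u

/-!
# I8 (4): the upper bound inside the model

`exists_pwd`: `app mb b` := the least `n ∈ omega` with `Img (Cn cf n b) (pow b)` (`mu`, `nat_ord`), `mb = lam k ..`; `z` := a choice of surjections (`choose_fn` with values in
`funs (Cn cf n b) (pow b)`; take one big set, e.g. `funs (bigU ..) (pow (bigU ..))`, or `pow (prod k (pow k))` with `app` of a subset; every `s` can be replaced by the function `lam (Cn cf n b) (fun i => inter (app s i) b)`, an element of `pow (prod k (pow k))`).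
`upper`: if `Img l (pow k)` take `F = pow k` and `exists_spl`. Otherwise let `θ`, `e` be given by `wellorder (pow k)`; `l ⊆ θ` (if not, `θ ∈ l` by `ord_tri`, `ord_sub_iff`, so `Img l (pow k)`); `X = e`: `app X j ⊆ k`
for `j ∈ l`, and injective on `l`. `Φ` from `exists_Phi`. `F = {sep k (app f a ∈ app h a) | f, h ∈ Φ} ∪ {sep k (app f a = app h a) | f, h ∈ Φ}` (`img (prod Φ Φ)`); `Img l F`: `Img l Φ`, `img_prod`, `hU.pl`,
(for the union: `Img l (un F₁ F₂)` from `Img l F₁`, `Img l F₂` and `Img l (prod l l)`: `w ↦ ` if `fst = ∅` ...). Let `A` be unbounded and not split by any member of `F`. Then `Dcd k Φ A` (`Spl` fails for `S = {a ∈ k | f a ∈ h a}`: either all elements of `A ∩ S` or all elements of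
`A \ S` are bounded: `Ev`). `g` from `exists_g`, `n` from `gl_m`, functions `E_j ∈ Φ` for `j ∈ l` from `hC.ecl` with `f = g`, chosen by `choose_fn` (`IsE`); `e_mem`, `e_ne` show `Bad k cf mf Φ A g n` (`app mf (suc n) ⊆ l`), against `not_bad`.
-/

namespace Pool.Agent.SplH

open Pool.Agent.H55.ZFU

variable {M : Type u} [Model M] [Pure M] [Choice M]

theorem exists_pwd {k l cf jf mf kf : M} (hU : UI k l cf jf mf kf) : ∃ mb z, PwD k cf mb z := by
  have hord : IsOrd k := hU.reg.ord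
  have i0 : Fn1 (fun b : M => mu (fun n : M => n ∈ (omega : M) ∧ Img (Cn cf n b) (pow b))) := inferInstance
  obtain ⟨mb, hmb⟩ : ∃ mb : M, mb = lam k (fun b : M => mu (fun n : M => n ∈ (omega : M) ∧ Img (Cn cf n b) (pow b))) :=
    ⟨_, rfl⟩
  have h1 : ∀ b, b ∈ k → app mb b ∈ (omega : M) ∧ Img (Cn cf (app mb b) b) (pow b) := by
    intro b hb
    rw [hmb, app_lam hb]
    obtain ⟨n, hn, hn'⟩ := hU.pw b hb
    exact (mu_spec (fun n : M => n ∈ (omega : M) ∧ Img (Cn cf n b) (pow b)) ⟨n, nat_ord hn, hn, hn'⟩).2.1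
  have i1 : Dfn2 (fun b s : M => ∀ Y : M, Y ∈ pow b → ∃ i : M, i ∈ Cn cf (app mb b) b ∧ app s i = Y) := inferInstance
  obtain ⟨z, _, hz⟩ := choose_fn
    (fun b s : M => ∀ Y : M, Y ∈ pow b → ∃ i : M, i ∈ Cn cf (app mb b) b ∧ app s i = Y) k (pow (prod k (pow k))) (by
      intro b hb
      obtain ⟨hm, s, hs⟩ := h1 b hb
      have hCk : Cn cf (app mb b) b ∈ k := hU.c_mem _ _ hm hb
      have i2 : Fn1 (fun i : M => inter (app s i) b) := inferInstance
      refine ⟨lam (Cn cf (app mb b) b) (fun i : M => inter (app s i) b), ?_, ?_⟩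
      · rw [mem_pow']
        intro p hp
        rw [mem_lam] at hp
        obtain ⟨i, hi, rfl⟩ := hp
        rw [opair_mem_prod]
        refine ⟨hord.sub hCk i hi, ?_⟩
        rw [mem_pow']
        intro c hc
        rw [mem_inter] at hc
        exact hord.sub hb c hc.2
      · intro Y hY
        obtain ⟨i, hi, hi'⟩ := hs Y hY
        refine ⟨i, hi, ?_⟩
        rw [app_lam hi, hi']
        rw [mem_pow'] at hY
        apply ext
        intro c
        rw [mem_inter]
        exact ⟨fun h => h.1, fun h => ⟨h, hY c h⟩⟩)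
  exact ⟨mb, z, ⟨fun b hb => (h1 b hb).1, fun b hb => (hz b hb).2⟩⟩

theorem i8_img_un {l F₁ F₂ : M} (hl : IsOrd l) (h0 : (∅ : M) ∈ l) (h1 : suc (∅ : M) ∈ l) (hpl : Img l (prod l l))
    (hF₁ : Img l F₁) (hF₂ : Img l F₂) : Img l (un F₁ F₂) := by
  obtain ⟨s₁, hs₁⟩ := hF₁
  obtain ⟨s₂, hs₂⟩ := hF₂
  refine img_trans hpl ?_
  have i0 : Fn1 (fun w : M => iteM (fst w = ∅) (app s₁ (snd w)) (app s₂ (snd w))) := inferInstance
  refine img_of_fn (fun w : M => iteM (fst w = ∅) (app s₁ (snd w)) (app s₂ (snd w))) ?_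
  intro y hy
  rw [mem_un] at hy
  rcases hy with hy | hy
  · obtain ⟨x, hx, hx'⟩ := hs₁ y hy
    refine ⟨opair ∅ x, opair_mem_prod.2 ⟨h0, hx⟩, ?_⟩
    show iteM (fst (opair ∅ x) = ∅) (app s₁ (snd (opair ∅ x))) (app s₂ (snd (opair ∅ x))) = y
    rw [fst_opair, snd_opair, iteM_pos rfl, hx']
  · obtain ⟨x, hx, hx'⟩ := hs₂ y hy
    refine ⟨opair (suc ∅) x, opair_mem_prod.2 ⟨h1, hx⟩, ?_⟩
    show iteM (fst (opair (suc ∅) x) = ∅) (app s₁ (snd (opair (suc ∅) x))) (app s₂ (snd (opair (suc ∅) x))) = y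
    rw [fst_opair, snd_opair, iteM_neg (suc_ne_empty ∅), hx']

/-- if `A` is not split by the set of the elements of `k` with `φ` then `φ` is decided -/
theorem i8_dcd {k A : M} (hA : Unb k A) (φ : M → Prop) [Dfn1 φ] (h : ¬ Spl k (sep k φ) A) :
    Ev k A φ ∨ Ev k A (fun a => ¬ φ a) := by
  by_contra hcon
  push Not at hcon
  apply h
  constructor
  · intro γ hγ
    by_contra h1
    push Not at h1
    apply hcon.2
    refine ⟨γ, hγ, fun a ha hγa hφ => ?_⟩
    exact h1 a ha (mem_sep.2 ⟨hA.1 a ha, hφ⟩) hγa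
  · intro γ hγ
    by_contra h1
    push Not at h1
    apply hcon.1
    refine ⟨γ, hγ, fun a ha hγa => ?_⟩
    by_contra hφ
    exact h1 a ha (fun h2 => hφ (mem_sep.1 h2).2) hγa

theorem upper {k l cf jf mf kf : M} (hU : UI k l cf jf mf kf) :
    ∃ F, (∀ x, x ∈ F → x ⊆ k) ∧ Img l F ∧ ∀ A, Unb k A → ∃ x, x ∈ F ∧ Spl k x A := by
  have hk := hU.reg
  by_cases hl : Img l (pow k)
  · refine ⟨pow k, fun x hx => (mem_pow.1 hx).2, hl, fun A hA => ?_⟩
    obtain ⟨B, hB, hB'⟩ := exists_spl hk hA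
    exact ⟨B, mem_pow'.2 hB, hB'⟩
  obtain ⟨θ, e, hθ, _, he1, he2, he3⟩ := wellorder (pow k)
  have hlθ : l ⊆ θ := by
    rcases ord_tri l hU.ordl θ hθ with h | h | h
    · exact hθ.sub h
    · rw [h]; exact Sub.refl _
    · exfalso
      apply hl
      refine ⟨e, fun y hy => ?_⟩
      obtain ⟨i, hi, hi'⟩ := he3 y hy
      exact ⟨i, hU.ordl.sub h i hi, hi'⟩
  obtain ⟨mb, z, hP⟩ := exists_pwd hU
  obtain ⟨Φ, hC, hΦ⟩ := exists_Phi (X := e) hU hP
  have hkl : k ∈ l := by
    have := hU.mu_l ∅ empty_mem_omega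
    rwa [hU.mu0] at this
  have hol : ∀ n, n ∈ (omega : M) → n ∈ l := fun n hn => hU.ordl.sub hkl n (hk.ord.sub hk.om n hn)
  have i1 : Fn1 (fun v : M => sep k (fun a => app (fst v) a ∈ app (snd v) a)) := inferInstance
  have i2 : Fn1 (fun v : M => sep k (fun a => app (fst v) a = app (snd v) a)) := inferInstance
  have hΦΦ : Img l (prod Φ Φ) := img_trans hU.pl (img_prod hΦ hΦ)
  refine ⟨un (img (prod Φ Φ) (fun v : M => sep k (fun a => app (fst v) a ∈ app (snd v) a)))
    (img (prod Φ Φ) (fun v : M => sep k (fun a => app (fst v) a = app (snd v) a))), ?_, ?_, ?_⟩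
  · intro x hx
    rw [mem_un, mem_img, mem_img] at hx
    rcases hx with ⟨v, _, rfl⟩ | ⟨v, _, rfl⟩
    · intro a ha
      have i3 : Dfn1 (fun a : M => app (fst v) a ∈ app (snd v) a) := inferInstance
      exact (mem_sep.1 ha).1
    · intro a ha
      have i3 : Dfn1 (fun a : M => app (fst v) a = app (snd v) a) := inferInstance
      exact (mem_sep.1 ha).1
  · apply i8_img_un hU.ordl (hol _ empty_mem_omega) (hol _ (suc_mem_omega empty_mem_omega)) hU.pl
    · refine img_trans hΦΦ (img_of_fn (fun v : M => sep k (fun a => app (fst v) a ∈ app (snd v) a)) ?_)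
      intro y hy
      rw [mem_img] at hy
      obtain ⟨v, hv, hv'⟩ := hy
      exact ⟨v, hv, hv'.symm⟩
    · refine img_trans hΦΦ (img_of_fn (fun v : M => sep k (fun a => app (fst v) a = app (snd v) a)) ?_)
      intro y hy
      rw [mem_img] at hy
      obtain ⟨v, hv, hv'⟩ := hy
      exact ⟨v, hv, hv'.symm⟩
  · intro A hA
    by_contra hcon
    push Not at hcon
    have hD : Dcd k Φ A := by
      refine ⟨hA, fun f h hf hh => ?_, fun f h hf hh => ?_⟩
      · have i3 : Dfn1 (fun a : M => app f a ∈ app h a) := inferInstance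
        apply i8_dcd hA (fun a : M => app f a ∈ app h a)
        apply hcon
        rw [mem_un, mem_img]
        left
        refine ⟨opair f h, opair_mem_prod.2 ⟨hf, hh⟩, ?_⟩
        rw [fst_opair, snd_opair]
      · have i3 : Dfn1 (fun a : M => app f a = app h a) := inferInstance
        apply i8_dcd hA (fun a : M => app f a = app h a)
        apply hcon
        rw [mem_un, mem_img, mem_img]
        right
        refine ⟨opair f h, opair_mem_prod.2 ⟨hf, hh⟩, ?_⟩
        rw [fst_opair, snd_opair]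
    obtain ⟨g, hg⟩ := exists_g hk hC hD
    obtain ⟨n, hn, hn'⟩ := gl_m hk hC hD hg hP
    have i4 : Dfn2 (fun j f : M => IsE k cf mb z e g j f) := by
      unfold IsE
      infer_instance
    obtain ⟨x, _, hx⟩ := choose_fn (fun j f : M => IsE k cf mb z e g j f) l Φ (by
      intro j hj
      obtain ⟨f', hf', hf''⟩ := hC.ecl j g hj hg.mem
      exact ⟨f', hf', hf''⟩)
    have hsub : ∀ ξ, ξ ∈ app mf (suc (suc n)) → ξ ∈ l := hU.ordl.sub (hU.mu_l _ (suc_mem_omega (suc_mem_omega hn)))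
    have heX : ∀ ξ, ξ ∈ l → app e ξ ⊆ k := fun ξ hξ => (mem_pow.1 (he1 ξ (hlθ ξ hξ))).2
    refine not_bad hU hC hD hg n hn ⟨x, ?_, ?_⟩
    · intro ξ hξ
      exact ⟨(hx ξ (hsub ξ hξ)).1, e_mem hk hC hD hg hP hU.c_mem (hx ξ (hsub ξ hξ)).2 hn'⟩
    · intro ξ ζ hξ hζ hne
      refine e_ne hk hC hD hg hP hU.c_mem (heX ξ (hsub ξ hξ)) (heX ζ (hsub ζ hζ)) ?_ (hx ξ (hsub ξ hξ)).2
        (hx ζ (hsub ζ hζ)).2
      intro h
      exact hne (he2 ξ ζ (hlθ ξ (hsub ξ hξ)) (hlθ ζ (hsub ζ hζ)) h)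

end Pool.Agent.SplH
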