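import Pool.Agent.SplH.T4

set_option autoImplicit false
set_option linter.all false

/-!
# T7: the lower bound for the splitting number in the model
-/

namespace Pool.Agent.SplH

open FirstOrder FirstOrder.Language Pool.Agent.H55.SC Pool.Agent.H55.ZFU Pool.Agent.H55.Lav

variable {Q : Type} [Preorder Q] [OrderTop Q] {L : Type} [LinearOrder L] [WellFoundedLT L]

omit [Preorder Q] [OrderTop Q] in
theorem t7_wit {α : Type} (P : α → Prop) : ∀ᶠ N in club (Un Q), (∃ a, P a) → ∃ a, P a ∧ InT N a := by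
  by_cases h : ∃ a, P a
  · obtain ⟨a, ha⟩ := h
    exact (club_inT a).mono (fun N hN _ => ⟨a, ha, hN⟩)
  · exact Filter.Eventually.of_forall (fun N h' => (h h').elim)

/-- `q` forces that almost all elements of `A` are in `S i`, or almost all are not. -/
def t7_U (k : L) (A : L → Set Q) (S : L → L → Set Q) (i a : L) (q : Q) : Prop :=
  (∀ b, a < b → b < k → ∀ E ≤ q, BelQ (A b) E → FoQ (S i b) E) ∨
    ∀ b, a < b → b < k → ∀ E ≤ q, BelQ (A b) E → IncQ (S i b) E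

/-- Closure properties of `N` used in this file. -/
structure t7_Ok (D : VDat L) (N : Set (Un Q)) : Prop where
  n1 : ∀ δ : L, InT N δ → ∀ S : L → L → Set Q, InT N S → InT N {q : Q | ∃ A, NsP D.k δ S q A}
  n2 : ∀ δ : L, InT N δ → ∀ S : L → L → Set Q, InT N S → ∀ q : Q, InT N q → (∃ A, NsP D.k δ S q A) →
    ∃ A, NsP D.k δ S q A ∧ InT N A
  n3 : ∀ A : L → Set Q, InT N A → ∀ a : L, InT N a → InT N {E : Q | ∃ b, a < b ∧ b < D.k ∧ E ∈ A b}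
  n4 : ∀ A : L → Set Q, InT N A → ∀ a : L, InT N a → ∀ q : Q, InT N q →
    (∃ b, a < b ∧ b < D.k ∧ q ∈ A b) → ∃ b, (a < b ∧ b < D.k ∧ q ∈ A b) ∧ InT N b
  n5 : ∀ A : L → Set Q, InT N A → ∀ S : L → L → Set Q, InT N S → ∀ i : L, InT N i →
    InT N {q : Q | ∃ a, a < D.k ∧ t7_U D.k A S i a q}
  n6 : ∀ A : L → Set Q, InT N A → ∀ S : L → L → Set Q, InT N S → ∀ i : L, InT N i → ∀ q : Q, InT N q →
    (∃ a, a < D.k ∧ t7_U D.k A S i a q) → ∃ a, (a < D.k ∧ t7_U D.k A S i a q) ∧ InT N a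

omit [OrderTop Q] [WellFoundedLT L] in
theorem t7_ok_club (D : VDat L) : ∀ᶠ N in club (Un Q), t7_Ok (Q := Q) D N := by
  have h1 : ∀ᶠ N in club (Un Q), ∀ δ : L, InT N δ → ∀ S : L → L → Set Q, InT N S →
      InT N {q : Q | ∃ A, NsP D.k δ S q A} :=
    diagT (fun δ => diagT (fun S => club_inT _))
  have h2 : ∀ᶠ N in club (Un Q), ∀ δ : L, InT N δ → ∀ S : L → L → Set Q, InT N S → ∀ q : Q, InT N q →
      (∃ A, NsP D.k δ S q A) → ∃ A, NsP D.k δ S q A ∧ InT N A :=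
    diagT (fun δ => diagT (fun S => diagT (fun q => t7_wit _)))
  have h3 : ∀ᶠ N in club (Un Q), ∀ A : L → Set Q, InT N A → ∀ a : L, InT N a →
      InT N {E : Q | ∃ b, a < b ∧ b < D.k ∧ E ∈ A b} :=
    diagT (fun A => diagT (fun a => club_inT _))
  have h4 : ∀ᶠ N in club (Un Q), ∀ A : L → Set Q, InT N A → ∀ a : L, InT N a → ∀ q : Q, InT N q →
      (∃ b, a < b ∧ b < D.k ∧ q ∈ A b) → ∃ b, (a < b ∧ b < D.k ∧ q ∈ A b) ∧ InT N b :=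
    diagT (fun A => diagT (fun a => diagT (fun q => t7_wit _)))
  have h5 : ∀ᶠ N in club (Un Q), ∀ A : L → Set Q, InT N A → ∀ S : L → L → Set Q, InT N S → ∀ i : L, InT N i →
      InT N {q : Q | ∃ a, a < D.k ∧ t7_U D.k A S i a q} :=
    diagT (fun A => diagT (fun S => diagT (fun i => club_inT _)))
  have h6 : ∀ᶠ N in club (Un Q), ∀ A : L → Set Q, InT N A → ∀ S : L → L → Set Q, InT N S → ∀ i : L, InT N i →
      ∀ q : Q, InT N q → (∃ a, a < D.k ∧ t7_U D.k A S i a q) →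
      ∃ a, (a < D.k ∧ t7_U D.k A S i a q) ∧ InT N a :=
    diagT (fun A => diagT (fun S => diagT (fun i => diagT (fun q => t7_wit _))))
  filter_upwards [h1, h2, h3, h4, h5, h6] with N h1 h2 h3 h4 h5 h6
  exact ⟨h1, h2, h3, h4, h5, h6⟩

theorem ns_club {D : VDat L} (hV : VFrc Q D) : ∀ᶠ N in club (Un Q), ∀ (G : Set Q) [Env N G] [LEnv N L] [DEnv N D] (δ F : MM N G),
    δ ∈ ll G N L → Img δ F → ∃ A, Unb (lv G (D.kN (N := N))) A ∧ ∀ x, x ∈ F → ¬ Spl (lv G (D.kN (N := N))) x A := by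
  filter_upwards [t7_ok_club (Q := Q) D] with N hok G hE hL hD δ' F hδ' hImg
  obtain ⟨δ, rfl⟩ := mem_ll.1 hδ'
  obtain ⟨s, hs⟩ := hImg
  obtain ⟨S, hS, hdec⟩ := dec2 (N := N) (G := G) (L := L) (fun x y : MM N G => y ∈ app s x)
  obtain ⟨q, hq, hqA⟩ := hE.gen.gen _ (hok.n1 δ.1 δ.2 S hS) (fun p => by
    obtain ⟨q, hqp, A, hA⟩ := hV.ns δ.1 S p
    exact ⟨q, ⟨A, hA⟩, hqp⟩)
  obtain ⟨A, hN, hA⟩ := hok.n2 δ.1 δ.2 S hS q (hE.gen.sub q hq) hqA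
  obtain ⟨a0, ha0⟩ := exists_set (N := N) (G := G) (L := L) hA
  have memA : ∀ x : MM N G, x ∈ inter a0 (lv G (D.kN (N := N))) ↔
      ∃ b : LN N L, b.1 < D.k ∧ x = lv G b ∧ Ht G (A b.1) := by
    intro x
    rw [mem_inter, ha0, mem_lv]
    constructor
    · rintro ⟨⟨b, rfl, hb⟩, ⟨j, hj, hbj⟩⟩
      have := lv_inj hbj
      subst this
      exact ⟨b, hj, rfl, hb⟩
    · rintro ⟨b, hb, rfl, hbA⟩
      exact ⟨⟨b, rfl, hbA⟩, ⟨b, hb, rfl⟩⟩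
  refine ⟨inter a0 (lv G (D.kN (N := N))), ⟨fun x hx => (mem_inter.1 hx).2, ?_⟩, ?_⟩
  · -- unbounded
    intro γ hγ
    obtain ⟨j, hj, rfl⟩ := mem_lv.1 hγ
    have h1 := ht_of_fo hE.qok hE.gen (hok.n3 A hA j.1 j.2) hq (hN.unb j.1 hj)
    obtain ⟨q', hq', hb⟩ := h1
    obtain ⟨b, ⟨h2, h3, h4⟩, h5⟩ := hok.n4 A hA j.1 j.2 q' (hE.gen.sub q' hq') hb
    refine ⟨lv G ⟨b, h5⟩, (memA _).2 ⟨⟨b, h5⟩, h3, rfl, q', hq', h4⟩, ?_⟩
    exact lv_lt.2 h2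
  · -- not split
    rintro X hX ⟨hsp1, hsp2⟩
    obtain ⟨y, hy, rfl⟩ := hs X hX
    obtain ⟨i, hi, rfl⟩ := mem_lv.1 hy
    obtain ⟨q2, hq2, hU⟩ := ht_u (hok.n5 A hA S hS i.1 i.2) hq (fun q' hq' => by
      obtain ⟨q'', h1, a, h2, h3⟩ := hN.uns i.1 hi q' hq'
      exact ⟨q'', h1, a, h2, h3⟩)
    obtain ⟨a, ⟨hak, hU⟩, haN⟩ := hok.n6 A hA S hS i.1 i.2 q2 (hE.gen.sub q2 hq2) hU
    have hγ : lv G (⟨a, haN⟩ : LN N L) ∈ lv G (D.kN (N := N)) := lv_lt.2 hak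
    have hSib : ∀ b : LN N L, InT N (S i.1 b.1) := fun b =>
      (hL.iok).app (S i.1) (hL.sec S hS i.1 i.2) b.1 b.2
    rcases hU with hU | hU
    · obtain ⟨c, hc, hcX, hγc⟩ := hsp2 _ hγ
      obtain ⟨b, hb, rfl, q3, hq3, hq3A⟩ := (memA c).1 hc
      obtain ⟨r, hr, hr3, hr2⟩ := hE.gen.dir q3 hq3 q2 hq2
      have hab : a < b.1 := lv_lt.1 hγc
      have hfo := hU b.1 hab hb r hr2 ⟨q3, hq3A, hr3⟩
      exact hcX ((hdec i b).2 (ht_of_fo hE.qok hE.gen (hSib b) hr hfo))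
    · obtain ⟨c, hc, hcX, hγc⟩ := hsp1 _ hγ
      obtain ⟨b, hb, rfl, q3, hq3, hq3A⟩ := (memA c).1 hc
      obtain ⟨r, hr, hr3, hr2⟩ := hE.gen.dir q3 hq3 q2 hq2
      have hab : a < b.1 := lv_lt.1 hγc
      have hinc := hU b.1 hab hb r hr2 ⟨q3, hq3A, hr3⟩
      exact not_ht hE.gen hr hinc ((hdec i b).1 hcX)

end Pool.Agent.SplH
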