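import Pool.Agent.SplH.T4

set_option autoImplicit false
set_option linter.all false

/-!
# T10: a subset of `κ` all of whose initial segments are in the ground model is in the ground model
-/

namespace Pool.Agent.SplH

open FirstOrder FirstOrder.Language Pool.Agent.H55.SC Pool.Agent.H55.ZFU Pool.Agent.H55.Lav

variable {Q : Type} [Preorder Q] [OrderTop Q] {L : Type} [LinearOrder L] [WellFoundedLT L]

omit [Preorder Q] [OrderTop Q] in
theorem t10_wit {α : Type} (P : α → Prop) : ∀ᶠ N in club (Un Q), (∃ a, P a) → ∃ a, P a ∧ InT N a := by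
  by_cases h : ∃ a, P a
  · obtain ⟨a, ha⟩ := h
    exact (club_inT a).mono (fun N hN _ => ⟨a, ha, hN⟩)
  · exact Filter.Eventually.of_forall (fun N h' => (h h').elim)

/-- all initial segments of `S` are decided densely often below `q` -/
def t10_A (k : L) (S : L → Set Q) (q : Q) : Prop :=
  ∀ b < k, ∀ r ≤ q, ∃ r' ≤ r, ∀ x < b, FoQ (S x) r' ∨ IncQ (S x) r'

/-- the initial segment of `S` of length `b` is not decided below `q` -/
def t10_B (S : L → Set Q) (b : L) (q : Q) : Prop :=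
  ∀ r ≤ q, ¬ ∀ x < b, FoQ (S x) r ∨ IncQ (S x) r

/-- `S` is decided by `q` to be the set with the number `j` -/
def t10_C (D : VDat L) (S : L → Set Q) (j : L) (q : Q) : Prop :=
  ∀ x < D.k, (D.eK j x = D.nL 0 → FoQ (S x) q) ∧ (D.eK j x ≠ D.nL 0 → IncQ (S x) q)

/-- `q` decides that `S` differs at `x` from the set with the number `i` -/
def t10_D (D : VDat L) (S : L → Set Q) (b' i x : L) (q : Q) : Prop :=
  (D.J (D.nL 0) b' i x = D.nL 0 ∧ IncQ (S x) q) ∨ (D.J (D.nL 0) b' i x ≠ D.nL 0 ∧ BelQ (S x) q)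

/-- Closure properties of `N` used in this file. -/
structure t10_Ok (D : VDat L) (N : Set (Un Q)) : Prop where
  n1 : ∀ S : L → Set Q, InT N S → InT N {q : Q | t10_A D.k S q ∨ ∃ b, b < D.k ∧ t10_B S b q}
  n2 : ∀ S : L → Set Q, InT N S → ∀ q : Q, InT N q → (∃ b, b < D.k ∧ t10_B S b q) →
    ∃ b, (b < D.k ∧ t10_B S b q) ∧ InT N b
  n3 : ∀ S : L → Set Q, InT N S → InT N {q : Q | ∃ j, j < D.mu (D.nL 1) ∧ t10_C D S j q}
  n4 : ∀ S : L → Set Q, InT N S → ∀ q : Q, InT N q → (∃ j, j < D.mu (D.nL 1) ∧ t10_C D S j q) →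
    ∃ j, (j < D.mu (D.nL 1) ∧ t10_C D S j q) ∧ InT N j
  n5 : ∀ S : L → Set Q, InT N S → ∀ b : L, InT N b → ∀ b' : L, InT N b' → ∀ i : L, InT N i →
    InT N {q : Q | ∃ x, x < b ∧ t10_D D S b' i x q}
  n6 : ∀ S : L → Set Q, InT N S → ∀ b : L, InT N b → ∀ b' : L, InT N b' → ∀ i : L, InT N i → ∀ q : Q, InT N q →
    (∃ x, x < b ∧ t10_D D S b' i x q) → ∃ x, (x < b ∧ t10_D D S b' i x q) ∧ InT N x

omit [OrderTop Q] [WellFoundedLT L] in
theorem t10_ok_club (D : VDat L) : ∀ᶠ N in club (Un Q), t10_Ok (Q := Q) D N := by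
  have h1 : ∀ᶠ N in club (Un Q), ∀ S : L → Set Q, InT N S →
      InT N {q : Q | t10_A D.k S q ∨ ∃ b, b < D.k ∧ t10_B S b q} := diagT (fun S => club_inT _)
  have h2 : ∀ᶠ N in club (Un Q), ∀ S : L → Set Q, InT N S → ∀ q : Q, InT N q →
      (∃ b, b < D.k ∧ t10_B S b q) → ∃ b, (b < D.k ∧ t10_B S b q) ∧ InT N b :=
    diagT (fun S => diagT (fun q => t10_wit _))
  have h3 : ∀ᶠ N in club (Un Q), ∀ S : L → Set Q, InT N S →
      InT N {q : Q | ∃ j, j < D.mu (D.nL 1) ∧ t10_C D S j q} := diagT (fun S => club_inT _)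
  have h4 : ∀ᶠ N in club (Un Q), ∀ S : L → Set Q, InT N S → ∀ q : Q, InT N q →
      (∃ j, j < D.mu (D.nL 1) ∧ t10_C D S j q) → ∃ j, (j < D.mu (D.nL 1) ∧ t10_C D S j q) ∧ InT N j :=
    diagT (fun S => diagT (fun q => t10_wit _))
  have h5 : ∀ᶠ N in club (Un Q), ∀ S : L → Set Q, InT N S → ∀ b : L, InT N b → ∀ b' : L, InT N b' →
      ∀ i : L, InT N i → InT N {q : Q | ∃ x, x < b ∧ t10_D D S b' i x q} :=
    diagT (fun S => diagT (fun b => diagT (fun b' => diagT (fun i => club_inT _))))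
  have h6 : ∀ᶠ N in club (Un Q), ∀ S : L → Set Q, InT N S → ∀ b : L, InT N b → ∀ b' : L, InT N b' →
      ∀ i : L, InT N i → ∀ q : Q, InT N q →
      (∃ x, x < b ∧ t10_D D S b' i x q) → ∃ x, (x < b ∧ t10_D D S b' i x q) ∧ InT N x :=
    diagT (fun S => diagT (fun b => diagT (fun b' => diagT (fun i => diagT (fun q => t10_wit _)))))
  filter_upwards [h1, h2, h3, h4, h5, h6] with N h1 h2 h3 h4 h5 h6
  exact ⟨h1, h2, h3, h4, h5, h6⟩

theorem ap_club {D : VDat L} (hV : VFrc Q D) : ∀ᶠ N in club (Un Q), ∀ (G : Set Q) [Env N G] [LEnv N L] [DEnv N D] (X : MM N G),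
    X ⊆ lv G (D.kN (N := N)) →
    (∀ b : LN N L, b < D.kN (N := N) → ∃ b' i : LN N L, ∀ x : LN N L, x < b →
      (lv G x ∈ X ↔ D.J (D.nL 0) b'.1 i.1 x.1 = D.nL 0)) →
    ∃ j : LN N L, j < D.muN (D.nN (N := N) 1) ∧ ∀ x : LN N L, x < D.kN (N := N) →
      (lv G x ∈ X ↔ D.eK j.1 x.1 = D.nL 0) := by
  filter_upwards [t10_ok_club (Q := Q) D] with N hok G hE hL hD X hXk hX
  obtain ⟨S, hS, hdec⟩ := dec1 (N := N) (G := G) (L := L) (fun x : MM N G => x ∈ X)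
  have hSa : ∀ a : LN N L, InT N (S a.1) := fun a => hL.iok.app S hS a.1 a.2
  obtain ⟨q, hq, hqc⟩ := hE.gen.gen _ (hok.n1 S hS) (fun p => by
    by_cases h : t10_A D.k S p
    · exact ⟨p, Or.inl h, le_rfl⟩
    · unfold t10_A at h
      push Not at h
      obtain ⟨b, hb, r, hr, h1⟩ := h
      refine ⟨r, Or.inr ⟨b, hb, fun r' hr' h2 => ?_⟩, hr⟩
      obtain ⟨x, hx, h3, h4⟩ := h1 r' hr'
      rcases h2 x hx with h5 | h5
      · exact h3 h5
      · exact h4 h5)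
  rcases hqc with hA | hB
  · -- all initial segments are decided
    obtain ⟨q2, hq2, hj⟩ := ht_u (hok.n3 S hS) hq (fun q' hq' => by
      obtain ⟨q'', h1, j, h2, h3⟩ := hV.ap S q' (fun b hb r hr => hA b hb r (hr.trans hq'))
      exact ⟨q'', h1, j, h2, h3⟩)
    obtain ⟨j, ⟨hj1, hj2⟩, hjN⟩ := hok.n4 S hS q2 (hE.gen.sub q2 hq2) hj
    refine ⟨⟨j, hjN⟩, hj1, fun x hx => ?_⟩
    rw [hdec x]
    constructor
    · intro h
      by_contra hne
      exact not_ht hE.gen hq2 ((hj2 x.1 hx).2 hne) h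
    · intro h
      exact ht_of_fo hE.qok hE.gen (hSa x) hq2 ((hj2 x.1 hx).1 h)
  · exfalso
    obtain ⟨b, ⟨hbk, hB⟩, hbN⟩ := hok.n2 S hS q (hE.gen.sub q hq) hB
    obtain ⟨b', i, hbi⟩ := hX ⟨b, hbN⟩ hbk
    obtain ⟨q2, hq2, hU⟩ := ht_u (hok.n5 S hS b hbN b'.1 b'.2 i.1 i.2) hq (fun r hr => by
      by_contra hcon
      push Not at hcon
      apply hB r hr
      intro x hx
      by_cases hJ : D.J (D.nL 0) b'.1 i.1 x = D.nL 0
      · refine Or.inl (fun E hE => ?_)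
        by_contra h1
        push Not at h1
        refine hcon E hE ⟨x, hx, Or.inl ⟨hJ, fun E' hE' h2 => ?_⟩⟩
        exact h1 E' hE' h2
      · refine Or.inr (fun E hE h1 => ?_)
        exact hcon E hE ⟨x, hx, Or.inr ⟨hJ, h1⟩⟩)
    obtain ⟨x, ⟨hxb, hx⟩, hxN⟩ := hok.n6 S hS b hbN b'.1 b'.2 i.1 i.2 q2 (hE.gen.sub q2 hq2) hU
    have h1 := hbi ⟨x, hxN⟩ hxb
    rw [hdec ⟨x, hxN⟩] at h1
    rcases hx with ⟨h2, h3⟩ | ⟨h2, h3⟩
    · exact not_ht hE.gen hq2 h3 (h1.2 h2)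
    · exact h2 (h1.1 (ht_of_bel hE.qok hE.gen (hSa ⟨x, hxN⟩) hq2 h3))

end Pool.Agent.SplH
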