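import Pool.Agent.SplH.T4

set_option autoImplicit false
set_option linter.all false

/-!
# T5 (3): `κ` is a regular cardinal of the model

Closure properties of `N` to be added by `filter_upwards` (each by `diagT`, `club_inT`, as in `bok_club` of Lav/Fin): for all `b c a ∈ L`, `S : L → L → Set Q`, `q` in `N`: (1) `{q | ∃ c < D.k, BdP D.k b S q c} ∈ N`; (2) if `∃ c < D.k, BdP D.k b S q c`
then there is such a `c` in `N`; (3) `{q | ∃ d < c, q ∈ S a d} ∈ N`; (4) if `∃ d < c, q ∈ S a d` then there is such a `d` in `N`.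
Proof (as `omega1_kk` in Lav/Fin): `ord`: `lv_ord`. `om`: `omega_eq`, `lv_lt`, `D.om_lt`. `bdd`: `α = lv G b` (`mem_lv`), `b < D.k`. `S` from `dec2 (fun x y => app f x = y)`. By `gen.gen` and (1) (`hV.reg b S p`) there is `q ∈ G` with `∃ c < D.k, BdP D.k b S q c`; `c ∈ N` by (2).
Bound `β = lv G c`. If `x = lv G a`, `a < b`: `app f x = lv G d` with `d < D.k`, so there is `q1 ∈ G`, `q1 ∈ S a d`; `r ∈ G` below `q`, `q1`. `FoQ {q | ∃ d' < c, q ∈ S a d'} r` by `BdP`; `ht_of_fo` (Lav/MLev) and (4): `d' < c` in `N` with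
`Ht G (S a d')`; so `app f x = lv G d' ∈ lv G c`.
-/

namespace Pool.Agent.SplH

open FirstOrder FirstOrder.Language Pool.Agent.H55.SC Pool.Agent.H55.ZFU Pool.Agent.H55.Lav

variable {Q : Type} [Preorder Q] [OrderTop Q] {L : Type} [LinearOrder L] [WellFoundedLT L]

theorem reg_club {D : VDat L} (hV : VFrc Q D) : ∀ᶠ N in club (Un Q), ∀ (G : Set Q) [Env N G] [LEnv N L] [DEnv N D],
    Reg (lv G (D.kN (N := N))) := by
  have h1 : ∀ᶠ N in club (Un Q), ∀ S : L → L → Set Q, InT N S → ∀ b : L, InT N b →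
      InT N {q | ∃ c, c < D.k ∧ BdP D.k b S q c} :=
    diagT (fun S => diagT (fun b => club_inT _))
  have h2 : ∀ᶠ N in club (Un Q), ∀ S : L → L → Set Q, InT N S → ∀ b : L, InT N b → ∀ q : Q, InT N q →
      (∃ c, c < D.k ∧ BdP D.k b S q c) → ∃ c, (c < D.k ∧ BdP D.k b S q c) ∧ InT N c := by
    refine diagT (fun S => diagT (fun b => diagT (fun q => ?_)))
    by_cases h : ∃ c, c < D.k ∧ BdP D.k b S q c
    · obtain ⟨γ, hγ⟩ := h
      exact (club_inT γ).mono (fun N hN _ => ⟨γ, hγ, hN⟩)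
    · exact Filter.Eventually.of_forall (fun N h' => (h h').elim)
  have h3 : ∀ᶠ N in club (Un Q), ∀ S : L → L → Set Q, InT N S → ∀ a : L, InT N a → ∀ c : L, InT N c →
      InT N {q | ∃ d < c, q ∈ S a d} := diagT (fun S => diagT (fun a => diagT (fun c => club_inT _)))
  have h4 : ∀ᶠ N in club (Un Q), ∀ S : L → L → Set Q, InT N S → ∀ a : L, InT N a → ∀ c : L, InT N c →
      ∀ q : Q, InT N q → (∃ d, d < c ∧ q ∈ S a d) → ∃ d, (d < c ∧ q ∈ S a d) ∧ InT N d := by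
    refine diagT (fun S => diagT (fun a => diagT (fun c => diagT (fun q => ?_))))
    by_cases h : ∃ d, d < c ∧ q ∈ S a d
    · obtain ⟨γ, hγ⟩ := h
      exact (club_inT γ).mono (fun N hN _ => ⟨γ, hγ, hN⟩)
    · exact Filter.Eventually.of_forall (fun N h' => (h h').elim)
  filter_upwards [h1, h2, h3, h4] with N h1 h2 h3 h4 G _ _ _
  have gen : GenF N G := Env.gen
  have qok : QOk N := Env.qok (N := N) (G := G)
  refine ⟨lv_ord _, ?_, ?_⟩
  · rw [omega_eq D, lv_lt]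
    exact D.om_lt
  · intro α f hα hf
    obtain ⟨b, hb, rfl⟩ := mem_lv.mp hα
    obtain ⟨S, hS, hdec⟩ := dec2 (N := N) (G := G) (L := L) (fun x y => app f x = y)
    obtain ⟨q, hq, hqb⟩ := gen.gen _ (h1 S hS b.1 b.2) (fun p => by
      obtain ⟨q, h5, c, h6, h7⟩ := hV.reg b.1 S p hb
      exact ⟨q, ⟨c, h6, h7⟩, h5⟩)
    obtain ⟨c, ⟨hck, hcB⟩, hcN⟩ := h2 S hS b.1 b.2 q (gen.sub q hq) hqb
    refine ⟨lv G ⟨c, hcN⟩, lv_lt.mpr hck, fun x hx => ?_⟩
    have hfx := hf x hx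
    obtain ⟨a, ha, rfl⟩ := mem_lv.mp hx
    obtain ⟨d, hd, hfd⟩ := mem_lv.mp hfx
    obtain ⟨q1, hq1, h5⟩ := (hdec a d).mp hfd
    obtain ⟨r, hr, h6, h7⟩ := gen.dir q hq q1 hq1
    have h8 : FoQ {q | ∃ d' < c, q ∈ S a.1 d'} r := by
      intro E hE
      obtain ⟨E', h9, d', h10, C, h11, h12⟩ := hcB a.1 ha d.1 hd E (hE.trans h6) ⟨q1, h5, hE.trans h7⟩
      exact ⟨E', h9, C, ⟨d', h10, h11⟩, h12⟩
    obtain ⟨q2, hq2, h13⟩ := ht_of_fo qok gen (h3 S hS a.1 a.2 c hcN) hr h8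
    obtain ⟨d', ⟨h14, h15⟩, h16⟩ := h4 S hS a.1 a.2 c hcN q2 (gen.sub q2 hq2) h13
    have h17 : app f (lv G a) = lv G ⟨d', h16⟩ := (hdec a ⟨d', h16⟩).mpr ⟨q2, hq2, h15⟩
    rw [h17, lv_lt]
    exact h14

end Pool.Agent.SplH
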