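import Pool.Agent.SplH.T4

set_option autoImplicit false
set_option linter.all false

/-!
# T6 (3): the cardinals `κ⁺ⁿ` of the model

Closure of `N` (by `diagT`, `club_inT`, `club_all`): for `S : L → L → Set Q` in `N`, all `n : ℕ`, `i j ∈ L ∩ N`, `q ∈ N`, `μ' = D.mu (D.nL (n + 1))`: (1) there is `j ∈ N` with `j < μ'`, `CdP (D.mu (D.nL n)) μ' S j` (`hV.cd n S`); (2) `{q | ∃ j' < μ', j' ≠ j ∧ BelQ (S i j') q} ∈ N`, (3) if
`∃ j' < μ', j' ≠ j ∧ BelQ (S i j') q` then there is such a `j'` in `N`; (4) `{q | IncQ (S i j) q ∨ (∃ j' < μ', j' ≠ j ∧ BelQ (S i j') q) ∨ (BelQ (S i j) q ∧ ∀ j' < μ', j' ≠ j → IncQ (S i j') q)} ∈ N`.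
Proof: let `s` be as in `Img` (IDefs), `S` from `dec2 (fun x y => app s x = y)`, `j` from (1), `y = lv G j ∈ lv G μ'`, `x = lv G i`, `i < μ`, `app s x = y`. The set (4) is dense (if no extension of `p` satisfies the second case then `∀ j' < μ', j' ≠ j → IncQ (S i j') p`; then
first or third case for an extension: `IncQ (S i j) p` or some `r ≤ p` with `BelQ (S i j) r`, `incQ_mono`). So there is `q ∈ G` in it. First case: `not_ht` against `(hdec i j).1`. Second: (3), `ht_of_bel`: `app s x = lv G j'`, so `j' = j` (`lv_inj`). Third: against `CdP`.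
-/

namespace Pool.Agent.SplH

open FirstOrder FirstOrder.Language Pool.Agent.H55.SC Pool.Agent.H55.ZFU Pool.Agent.H55.Lav

variable {Q : Type} [Preorder Q] [OrderTop Q] {L : Type} [LinearOrder L] [WellFoundedLT L]

/-- The three cases for the value at `i`. -/
def t6_set (S : L → L → Set Q) (μ' i j : L) : Set Q :=
  {q | IncQ (S i j) q ∨ (∃ j', j' < μ' ∧ j' ≠ j ∧ BelQ (S i j') q) ∨
    (BelQ (S i j) q ∧ ∀ j' < μ', j' ≠ j → IncQ (S i j') q)}

theorem t6_dense (S : L → L → Set Q) (μ' i j : L) (p : Q) : ∃ q, q ∈ t6_set S μ' i j ∧ q ≤ p := by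
  by_cases h : ∃ r ≤ p, ∃ j', j' < μ' ∧ j' ≠ j ∧ BelQ (S i j') r
  · obtain ⟨r, hr, h1⟩ := h
    exact ⟨r, Or.inr (Or.inl h1), hr⟩
  · push Not at h
    have h1 : ∀ j' < μ', j' ≠ j → IncQ (S i j') p := fun j' hj' hne r hr => h r hr j' hj' hne
    by_cases h2 : ∃ r ≤ p, BelQ (S i j) r
    · obtain ⟨r, hr, h3⟩ := h2
      exact ⟨r, Or.inr (Or.inr ⟨h3, fun j' hj' hne => incQ_mono (h1 j' hj' hne) hr⟩), hr⟩
    · push Not at h2
      exact ⟨p, Or.inl h2, le_rfl⟩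

theorem card_club {D : VDat L} (hV : VFrc Q D) : ∀ᶠ N in club (Un Q), ∀ (G : Set Q) [Env N G] [LEnv N L] [DEnv N D] (n : ℕ),
    ¬ Img (lv G (D.muN (D.nN (N := N) n))) (lv G (D.muN (D.nN (N := N) (n + 1)))) := by
  have h1 : ∀ᶠ N in club (Un Q), ∀ S : L → L → Set Q, InT N S → ∀ n : ℕ, ∃ j, (j < D.mu (D.nL (n + 1)) ∧
      CdP (D.mu (D.nL n)) (D.mu (D.nL (n + 1))) S j) ∧ InT N j := by
    refine diagT (fun S => club_all (fun n => ?_))
    obtain ⟨j, hj⟩ := hV.cd n S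
    exact (club_inT j).mono (fun N hN => ⟨j, hj, hN⟩)
  have h2 : ∀ᶠ N in club (Un Q), ∀ S : L → L → Set Q, InT N S → ∀ i : L, InT N i → ∀ j : L, InT N j → ∀ n : ℕ,
      InT N (t6_set S (D.mu (D.nL (n + 1))) i j) :=
    diagT (fun S => diagT (fun i => diagT (fun j => club_all (fun n => club_inT _))))
  have h3 : ∀ᶠ N in club (Un Q), ∀ S : L → L → Set Q, InT N S → ∀ i : L, InT N i → ∀ j : L, InT N j → ∀ q : Q, InT N q →
      ∀ n : ℕ, (∃ j', j' < D.mu (D.nL (n + 1)) ∧ j' ≠ j ∧ BelQ (S i j') q) →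
        ∃ j', (j' < D.mu (D.nL (n + 1)) ∧ j' ≠ j ∧ BelQ (S i j') q) ∧ InT N j' := by
    refine diagT (fun S => diagT (fun i => diagT (fun j => diagT (fun q => club_all (fun n => ?_)))))
    by_cases h : ∃ j', j' < D.mu (D.nL (n + 1)) ∧ j' ≠ j ∧ BelQ (S i j') q
    · obtain ⟨γ, hγ⟩ := h
      exact (club_inT γ).mono (fun N hN _ => ⟨γ, hγ, hN⟩)
    · exact Filter.Eventually.of_forall (fun N h' => (h h').elim)
  filter_upwards [h1, h2, h3] with N h1 h2 h3 G _ _ _ n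
  have gen : GenF N G := Env.gen
  have qok : QOk N := Env.qok (N := N) (G := G)
  rintro ⟨s, hs⟩
  obtain ⟨S, hS, hdec⟩ := dec2 (N := N) (G := G) (L := L) (fun x y => app s x = y)
  obtain ⟨j, ⟨hj, hcd⟩, hjN⟩ := h1 S hS n
  obtain ⟨x, hx, hsx⟩ := hs (lv G ⟨j, hjN⟩) (lv_lt.mpr hj)
  obtain ⟨i, hi, rfl⟩ := mem_lv.mp hx
  obtain ⟨q, hq, hqc⟩ := gen.gen _ (h2 S hS i.1 i.2 j hjN n) (fun p => t6_dense S _ i.1 j p)
  rcases hqc with h4 | h4 | h4
  · exact not_ht gen hq h4 ((hdec i ⟨j, hjN⟩).mp hsx)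
  · obtain ⟨j', ⟨h5, h6, h7⟩, h8⟩ := h3 S hS i.1 i.2 j hjN q (gen.sub q hq) n h4
    have hSN : InT N (S i.1 j') :=
      (LEnv.iok (N := N) (L := L)).app (S i.1) (LEnv.sec S hS i.1 i.2) j' h8
    have h9 : app s (lv G i) = lv G ⟨j', h8⟩ := (hdec i ⟨j', h8⟩).mpr (ht_of_bel qok gen hSN hq h7)
    have h10 := lv_inj (hsx.symm.trans h9)
    exact h6 (congrArg Subtype.val h10).symm
  · exact hcd i.1 hi q h4

end Pool.Agent.SplH
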