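import Pool.Agent.SplH.T4

set_option autoImplicit false
set_option linter.all false

/-!
# T8: power sets of the elements of `κ` in the model
-/

namespace Pool.Agent.SplH

open FirstOrder FirstOrder.Language Pool.Agent.H55.SC Pool.Agent.H55.ZFU Pool.Agent.H55.Lav

variable {Q : Type} [Preorder Q] [OrderTop Q] {L : Type} [LinearOrder L] [WellFoundedLT L]

omit [Preorder Q] [OrderTop Q] in
theorem t8_wit {α : Type} (P : α → Prop) : ∀ᶠ N in club (Un Q), (∃ a, P a) → ∃ a, P a ∧ InT N a := by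
  by_cases h : ∃ a, P a
  · obtain ⟨a, ha⟩ := h
    exact (club_inT a).mono (fun N hN _ => ⟨a, ha, hN⟩)
  · exact Filter.Eventually.of_forall (fun N h' => (h h').elim)

/-- `q` forces that `X` is the set with the index `i`. -/
def t8_V (b : L) (z : L → L → Set Q) (X : L → Set Q) (i : L) (q : Q) : Prop :=
  ∀ a < b, ∀ E ≤ q, (FoQ (X a) E ↔ FoQ (z i a) E)

/-- Closure properties of `N` used in this file. -/
structure t8_Ok (D : VDat L) (N : Set (Un Q)) : Prop where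
  n1 : ∀ b : L, InT N b → InT N {q : Q | ∃ z m, PwP D b q m z}
  n2 : ∀ b : L, InT N b → ∀ q : Q, InT N q → (∃ z, ∃ m, PwP D b q m z) → ∃ z, (∃ m, PwP D b q m z) ∧ InT N z
  n3 : ∀ m : ℕ, ∀ b : L, InT N b → ∀ z : L → L → Set Q, InT N z → ∀ X : L → Set Q, InT N X →
    InT N {q : Q | ∃ i, i < D.c (D.nL m) b ∧ t8_V b z X i q}
  n4 : ∀ m : ℕ, ∀ b : L, InT N b → ∀ z : L → L → Set Q, InT N z → ∀ X : L → Set Q, InT N X → ∀ q : Q, InT N q →
    (∃ i, i < D.c (D.nL m) b ∧ t8_V b z X i q) → ∃ i, (i < D.c (D.nL m) b ∧ t8_V b z X i q) ∧ InT N i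

omit [OrderTop Q] [WellFoundedLT L] in
theorem t8_ok_club (D : VDat L) : ∀ᶠ N in club (Un Q), t8_Ok (Q := Q) D N := by
  have h1 : ∀ᶠ N in club (Un Q), ∀ b : L, InT N b → InT N {q : Q | ∃ z m, PwP D b q m z} :=
    diagT (fun b => club_inT _)
  have h2 : ∀ᶠ N in club (Un Q), ∀ b : L, InT N b → ∀ q : Q, InT N q → (∃ z, ∃ m, PwP D b q m z) →
      ∃ z, (∃ m, PwP D b q m z) ∧ InT N z :=
    diagT (fun b => diagT (fun q => t8_wit _))
  have h3 : ∀ᶠ N in club (Un Q), ∀ m : ℕ, ∀ b : L, InT N b → ∀ z : L → L → Set Q, InT N z →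
      ∀ X : L → Set Q, InT N X → InT N {q : Q | ∃ i, i < D.c (D.nL m) b ∧ t8_V b z X i q} :=
    club_all (fun m => diagT (fun b => diagT (fun z => diagT (fun X => club_inT _))))
  have h4 : ∀ᶠ N in club (Un Q), ∀ m : ℕ, ∀ b : L, InT N b → ∀ z : L → L → Set Q, InT N z →
      ∀ X : L → Set Q, InT N X → ∀ q : Q, InT N q →
      (∃ i, i < D.c (D.nL m) b ∧ t8_V b z X i q) → ∃ i, (i < D.c (D.nL m) b ∧ t8_V b z X i q) ∧ InT N i :=
    club_all (fun m => diagT (fun b => diagT (fun z => diagT (fun X => diagT (fun q => t8_wit _)))))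
  filter_upwards [h1, h2, h3, h4] with N h1 h2 h3 h4
  exact ⟨h1, h2, h3, h4⟩

theorem pw_club {D : VDat L} (hV : VFrc Q D) : ∀ᶠ N in club (Un Q), ∀ (G : Set Q) [Env N G] [LEnv N L] [DEnv N D] (b : LN N L),
    b < D.kN (N := N) → ∃ m : ℕ, Img (lv G (D.cN (D.nN (N := N) m) b)) (pow (lv G b)) := by
  filter_upwards [t8_ok_club (Q := Q) D] with N hok G hE hL hD b hb
  obtain ⟨q, hq, hqz⟩ := hE.gen.gen _ (hok.n1 b.1 b.2) (fun p => by
    obtain ⟨q, hqp, m, z, hz⟩ := hV.pw b.1 p hb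
    exact ⟨q, ⟨z, m, hz⟩, hqp⟩)
  obtain ⟨z, ⟨m, hP⟩, hz⟩ := hok.n2 b.1 b.2 q (hE.gen.sub q hq) hqz
  obtain ⟨f, hf⟩ := exists_fam (N := N) (G := G) (L := L) hz
  have hI : Fn1 (fun x : MM N G => inter (app f x) (lv G b)) := inferInstance
  refine ⟨m, lam (lv G (D.cN (D.nN (N := N) m) b)) (fun x => inter (app f x) (lv G b)), ?_⟩
  intro Y hY
  have hYs : Y ⊆ lv G b := mem_pow'.1 hY
  obtain ⟨X, hX, hdec⟩ := dec1 (N := N) (G := G) (L := L) (fun x : MM N G => x ∈ Y)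
  obtain ⟨q2, hq2, hU⟩ := ht_u (hok.n3 m b.1 b.2 z hz X hX) hq (fun q' hq' => by
    obtain ⟨q'', h1, i, h2, h3⟩ := hP X q' hq'
    exact ⟨q'', h1, i, h2, h3⟩)
  obtain ⟨i, ⟨hic, hVi⟩, hiN⟩ := hok.n4 m b.1 b.2 z hz X hX q2 (hE.gen.sub q2 hq2) hU
  have hmem : lv G (⟨i, hiN⟩ : LN N L) ∈ lv G (D.cN (D.nN (N := N) m) b) := lv_lt.2 hic
  refine ⟨lv G ⟨i, hiN⟩, hmem, ?_⟩
  rw [app_lam hmem]
  have hXa : ∀ a : LN N L, InT N (X a.1) := fun a => hL.iok.app X hX a.1 a.2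
  have hza : ∀ a : LN N L, InT N (z i a.1) := fun a =>
    hL.iok.app (z i) (hL.sec z hz i hiN) a.1 a.2
  have key : ∀ a : LN N L, a < b → (Ht G (X a.1) ↔ Ht G (z i a.1)) := by
    intro a hab
    constructor
    · rintro ⟨q3, hq3, h3⟩
      obtain ⟨r, hr, hr3, hr2⟩ := hE.gen.dir q3 hq3 q2 hq2
      exact ht_of_fo hE.qok hE.gen (hza a) hr ((hVi a.1 hab r hr2).1 (foQ_of_bel ⟨q3, h3, hr3⟩))
    · rintro ⟨q3, hq3, h3⟩
      obtain ⟨r, hr, hr3, hr2⟩ := hE.gen.dir q3 hq3 q2 hq2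
      exact ht_of_fo hE.qok hE.gen (hXa a) hr ((hVi a.1 hab r hr2).2 (foQ_of_bel ⟨q3, h3, hr3⟩))
  apply Pool.Agent.H55.ZFU.ext
  intro x
  rw [mem_inter, hf]
  constructor
  · rintro ⟨⟨j, rfl, hj⟩, hjb⟩
    exact (hdec j).2 ((key j (lv_lt.1 hjb)).2 hj)
  · intro hx
    have hxb := hYs x hx
    obtain ⟨j, hj, rfl⟩ := mem_lv.1 hxb
    exact ⟨⟨j, rfl, (key j hj).1 ((hdec j).1 hx)⟩, hxb⟩

end Pool.Agent.SplH
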