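import Pool.Agent.SplH.T3
import Pool.Agent.SplH.T5
import Pool.Agent.SplH.T6
import Pool.Agent.SplH.T8
import Pool.Agent.SplH.T10

set_option autoImplicit false
set_option linter.all false

/-!
# T9 (3): the assumptions of the upper bound hold in the model

`cf`, `jf`, `mf` from `exists_fn2 (DEnv.c ..)`, `exists_fn4 (DEnv.J ..)`, `exists_fn1 (DEnv.mu ..)`, so `Cn cf (lv G a) (lv G b) = lv G (D.cN a b)`, `app mf (lv G a) = lv G (D.muN a)`. `k = lv G D.kN`, `l = ll G N L`. All elements of `l`, `k` are `lv G i` (`mem_ll`, `mem_lv`), elements of `omega` are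
`lv G (D.nN n)` (`mem_om`), `suc_nN`, `lv_zero`; membership is `lv_lt`. Fields: `reg` T5; `ordl` `ll_ord`; `mu0` by definition of `kN`; `mu_mem` `D.mu_lt`; `mu_cof` `D.mu_cof`; `c_mem` `D.c_lt`; `c0` `D.c0` (`omega ⊆ lv G b` gives `D.om ≤ b`: otherwise `b < D.om`, `lv G b ∈ omega`);
`j_mem` `D.J_lt`; `j_c` `D.J_c`; `j_inj` `D.J_inj`; `card1` T6; `card2` from `D.s_sur` with `exists_fn4 (DEnv.s ..)`: `lam (lv G (D.muN n)) (fun x => app f (opair (opair (lv n) (lv δ)) (opair x x)))` (for the empty `δ` any function); `pn` from `D.pq`: `x ↦ opair (p x) (q x)`; `pl` from `D.pqL`; `pw` T8.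
`lcard`: `α ∈ l` gives `n` with `α ∈ app mf n`; if `s` maps `α` onto `l`, then `lam (app mf n) (fun x => iteM (x ∈ α) (app s x) ∅)` shows `Img (app mf n) (app mf (suc n))`, against `card1`.
-/

namespace Pool.Agent.SplH

open FirstOrder FirstOrder.Language Pool.Agent.H55.SC Pool.Agent.H55.ZFU Pool.Agent.H55.Lav

variable {Q : Type} [Preorder Q] [OrderTop Q] {L : Type} [LinearOrder L] [WellFoundedLT L]

/-- A witness of a property in `N`. -/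
lemma wit_club {P : L → Prop} : ∀ᶠ N in club (Un Q), (∃ x, P x) → ∃ x, P x ∧ InT N x := by
  by_cases h : ∃ x, P x
  · obtain ⟨x, hx⟩ := h
    exact (club_inT x).mono (fun N hN _ => ⟨x, hx, hN⟩)
  · exact Filter.Eventually.of_forall (fun N h' => (h h').elim)

/-- the bottom of `L` -/
theorem t9_bot (D : VDat L) (x : L) : D.nL 0 ≤ x := by
  by_contra h
  have h1 : x < D.nL 0 := not_le.1 h
  obtain ⟨n, hn⟩ := (D.om_iff x).1 (h1.trans (t2_lt_om D 0))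
  rw [← hn] at h1
  exact absurd ((t2_nlt D).1 h1) (Nat.not_lt_zero n)

section nums
variable {N : Set (Un Q)} {G : Set Q} [Env N G] [LEnv N L] (D : VDat L) [DEnv N D]

theorem o1_eq : (o1 : MM N G) = lv G (D.nN (N := N) 1) := by
  unfold o1
  rw [← lv_zero (G := G) D, suc_nN]
theorem o2_eq : (o2 : MM N G) = lv G (D.nN (N := N) 2) := by
  unfold o2
  rw [o1_eq D, suc_nN]
theorem o3_eq : (o3 : MM N G) = lv G (D.nN (N := N) 3) := by
  unfold o3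
  rw [o2_eq D, suc_nN]
theorem o4_eq : (o4 : MM N G) = lv G (D.nN (N := N) 4) := by
  unfold o4
  rw [o3_eq D, suc_nN]
theorem s5_eq (n : ℕ) : s5 (lv G (D.nN (N := N) n)) = lv G (D.nN (N := N) (n + 5)) := by
  unfold s5
  rw [suc_nN, suc_nN, suc_nN, suc_nN, suc_nN]

end nums

theorem ui_club {D : VDat L} (hV : VFrc Q D) : ∀ᶠ N in club (Un Q), ∀ (G : Set Q) [Env N G] [LEnv N L] [DEnv N D],
    ∃ cf jf mf kf : MM N G, UI (lv G (D.kN (N := N))) (ll G N L) cf jf mf kf := by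
  have w1 : ∀ᶠ N in club (Un Q), ∀ n : ℕ, ∀ δ : L, InT N δ → ∀ y : L, InT N y →
      (∃ x, x < D.mu (D.nL (n + 1)) ∧ D.s (D.nL (n + 1)) δ x = y) →
        ∃ x, (x < D.mu (D.nL (n + 1)) ∧ D.s (D.nL (n + 1)) δ x = y) ∧ InT N x :=
    club_all (fun n => diagT (fun δ => diagT (fun y => wit_club)))
  have w2 : ∀ᶠ N in club (Un Q), ∀ n : ℕ, ∀ x : L, InT N x → ∀ y : L, InT N y →
      (∃ z, z < D.mu (D.nL n) ∧ D.p (D.nL n) z = x ∧ D.q (D.nL n) z = y) →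
        ∃ z, (z < D.mu (D.nL n) ∧ D.p (D.nL n) z = x ∧ D.q (D.nL n) z = y) ∧ InT N z :=
    club_all (fun n => diagT (fun x => diagT (fun y => wit_club)))
  have w3 : ∀ᶠ N in club (Un Q), ∀ x : L, InT N x → ∀ y : L, InT N y →
      (∃ z, D.pL z = x ∧ D.qL z = y) → ∃ z, (D.pL z = x ∧ D.qL z = y) ∧ InT N z :=
    diagT (fun x => diagT (fun y => wit_club))
  have w4 : ∀ᶠ N in club (Un Q), ∀ b : L, InT N b → ∀ x : L, InT N x → ∀ β : L, InT N β →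
      (∃ ξ, ξ < β ∧ x ≤ D.J (D.nL 1) b ξ ξ) → ∃ ξ, (ξ < β ∧ x ≤ D.J (D.nL 1) b ξ ξ) ∧ InT N ξ :=
    diagT (fun b => diagT (fun x => diagT (fun β => wit_club)))
  filter_upwards [reg_club hV, card_club hV, pw_club hV, ap_club hV, w1, w2, w3, w4] with N hreg hcard hpw hap w1 w2 w3 w4
  intro G _ _ _
  obtain ⟨cf, hcf⟩ := exists_fn2 (G := G) (F := fun a b => D.c a b) (DEnv.c (N := N) (D := D))
  obtain ⟨jf, hjf⟩ := exists_fn4 (G := G) (F := fun a b c d => D.J a b c d) (DEnv.J (N := N) (D := D))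
  obtain ⟨mf, hmf⟩ := exists_fn1 (G := G) (F := fun a => D.mu a) (DEnv.mu (N := N) (D := D))
  obtain ⟨sf, hsf⟩ := exists_fn4 (G := G) (F := fun a b c _ => D.s a b c) (DEnv.s (N := N) (D := D))
  obtain ⟨pf, hpf⟩ := exists_fn2 (G := G) (F := fun a b => D.p a b) (DEnv.p (N := N) (D := D))
  obtain ⟨qf, hqf⟩ := exists_fn2 (G := G) (F := fun a b => D.q a b) (DEnv.q (N := N) (D := D))
  obtain ⟨pl, hpl⟩ := exists_fn1 (G := G) (F := fun a => D.pL a) (DEnv.pL (N := N) (D := D))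
  obtain ⟨ql, hql⟩ := exists_fn1 (G := G) (F := fun a => D.qL a) (DEnv.qL (N := N) (D := D))
  obtain ⟨kf, hkf⟩ := exists_fn2 (G := G) (F := fun a b => D.eK a b) (DEnv.eK (N := N) (D := D))
  have hc : ∀ a b : LN N L, Cn cf (lv G a) (lv G b) = lv G (D.cN a b) := hcf
  have hj : ∀ a b c d : LN N L, Jn jf (lv G a) (lv G b) (lv G c) (lv G d) =
      lv G ⟨D.J a.1 b.1 c.1 d.1, (DEnv.J (N := N) (D := D)).cl a.1 b.1 c.1 d.1 a.2 b.2 c.2 d.2⟩ := hjf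
  have hm : ∀ a : LN N L, app mf (lv G a) = lv G (D.muN a) := hmf
  have hkk : ∀ a b : LN N L, Cn kf (lv G a) (lv G b) =
      lv G ⟨D.eK a.1 b.1, (DEnv.eK (N := N) (D := D)).cl a.1 b.1 a.1 a.1 a.2 b.2 a.2 a.2⟩ := hkf
  have hk : ∀ i : LN N L, i < D.kN (N := N) ↔ i.1 < D.mu (D.nL 0) := fun i => Iff.rfl
  have h0 : ∀ i : LN N L, lv G i = ∅ ↔ i.1 = D.nL 0 := by
    intro i
    rw [← lv_zero (G := G) D]
    constructor
    · intro h
      exact congrArg Subtype.val (lv_inj h)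
    · intro h
      have : i = D.nN (N := N) 0 := Subtype.ext h
      rw [this]
  have hic : ∀ b : LN N L, IcM jf (lv G b) ↔ D.J (D.nL 3) b.1 b.1 b.1 = D.nL 0 := by
    intro b
    unfold IcM
    rw [o3_eq D, hj, h0]
    rfl
  refine ⟨cf, jf, mf, kf, ?_⟩
  refine
    { reg := hreg G
      ordl := ll_ord
      mu0 := ?_
      mu_mem := ?_
      mu_l := ?_
      mu_cof := ?_
      c_mem := ?_
      j_mem := ?_
      j_c := ?_
      j_inj := ?_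
      card1 := ?_
      card2 := ?_
      pn := ?_
      pl := ?_
      pw := ?_
      e_d := ?_
      ap := ?_
      h_lt := ?_
      h_v := ?_
      h_s := ?_ }
  · rw [← lv_zero (G := G) D, hm]; rfl
  · intro n hn
    obtain ⟨n, rfl⟩ := (mem_om D).1 hn
    rw [suc_nN, hm, hm, lv_lt]
    exact D.mu_lt n
  · intro n hn
    obtain ⟨n, rfl⟩ := (mem_om D).1 hn
    rw [hm]
    exact mem_ll.2 ⟨_, rfl⟩
  · intro x hx
    obtain ⟨i, rfl⟩ := mem_ll.1 hx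
    obtain ⟨n, hn⟩ := D.mu_cof i.1
    refine ⟨_, (mem_om D).2 ⟨n, rfl⟩, ?_⟩
    rw [hm, lv_lt]
    exact hn
  · intro n b hn hb
    obtain ⟨n, rfl⟩ := (mem_om D).1 hn
    obtain ⟨b, hb', rfl⟩ := mem_lv.1 hb
    rw [hc, lv_lt]
    exact D.c_lt _ _
  · intro n b y f hn hb hy hf
    obtain ⟨n, rfl⟩ := (mem_om D).1 hn
    obtain ⟨b, hb', rfl⟩ := mem_lv.1 hb
    obtain ⟨y, hy', rfl⟩ := mem_lv.1 hy
    obtain ⟨f, hf', rfl⟩ := mem_lv.1 hf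
    rw [hj, lv_lt]
    exact D.J_lt _ _ _ _
  · intro n b y f hn hb hy hf
    obtain ⟨n, rfl⟩ := (mem_om D).1 hn
    obtain ⟨b, hb', rfl⟩ := mem_lv.1 hb
    rw [suc_nN, hc] at hy
    obtain ⟨y, hy', rfl⟩ := mem_lv.1 hy
    have hf2 : ∃ f' : LN N L, f'.1 ≤ y.1 ∧ f = lv G f' := by
      rcases mem_suc.1 hf with h | h
      · obtain ⟨f, hf', rfl⟩ := mem_lv.1 h
        exact ⟨f, le_of_lt hf', rfl⟩
      · exact ⟨y, le_rfl, h⟩
    obtain ⟨f, hf', rfl⟩ := hf2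
    rw [s5_eq D, hj, hc, lv_lt]
    exact D.J_c n b.1 y.1 f.1 hb' hy' hf'
  · intro n b y f f' hn hb hy hf hf' he
    obtain ⟨n, rfl⟩ := (mem_om D).1 hn
    obtain ⟨b, hb', rfl⟩ := mem_lv.1 hb
    rw [suc_nN, hc] at hy
    obtain ⟨y, hy', rfl⟩ := mem_lv.1 hy
    have hf2 : ∀ f : MM N G, f ∈ suc (lv G y) → ∃ f' : LN N L, f'.1 ≤ y.1 ∧ f = lv G f' := by
      intro f hf
      rcases mem_suc.1 hf with h | h
      · obtain ⟨f, hf', rfl⟩ := mem_lv.1 h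
        exact ⟨f, le_of_lt hf', rfl⟩
      · exact ⟨y, le_rfl, h⟩
    obtain ⟨f, hf1, rfl⟩ := hf2 _ hf
    obtain ⟨f', hf1', rfl⟩ := hf2 _ hf'
    rw [s5_eq D, hj, hj] at he
    have h1 := congrArg Subtype.val (lv_inj he)
    have h2 := D.J_inj n b.1 y.1 f.1 f'.1 hb' hy' hf1 hf1' h1
    rw [Subtype.ext h2]
  · intro n hn
    obtain ⟨n, rfl⟩ := (mem_om D).1 hn
    rw [suc_nN, hm, hm]
    exact hcard G n
  · intro n δ hn hδ
    obtain ⟨n, rfl⟩ := (mem_om D).1 hn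
    rw [suc_nN, suc_nN, hm] at hδ
    obtain ⟨d, hd, rfl⟩ := mem_lv.1 hδ
    rw [suc_nN, hm]
    refine ⟨lam (lv G (D.muN (D.nN (N := N) (n + 1))))
      (fun x => app sf (opair (opair (lv G (D.nN (N := N) (n + 1))) (lv G d)) (opair x x))), ?_⟩
    intro y hy
    obtain ⟨y, hy', rfl⟩ := mem_lv.1 hy
    obtain ⟨x, ⟨hx1, hx2⟩, hx3⟩ := w1 n d.1 d.2 y.1 y.2 (by
      obtain ⟨x, hx, hx'⟩ := D.s_sur n d.1 hd y.1 hy'
      exact ⟨x, hx, hx'⟩)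
    have hx4 : lv G (⟨x, hx3⟩ : LN N L) ∈ lv G (D.muN (D.nN (N := N) (n + 1))) := lv_lt.2 hx1
    refine ⟨lv G ⟨x, hx3⟩, hx4, ?_⟩
    rw [app_lam hx4, hsf]
    congr 1
    exact Subtype.ext hx2
  · intro n hn
    obtain ⟨n, rfl⟩ := (mem_om D).1 hn
    rw [hm]
    refine ⟨lam (lv G (D.muN (D.nN (N := N) n)))
      (fun x => opair (app pf (opair (lv G (D.nN (N := N) n)) x)) (app qf (opair (lv G (D.nN (N := N) n)) x))), ?_⟩
    intro y hy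
    obtain ⟨a, ha, b, hb, rfl⟩ := mem_prod.1 hy
    obtain ⟨a, ha', rfl⟩ := mem_lv.1 ha
    obtain ⟨b, hb', rfl⟩ := mem_lv.1 hb
    obtain ⟨x, ⟨hx1, hx2, hx2'⟩, hx3⟩ := w2 n a.1 a.2 b.1 b.2 (by
      obtain ⟨x, hx, hx'⟩ := D.pq n a.1 b.1 ha' hb'
      exact ⟨x, hx, hx'⟩)
    have hx4 : lv G (⟨x, hx3⟩ : LN N L) ∈ lv G (D.muN (D.nN (N := N) n)) := lv_lt.2 hx1
    refine ⟨lv G ⟨x, hx3⟩, hx4, ?_⟩
    rw [app_lam hx4, hpf, hqf]
    congr 1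
    · congr 1
      exact Subtype.ext hx2
    · congr 1
      exact Subtype.ext hx2'
  · refine ⟨lam (ll G N L) (fun x => opair (app pl x) (app ql x)), ?_⟩
    intro y hy
    obtain ⟨a, ha, b, hb, rfl⟩ := mem_prod.1 hy
    obtain ⟨a, rfl⟩ := mem_ll.1 ha
    obtain ⟨b, rfl⟩ := mem_ll.1 hb
    obtain ⟨x, ⟨hx2, hx2'⟩, hx3⟩ := w3 a.1 a.2 b.1 b.2 (D.pqL a.1 b.1)
    have hx4 : lv G (⟨x, hx3⟩ : LN N L) ∈ ll G N L := mem_ll.2 ⟨_, rfl⟩
    refine ⟨lv G ⟨x, hx3⟩, hx4, ?_⟩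
    rw [app_lam hx4, hpl, hql]
    congr 1
    · congr 1
      exact Subtype.ext hx2
    · congr 1
      exact Subtype.ext hx2'
  · intro b hb
    obtain ⟨b, hb', rfl⟩ := mem_lv.1 hb
    obtain ⟨m, hm'⟩ := hpw G b hb'
    refine ⟨_, (mem_om D).2 ⟨m, rfl⟩, ?_⟩
    rw [hc]
    exact hm'
  · -- e_d
    intro b i i' hb hI hi hi' hne
    obtain ⟨b, hb', rfl⟩ := mem_lv.1 hb
    rw [hic] at hI
    rw [← lv_zero (G := G) D, hc] at hi hi'
    obtain ⟨i, hi1, rfl⟩ := mem_lv.1 hi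
    obtain ⟨i', hi1', rfl⟩ := mem_lv.1 hi'
    have hne' : i.1 ≠ i'.1 := fun h => hne (by rw [Subtype.ext h])
    obtain ⟨h1, h2⟩ := D.e_d b.1 i.1 i'.1 hb' hI hi1 hi1' hne'
    rw [o4_eq D, hj, lv_lt]
    refine ⟨h1, ?_⟩
    rw [← lv_zero (G := G) D, hj, hj, lv_zero, h0, h0]
    exact h2
  · -- ap
    intro X hXk hX
    obtain ⟨j, hj1, hj2⟩ := hap G X hXk (by
      intro b hb
      obtain ⟨b', i, hb', hi, h1⟩ := hX (lv G b) (lv_lt.2 hb)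
      obtain ⟨b', _, rfl⟩ := mem_lv.1 hb'
      obtain ⟨i, _, rfl⟩ := mem_lv.1 hi
      refine ⟨b', i, fun x hx => ?_⟩
      have h2 := h1 (lv G x) (lv_lt.2 hx)
      rw [← lv_zero (G := G) D, hj, lv_zero, h0] at h2
      exact h2)
    refine ⟨lv G j, ?_, ?_⟩
    · rw [show (suc (∅ : MM N G)) = lv G (D.nN (N := N) 1) from o1_eq D, hm, lv_lt]
      exact hj1
    · intro x hx
      obtain ⟨x, hx', rfl⟩ := mem_lv.1 hx
      rw [hj2 x hx', hkk, h0]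
  · -- h_lt
    intro b hb hb0 hI
    obtain ⟨b, hb', rfl⟩ := mem_lv.1 hb
    rw [hic] at hI
    rw [Ne, h0] at hb0
    rw [o2_eq D, hj, lv_lt]
    exact D.h_lt b.1 (lt_of_le_of_ne (t9_bot D _) (Ne.symm hb0)) hb' hI
  · -- h_v
    intro b ξ hb hb0 hI hξ
    obtain ⟨b, hb', rfl⟩ := mem_lv.1 hb
    obtain ⟨ξ, hξ', rfl⟩ := mem_lv.1 hξ
    rw [hic] at hI
    rw [Ne, h0] at hb0
    rw [o1_eq D, hj, lv_lt]
    exact D.h_v b.1 ξ.1 (lt_of_le_of_ne (t9_bot D _) (Ne.symm hb0)) hb' hI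
  · -- h_s
    intro μ hμ
    obtain ⟨m, hm1, rfl⟩ := mem_lv.1 hμ
    have hbe : InT N (D.be m.1) := (DEnv.be (N := N) (D := D)).cl m.1 m.1 m.1 m.1 m.2 m.2 m.2 m.2
    refine ⟨lv G ⟨D.be m.1, hbe⟩, lv_lt.2 (D.be_lt m.1), ?_⟩
    intro b hb hI he x hx
    obtain ⟨b, hb', rfl⟩ := mem_lv.1 hb
    obtain ⟨x, hx', rfl⟩ := mem_lv.1 hx
    rw [hic] at hI
    rw [o2_eq D, hj] at he
    have he' := congrArg Subtype.val (lv_inj he)
    have h1 := D.h_s b.1 hb' hI x.1 hx'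
    have he2 : D.J (D.nL 2) b.1 b.1 b.1 = m.1 := he'
    rw [he2] at h1
    obtain ⟨ξ, ⟨hξ1, hξ2⟩, hξN⟩ := w4 b.1 b.2 x.1 x.2 _ hbe h1
    refine ⟨lv G ⟨ξ, hξN⟩, lv_lt.2 hξ1, ?_⟩
    rw [o1_eq D, hj, mem_suc]
    rcases lt_or_eq_of_le hξ2 with h2 | h2
    · exact Or.inl (lv_lt.2 h2)
    · exact Or.inr (congrArg (lv G) (Subtype.ext h2))

end Pool.Agent.SplH
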