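import Pool.Agent.SplH.F3
import Pool.Agent.SplH.T9
import Pool.Agent.SplH.T1
import Pool.Agent.SplH.T7
import Pool.Agent.SplH.V6

set_option autoImplicit false
set_option linter.all false

/-!
# The model
-/

namespace Pool.Agent.SplH

open Pool.Agent.SplC (IsBij IsCard IsRegularUncountable IsSingular IsLarge SplitsAt IsSplittingFamily IsSplittingNumber)
open FirstOrder FirstOrder.Language Pool.Agent.H55.SC Pool.Agent.H55.CS Pool.Agent.H55.Lav

theorem main_vfrc {Q : Type} [Preorder Q] [OrderTop Q] {L : Type} [LinearOrder L] [WellFoundedLT L] {D : VDat L}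
    (hV : VFrc Q D) : ∃ (M : Type 1) (E : M → M → Prop), Countable M ∧ WellFounded E ∧ ZFC E ∧
      ∃ w k l, IsOmega E w ∧ IsRegularUncountable E w k ∧ IsSingular E l ∧ E k l ∧ IsSplittingNumber E k l := by
  obtain ⟨N, hcount, h1, h2, h3, ⟨G, gen⟩, h5, h6⟩ := ((club_countable (Ω := Un Q)).and
    ((env_club (Q := Q)).and ((lenv_club (Q := Q) (L := L)).and ((denv_club (Q := Q) D).and ((exists_genF_all Q).and
      ((ui_club hV).and (ns_club hV))))))).exists
  have i1 : Env N G := h1 G gen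
  obtain ⟨cf, jf, mf, kf, hU⟩ := h5 G
  obtain ⟨r1, r2, r3, r4, r5⟩ := final_int hU (fun δ F h h' => h6 G δ F h h')
  refine ⟨MM N G, EE, ?_, ?_, choice_ax i1.ok i1.fok i1.zok i1.aok i1.gen, _, _, _, r1, r2, r3, r4, r5⟩
  · have h7 : {τ : Nm Q | InN N τ}.Countable := hcount.preimage_of_injOn uN_inj.injOn
    have h8 : Countable {τ : Nm Q | InN N τ} := h7.to_subtype
    refine Function.Surjective.countable (f := fun τ : {τ : Nm Q | InN N τ} => (vl G τ.2 : MM N G)) ?_
    rintro ⟨x, τ, hτ, rfl⟩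
    exact ⟨⟨τ, hτ⟩, rfl⟩
  · exact InvImage.wf Subtype.val ZFSet.mem_wf

end Pool.Agent.SplH
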