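import Pool.Agent.SplH.IDefs

set_option autoImplicit false
set_option linter.all false
universe u

/-!
# I1 (3): the filter of the sets which contain almost all elements of `A`

`ev_all`: for `x ∈ α` let `G x = mu (fun γ => γ ∈ k ∧ ∀ a, a ∈ A → γ ∈ a → φ x a)` (least bound; `mu_spec`, elements of the ordinal `k` are ordinals); `s = lam α G` maps
`α` to `k`, so by `Reg.bdd` all `G x` are in some `β ∈ k`; if `β ∈ a` then `G x ∈ a` (`a` is an ordinal, being an element of `A ⊆ k`; transitivity).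
(hypothesis `hA : A ⊆ k`.)
`ev_part`: otherwise, for all `x ∈ α`, `Ev (¬ φ x)` by `hd`; `ev_all` gives `Ev (∀ x ∈ α, ¬ φ x a)`, contradiction with `h` by `ev_not` (after `Ev.and`/`mono`).
-/

namespace Pool.Agent.SplH

open Pool.Agent.H55.ZFU

variable {M : Type u} [Model M] [Pure M]

omit [Pure M] in
theorem Ev.mono {k A : M} {φ ψ : M → Prop} (h : Ev k A φ) (hi : ∀ a, a ∈ A → φ a → ψ a) :
    Ev k A ψ := by
  obtain ⟨γ, hγ, h⟩ := h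
  exact ⟨γ, hγ, fun a ha h1 => hi a ha (h a ha h1)⟩

theorem Ev.and {k A : M} (hk : Reg k) (hA : A ⊆ k) {φ ψ : M → Prop} (h : Ev k A φ)
    (h' : Ev k A ψ) : Ev k A (fun a => φ a ∧ ψ a) := by
  obtain ⟨γ, hγ, h⟩ := h
  obtain ⟨γ', hγ', h'⟩ := h'
  rcases ord_tri γ (hk.ord.mem hγ) γ' (hk.ord.mem hγ') with h1 | h1 | h1
  · exact ⟨γ', hγ', fun a ha h2 => ⟨h a ha ((hk.ord.mem (hA a ha)).2.1 γ' h2 γ h1), h' a ha h2⟩⟩
  · subst h1
    exact ⟨γ, hγ, fun a ha h2 => ⟨h a ha h2, h' a ha h2⟩⟩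
  · exact ⟨γ, hγ, fun a ha h2 => ⟨h a ha h2, h' a ha ((hk.ord.mem (hA a ha)).2.1 γ h2 γ' h1)⟩⟩

theorem ev_not {k A : M} (hA : Unb k A) (hk : Reg k) {φ : M → Prop} (h : Ev k A φ)
    (h' : Ev k A (fun a => ¬ φ a)) : False := by
  obtain ⟨γ, hγ, h1⟩ := Ev.and hk hA.1 h h'
  obtain ⟨a, ha, hγa⟩ := hA.2 γ hγ
  exact (h1 a ha hγa).2 (h1 a ha hγa).1

theorem ev_all {k A : M} (hk : Reg k) (hA : A ⊆ k) (φ : M → M → Prop) [Dfn2 φ] {α : M}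
    (hα : α ∈ k) (h : ∀ x, x ∈ α → Ev k A (φ x)) : Ev k A (fun a => ∀ x, x ∈ α → φ x a) := by
  have hφ : Dfn2 φ := inferInstance
  have iφ : ∀ {ι : Type} (t s : (ι → M) → M) [DFun t] [DFun s], Dfn (fun v => φ (t v) (s v)) :=
    fun t s => Dfn.comp2 hφ t s
  have iG : Fn1 (fun x : M => mu (fun γ => γ ∈ k ∧ ∀ a, a ∈ A → γ ∈ a → φ x a)) := inferInstance
  have hspec : ∀ x, x ∈ α → mu (fun γ => γ ∈ k ∧ ∀ a, a ∈ A → γ ∈ a → φ x a) ∈ k ∧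
      ∀ a, a ∈ A → mu (fun γ => γ ∈ k ∧ ∀ a, a ∈ A → γ ∈ a → φ x a) ∈ a → φ x a := by
    intro x hx
    obtain ⟨γ, hγ, h1⟩ := h x hx
    exact (mu_spec (fun γ => γ ∈ k ∧ ∀ a, a ∈ A → γ ∈ a → φ x a) ⟨γ, hk.ord.mem hγ, hγ, h1⟩).2.1
  obtain ⟨β, hβ, hβ'⟩ := hk.bdd α (lam α (fun x => mu (fun γ => γ ∈ k ∧ ∀ a, a ∈ A → γ ∈ a → φ x a))) hα
    (fun x hx => by rw [app_lam hx]; exact (hspec x hx).1)
  refine ⟨β, hβ, fun a ha hβa x hx => (hspec x hx).2 a ha ?_⟩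
  have h1 := hβ' x hx
  rw [app_lam hx] at h1
  exact (hk.ord.mem (hA a ha)).2.1 β hβa _ h1

theorem ev_part {k A : M} (hk : Reg k) (hA : Unb k A) (φ : M → M → Prop) [Dfn2 φ] {α : M}
    (hα : α ∈ k) (h : Ev k A (fun a => ∃ x, x ∈ α ∧ φ x a))
    (hd : ∀ x, x ∈ α → Ev k A (φ x) ∨ Ev k A (fun a => ¬ φ x a)) : ∃ x, x ∈ α ∧ Ev k A (φ x) := by
  have hφ : Dfn2 φ := inferInstance
  have iφ : ∀ {ι : Type} (t s : (ι → M) → M) [DFun t] [DFun s], Dfn (fun v => φ (t v) (s v)) :=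
    fun t s => Dfn.comp2 hφ t s
  by_contra hcon
  have h1 : ∀ x, x ∈ α → Ev k A (fun a => ¬ φ x a) := by
    intro x hx
    rcases hd x hx with h2 | h2
    · exact absurd ⟨x, hx, h2⟩ hcon
    · exact h2
  have iN : Dfn2 (fun x a : M => ¬ φ x a) := inferInstance
  have h2 := ev_all hk hA.1 (fun x a => ¬ φ x a) hα h1
  refine ev_not hA hk h (h2.mono ?_)
  rintro a ha h3 ⟨x, hx, h4⟩
  exact h3 x hx h4

end Pool.Agent.SplH
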