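import Pool.Agent.SplH.I1

set_option autoImplicit false
set_option linter.all false
universe u

/-!
# I3 (3): functions below `g`, and the functions `E_j`

* `gl_const`: by `hg.least` `Ev (app f a ∈ β)`, `β ∈ k`. `ev_part` with `α = β`, `φ x a := app f a = x`; decidedness: for `x ∈ β` (so `x ∈ k`) take the constant function `c ∈ Φ`
  (`hC.cst`) and `hD.eq f c`.
* `gl_om`: the constant `omega`: `hD.mem c g`: `Ev (omega ∈ app g a)` or `Ev (omega ∉ app g a)`. In the second case `app g a ∈ suc omega` (ordinals: `ord_tri`, elements of `k`), and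
  `suc omega ∈ k` (`k` is a limit: if `suc x ∉ k` for `x ∈ k` then `suc x = k` or..., contradiction with `Reg.bdd` for `α = suc ∅`; prove this small lemma), contradiction with `hg.unb`.
* `gl_m`: `ev_part` with `α = omega ∈ k`, `φ n a := app mb (app g a) = n` (decided: `hC.mcl g`, constants).
* `e_ne`: suppose `Ev (app f a = app f' a)`. The two sets are different: there is `x ∈ k` in exactly one of `app X j`, `app X j'` (`Pure`, `ext`). `g` is not bounded by `suc x`: so
  there is `a ∈ A` above the bound with `app g a ∉ suc x`, so `x ∈ app g a`. For `b = app g a ∈ k`: the least `i` in `Cn cf (app mb b) b` with `app (app z b) i = inter (app X j) b` exists (`hP.sur`,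
  `inter .. ∈ pow b`) so `app (app z b) (app f a) = inter (app X j) b` (`mu_spec`; the elements of `Cn cf _ b ∈ k` are ordinals), the same for `j'`; so `inter (app X j) b = inter (app X j') b`, contradiction at `x`.
* `e_mem`: `app f a ∈ Cn cf (app mb (app g a)) (app g a)` by the same `mu_spec`, then use `gl_m`-type hypothesis `hn`.
-/

namespace Pool.Agent.SplH

open Pool.Agent.H55.ZFU

variable {M : Type u} [Model M] [Pure M] {k l cf jf Φ mb z X A g : M}

theorem i3_sub (hk : Reg k) {a b : M} (ha : a ∈ k) (hb : b ∈ a) : b ∈ k := hk.ord.2.1 a ha b hb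

theorem Reg.suc_mem (hk : Reg k) {x : M} (hx : x ∈ k) : suc x ∈ k := by
  have hox := hk.ord.mem hx
  rcases ord_tri (suc x) (ord_suc hox) k hk.ord with h | h | h
  · exact h
  · exfalso
    have h1 : suc (∅ : M) ∈ k := i3_sub hk hk.om (suc_mem_omega empty_mem_omega)
    obtain ⟨β, hβ, h2⟩ := hk.bdd (suc ∅) (lam (suc ∅) (fun _ => x)) h1 (fun y hy => by
      rw [app_lam hy]; exact hx)
    have h3 := h2 ∅ (mem_suc.mpr (Or.inr rfl))
    rw [app_lam (mem_suc.mpr (Or.inr rfl))] at h3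
    rw [← h] at hβ
    rcases mem_suc.mp hβ with h4 | h4
    · exact not_mem_mem h3 h4
    · rw [h4] at h3
      exact not_mem_self x h3
  · exfalso
    rcases mem_suc.mp h with h4 | h4
    · exact not_mem_mem h4 hx
    · rw [h4] at hx
      exact not_mem_self x hx

theorem gl_const (hk : Reg k) (hC : Clo k l cf jf Φ mb z X) (hD : Dcd k Φ A) (hg : Gl k Φ A g)
    {f : M} (hf : f ∈ Φ) (h : Ev k A (fun a => app f a ∈ app g a)) :
    ∃ δ, δ ∈ k ∧ Ev k A (fun a => app f a = δ) := by
  obtain ⟨β, hβ, h1⟩ := hg.least f hf h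
  obtain ⟨x, hx, h2⟩ := ev_part hk hD.unb (fun x a => app f a = x) hβ
    (h1.mono (fun a _ h => ⟨app f a, h, rfl⟩)) (fun x hx => by
      obtain ⟨c, hc, hc2⟩ := hC.cst x (i3_sub hk hβ hx)
      rcases hD.eq f c hf hc with h3 | h3
      · exact Or.inl (h3.mono (fun a ha h => h.trans (hc2 a (hD.unb.1 a ha))))
      · exact Or.inr (h3.mono (fun a ha h h4 => h (h4.trans (hc2 a (hD.unb.1 a ha)).symm))))
  exact ⟨x, i3_sub hk hβ hx, h2⟩

theorem gl_om (hk : Reg k) (hC : Clo k l cf jf Φ mb z X) (hD : Dcd k Φ A) (hg : Gl k Φ A g) :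
    Ev k A (fun a => omega ⊆ app g a) := by
  obtain ⟨c, hc, hc2⟩ := hC.cst omega hk.om
  rcases hD.mem c g hc hg.mem with h | h
  · refine h.mono (fun a ha h1 => ?_)
    have hak := hD.unb.1 a ha
    rw [hc2 a hak] at h1
    exact (hk.ord.mem (hC.fn g hg.mem a hak)).sub h1
  · exfalso
    refine hg.unb (suc omega) (hk.suc_mem hk.om) (h.mono (fun a ha h1 => ?_))
    have hak := hD.unb.1 a ha
    rw [hc2 a hak] at h1
    have hga := hk.ord.mem (hC.fn g hg.mem a hak)
    rcases ord_tri omega omega_ord (app g a) hga with h2 | h2 | h2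
    · exact absurd h2 h1
    · exact mem_suc.mpr (Or.inr h2.symm)
    · exact mem_suc.mpr (Or.inl h2)

theorem gl_m (hk : Reg k) (hC : Clo k l cf jf Φ mb z X) (hD : Dcd k Φ A) (hg : Gl k Φ A g)
    (hP : PwD k cf mb z) : ∃ n, n ∈ (omega : M) ∧ Ev k A (fun a => app mb (app g a) = n) := by
  obtain ⟨f', hf', hf2⟩ := hC.mcl g hg.mem
  refine ev_part hk hD.unb (fun n a => app mb (app g a) = n) hk.om ?_ ?_
  · exact ⟨omega, hk.om, fun a ha _ =>
      ⟨app mb (app g a), hP.mb_mem _ (hC.fn g hg.mem a (hD.unb.1 a ha)), rfl⟩⟩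
  · intro x hx
    obtain ⟨c, hc, hc2⟩ := hC.cst x (i3_sub hk hk.om hx)
    rcases hD.eq f' c hf' hc with h3 | h3
    · exact Or.inl (h3.mono (fun a ha h => by
        have hak := hD.unb.1 a ha
        rw [hf2 a hak, hc2 a hak] at h
        exact h))
    · exact Or.inr (h3.mono (fun a ha h h4 => h (by
        have hak := hD.unb.1 a ha
        rw [hf2 a hak, hc2 a hak]
        exact h4)))

/-- `f` is the function `E_j` with respect to `g`. -/
def IsE (k cf mb z X g j f : M) : Prop := ∀ a, a ∈ k →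
  app f a = mu (fun i => i ∈ Cn cf (app mb (app g a)) (app g a) ∧
    app (app z (app g a)) i = inter (app X j) (app g a))

theorem i3_key (hk : Reg k) (hP : PwD k cf mb z)
    (hc : ∀ n b, n ∈ (omega : M) → b ∈ k → Cn cf n b ∈ k) {j f a : M}
    (hf : IsE k cf mb z X g j f) (ha : a ∈ k) (hb : app g a ∈ k) :
    app f a ∈ Cn cf (app mb (app g a)) (app g a) ∧
      app (app z (app g a)) (app f a) = inter (app X j) (app g a) := by
  have h1 := mu_spec (fun i => i ∈ Cn cf (app mb (app g a)) (app g a) ∧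
    app (app z (app g a)) i = inter (app X j) (app g a)) (by
      obtain ⟨i, hi, hi2⟩ := hP.sur _ hb (inter (app X j) (app g a)) (mem_pow.mpr
        ⟨inferInstance, fun x hx => (mem_inter.mp hx).2⟩)
      exact ⟨i, hk.ord.mem (i3_sub hk (hc _ _ (hP.mb_mem _ hb) hb) hi), hi, hi2⟩)
  rw [← hf a ha] at h1
  exact h1.2.1

theorem e_ne (hk : Reg k) (hC : Clo k l cf jf Φ mb z X) (hD : Dcd k Φ A) (hg : Gl k Φ A g)
    (hP : PwD k cf mb z) (hc : ∀ n b, n ∈ (omega : M) → b ∈ k → Cn cf n b ∈ k)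
    {j j' f f' : M} (hXj : app X j ⊆ k) (hXj' : app X j' ⊆ k) (hne : app X j ≠ app X j')
    (hf : IsE k cf mb z X g j f) (hf' : IsE k cf mb z X g j' f') :
    ¬ Ev k A (fun a => app f a = app f' a) := by
  rintro ⟨γ, hγ, h⟩
  obtain ⟨x, hxk, hx⟩ : ∃ x, x ∈ k ∧ ¬ (x ∈ app X j ↔ x ∈ app X j') := by
    by_contra hcon
    push Not at hcon
    apply hne
    apply ext
    intro x
    by_cases hx : x ∈ k
    · exact hcon x hx
    · exact ⟨fun h => absurd (hXj x h) hx, fun h => absurd (hXj' x h) hx⟩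
  obtain ⟨a, ha, hγa, hax⟩ : ∃ a, a ∈ A ∧ γ ∈ a ∧ app g a ∉ suc x := by
    by_contra hcon
    push Not at hcon
    exact hg.unb (suc x) (hk.suc_mem hxk) ⟨γ, hγ, hcon⟩
  have hak := hD.unb.1 a ha
  have hbk := hC.fn g hg.mem a hak
  have hxb : x ∈ app g a := by
    rcases ord_tri x (hk.ord.mem hxk) (app g a) (hk.ord.mem hbk) with h1 | h1 | h1
    · exact h1
    · exact absurd (mem_suc.mpr (Or.inr h1.symm)) hax
    · exact absurd (mem_suc.mpr (Or.inl h1)) hax
  have h1 := (i3_key hk hP hc hf hak hbk).2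
  have h2 := (i3_key hk hP hc hf' hak hbk).2
  rw [h a ha hγa, h2] at h1
  apply hx
  have h3 : x ∈ inter (app X j') (app g a) ↔ x ∈ inter (app X j) (app g a) := by rw [h1]
  rw [mem_inter, mem_inter] at h3
  exact ⟨fun h => (h3.mpr ⟨h, hxb⟩).1, fun h => (h3.mp ⟨h, hxb⟩).1⟩

theorem e_mem (hk : Reg k) (hC : Clo k l cf jf Φ mb z X) (hD : Dcd k Φ A) (hg : Gl k Φ A g)
    (hP : PwD k cf mb z) (hc : ∀ n b, n ∈ (omega : M) → b ∈ k → Cn cf n b ∈ k)
    {j f n : M} (hf : IsE k cf mb z X g j f) (hn : Ev k A (fun a => app mb (app g a) = n)) :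
    Ev k A (fun a => app f a ∈ Cn cf n (app g a)) := by
  refine hn.mono (fun a ha h => ?_)
  have hak := hD.unb.1 a ha
  have h1 := (i3_key hk hP hc hf hak (hC.fn g hg.mem a hak)).1
  rw [h] at h1
  exact h1

end Pool.Agent.SplH
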