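import Pool.Agent.SplH.I3

set_option autoImplicit false
set_option linter.all false
universe u

/-!
# I3b: the values of `g` are inaccessible in the ground model
-/

namespace Pool.Agent.SplH

open Pool.Agent.H55.ZFU

variable {M : Type u} [Model M] [Pure M] {k l cf jf mf kf Φ mb z X A g : M}

theorem o1_mem : (o1 : M) ∈ (omega : M) := suc_mem_omega empty_mem_omega
theorem o2_mem : (o2 : M) ∈ (omega : M) := suc_mem_omega o1_mem
theorem o3_mem : (o3 : M) ∈ (omega : M) := suc_mem_omega o2_mem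
theorem o4_mem : (o4 : M) ∈ (omega : M) := suc_mem_omega o3_mem
theorem s5_mem {n : M} (hn : n ∈ (omega : M)) : s5 n ∈ (omega : M) :=
  suc_mem_omega (suc_mem_omega (suc_mem_omega (suc_mem_omega (suc_mem_omega hn))))

theorem empty_mem_k (hk : Reg k) : (∅ : M) ∈ k := i3_sub hk hk.om empty_mem_omega

/-- equality of a function of `Φ` with a constant is decided -/
theorem gl_dec (hk : Reg k) (hC : Clo k l cf jf Φ mb z X) (hD : Dcd k Φ A) {f δ : M} (hf : f ∈ Φ) (hδ : δ ∈ k) :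
    Ev k A (fun a => app f a = δ) ∨ Ev k A (fun a => app f a ≠ δ) := by
  obtain ⟨c, hc, hc2⟩ := hC.cst δ hδ
  rcases hD.eq f c hf hc with h3 | h3
  · exact Or.inl (h3.mono (fun a ha h => h.trans (hc2 a (hD.unb.1 a ha))))
  · exact Or.inr (h3.mono (fun a ha h h4 => h (h4.trans (hc2 a (hD.unb.1 a ha)).symm)))

theorem gl_ic (hU : UI k l cf jf mf kf) (hC : Clo k l cf jf Φ mb z X) (hD : Dcd k Φ A) (hg : Gl k Φ A g) :
    Ev k A (fun a => IcM jf (app g a)) := by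
  have hk := hU.reg
  obtain ⟨f3, hf3, hf3'⟩ := hC.jcl o3 g g g o3_mem hg.mem hg.mem hg.mem
  have hgk : ∀ a, a ∈ A → app g a ∈ k := fun a ha => hC.fn g hg.mem a (hD.unb.1 a ha)
  rcases gl_dec hk hC hD hf3 (empty_mem_k hk) with h | h
  · refine h.mono (fun a ha h1 => ?_)
    have h2 := hf3' a (hD.unb.1 a ha)
    unfold IcM
    rw [← h2]
    exact h1
  exfalso
  have hn : Ev k A (fun a => ¬ IcM jf (app g a)) := h.mono (fun a ha h1 h2 => by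
    apply h1
    show app f3 a = ∅
    rw [hf3' a (hD.unb.1 a ha)]
    exact h2)
  have hne : Ev k A (fun a => app g a ≠ ∅) := (gl_om hk hC hD hg).mono (fun a ha h1 h2 => by
    rw [h2] at h1
    exact not_mem_empty _ (h1 ∅ empty_mem_omega))
  have hnn := Ev.and hk hD.unb.1 hn hne
  obtain ⟨f2, hf2, hf2'⟩ := hC.jcl o2 g g g o2_mem hg.mem hg.mem hg.mem
  obtain ⟨μ, hμ, hμ'⟩ := gl_const hk hC hD hg hf2 (hnn.mono (fun a ha h1 => by
    show app f2 a ∈ app g a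
    rw [hf2' a (hD.unb.1 a ha)]
    exact hU.h_lt _ (hgk a ha) h1.2 h1.1))
  obtain ⟨β, hβ, hs⟩ := hU.h_s μ hμ
  have hδ : ∀ ξ, ξ ∈ β → ∃ δ, δ ∈ k ∧ Ev k A (fun a => Jn jf o1 (app g a) ξ ξ = δ) := by
    intro ξ hξ
    have hξk := i3_sub hk hβ hξ
    obtain ⟨c, hc, hc2⟩ := hC.cst ξ hξk
    obtain ⟨f1, hf1, hf1'⟩ := hC.jcl o1 g c c o1_mem hg.mem hc hc
    have h1 : ∀ a, a ∈ A → app f1 a = Jn jf o1 (app g a) ξ ξ := fun a ha => by
      rw [hf1' a (hD.unb.1 a ha), hc2 a (hD.unb.1 a ha)]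
    obtain ⟨δ, hδ, hδ'⟩ := gl_const hk hC hD hg hf1 (hnn.mono (fun a ha h2 => by
      show app f1 a ∈ app g a
      rw [h1 a ha]
      exact hU.h_v _ _ (hgk a ha) h2.2 h2.1 hξk))
    exact ⟨δ, hδ, hδ'.mono (fun a ha h2 => by
      show Jn jf o1 (app g a) ξ ξ = δ
      rw [← h1 a ha]
      exact h2)⟩
  have i0 : Fn1 (fun ξ : M => mu (fun δ : M => δ ∈ k ∧ Ev k A (fun a => Jn jf o1 (app g a) ξ ξ = δ))) := inferInstance
  have hspec : ∀ ξ, ξ ∈ β → mu (fun δ : M => δ ∈ k ∧ Ev k A (fun a => Jn jf o1 (app g a) ξ ξ = δ)) ∈ k ∧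
      Ev k A (fun a => Jn jf o1 (app g a) ξ ξ = mu (fun δ : M => δ ∈ k ∧ Ev k A (fun a => Jn jf o1 (app g a) ξ ξ = δ))) := by
    intro ξ hξ
    obtain ⟨δ, h1, h2⟩ := hδ ξ hξ
    exact (mu_spec (fun δ : M => δ ∈ k ∧ Ev k A (fun a => Jn jf o1 (app g a) ξ ξ = δ)) ⟨δ, hk.ord.mem h1, h1, h2⟩).2.1
  obtain ⟨δ, hδk, hδ1⟩ := hk.bdd β (lam β (fun ξ : M => mu (fun δ : M => δ ∈ k ∧ Ev k A (fun a => Jn jf o1 (app g a) ξ ξ = δ)))) hβ
    (fun x hx => by rw [app_lam hx]; exact (hspec x hx).1)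
  have hall : Ev k A (fun a => ∀ ξ, ξ ∈ β → Jn jf o1 (app g a) ξ ξ ∈ δ) := by
    have i1 : Dfn2 (fun ξ a : M => Jn jf o1 (app g a) ξ ξ ∈ δ) := inferInstance
    refine ev_all hk hD.unb.1 (fun ξ a : M => Jn jf o1 (app g a) ξ ξ ∈ δ) hβ (fun ξ hξ => ?_)
    refine (hspec ξ hξ).2.mono (fun a ha h1 => ?_)
    show Jn jf o1 (app g a) ξ ξ ∈ δ
    have h2 := hδ1 ξ hξ
    rw [app_lam hξ] at h2
    have h3 : Jn jf o1 (app g a) ξ ξ = mu (fun δ : M => δ ∈ k ∧ Ev k A (fun a => Jn jf o1 (app g a) ξ ξ = δ)) := h1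
    rw [h3]
    exact h2
  refine hg.unb (suc δ) (hk.suc_mem hδk) ?_
  refine (Ev.and hk hD.unb.1 hn (Ev.and hk hD.unb.1 hμ' hall)).mono ?_
  rintro a ha ⟨h1, h2, h3⟩
  have h4 := hs (app g a) (hgk a ha) h1 (by
    rw [← hf2' a (hD.unb.1 a ha)]
    exact h2)
  have oδ := hk.ord.mem hδk
  have og := hk.ord.mem (hgk a ha)
  have h5 : app g a ⊆ δ := by
    intro x hx
    obtain ⟨ξ, hξ, h6⟩ := h4 x hx
    have h7 := h3 ξ hξ
    rcases mem_suc.1 h6 with h8 | h8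
    · exact oδ.2.1 _ h7 _ h8
    · rw [h8]; exact h7
  show app g a ∈ suc δ
  rw [mem_suc]
  exact (ord_sub_iff og oδ).1 h5

end Pool.Agent.SplH
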