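import Pool.Agent.H55.Seq

set_option autoImplicit false
set_option linter.all false
universe u

/-!
# MP_72b20c_lc, block C: definitions inside a model of ZFC (upper bound for the splitting number)

`M` is a model (`Model`, `Pure`, `Choice` of Pool/Agent/H55). All objects are elements of `M`.
-/

namespace Pool.Agent.SplH

open Pool.Agent.H55.ZFU

variable {M : Type u} [Model M]

/-- `b` is covered by the image of `a` under a function of the model. -/
def Img (a b : M) : Prop := ∃ s : M, ∀ y, y ∈ b → ∃ x, x ∈ a ∧ app s x = y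

instance img_dfn' {ι : Type} (t s : (ι → M) → M) [DFun t] [DFun s] : Dfn (fun v => Img (t v) (s v)) :=
  Dfn.comp2 (P := fun a b : M => Img a b) (by unfold Img; infer_instance) t s

/-- `k` is a regular uncountable cardinal. -/
structure Reg (k : M) : Prop where
  ord : IsOrd k
  om : omega ∈ k
  bdd : ∀ α f : M, α ∈ k → (∀ x, x ∈ α → app f x ∈ k) → ∃ β, β ∈ k ∧ ∀ x, x ∈ α → app f x ∈ β

/-- `A` is an unbounded subset of `k`. -/
def Unb (k A : M) : Prop := A ⊆ k ∧ ∀ γ, γ ∈ k → ∃ a, a ∈ A ∧ γ ∈ a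

/-- `X` splits `A`. -/
def Spl (k X A : M) : Prop :=
  (∀ γ, γ ∈ k → ∃ a, a ∈ A ∧ a ∈ X ∧ γ ∈ a) ∧ ∀ γ, γ ∈ k → ∃ a, a ∈ A ∧ a ∉ X ∧ γ ∈ a

/-- for all elements of `A` beyond some bound -/
def Ev (k A : M) (φ : M → Prop) : Prop := ∃ γ, γ ∈ k ∧ ∀ a, a ∈ A → γ ∈ a → φ a

instance unb_dfn {ι : Type} (t s : (ι → M) → M) [DFun t] [DFun s] : Dfn (fun v => Unb (t v) (s v)) :=
  Dfn.comp2 (P := fun a b : M => Unb a b) (by unfold Unb; infer_instance) t s

instance spl_dfn {ι : Type} (t s r : (ι → M) → M) [DFun t] [DFun s] [DFun r] :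
    Dfn (fun v => Spl (t v) (s v) (r v)) :=
  Dfn.comp3 (P := fun a b c : M => Spl a b c) (by unfold Spl; infer_instance) t s r

instance ev_dfn {ι : Type} (t s : (ι → M) → M) (φ : (ι → M) → M → Prop) [ht : DFun t]
    [hs : DFun s] [h : Dfn (fun w : Option ι → M => φ (fun i => w (some i)) (w none))] :
    Dfn (fun v => Ev (t v) (s v) (φ v)) := by
  unfold Ev
  have h1 := DFun.rename (κ := Option ι) some ht
  have h1' := DFun.rename (κ := Option (Option ι)) (fun i => some (some i)) ht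
  have h3 := DFun.rename (κ := Option ι) some hs
  have h3' := DFun.rename (κ := Option (Option ι)) (fun i => some (some i)) hs
  have h2 : Dfn (fun w : Option (Option ι) → M => φ (fun i => w (some (some i))) (w none)) :=
    Dfn.rename (fun o : Option ι => o.elim none (fun i => some (some i))) h
  infer_instance

/-- The binary function with the name `cf`. -/
noncomputable def Cn (cf n b : M) : M := app cf (opair n b)

/-- The function of four arguments with the name `jf`. -/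
noncomputable def Jn (jf n b y f : M) : M := app jf (opair (opair n b) (opair y f))

instance cn_dfun {ι : Type} (t s r : (ι → M) → M) [DFun t] [DFun s] [DFun r] :
    DFun (fun v => Cn (t v) (s v) (r v)) := by unfold Cn; infer_instance

instance jn_dfun {ι : Type} (t s r q p : (ι → M) → M) [DFun t] [DFun s] [DFun r] [DFun q] [DFun p] :
    DFun (fun v => Jn (t v) (s v) (r v) (q v) (p v)) := by unfold Jn; infer_instance

/-- one, two, three, four -/
noncomputable def o1 : M := suc ∅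
noncomputable def o2 : M := suc o1
noncomputable def o3 : M := suc o2
noncomputable def o4 : M := suc o3
/-- the fifth successor -/
noncomputable def s5 (n : M) : M := suc (suc (suc (suc (suc n))))

instance o1_dfun {ι : Type} : DFun (fun _ : ι → M => (o1 : M)) := by unfold o1; infer_instance
instance o2_dfun {ι : Type} : DFun (fun _ : ι → M => (o2 : M)) := by unfold o2; infer_instance
instance o3_dfun {ι : Type} : DFun (fun _ : ι → M => (o3 : M)) := by unfold o3; infer_instance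
instance o4_dfun {ι : Type} : DFun (fun _ : ι → M => (o4 : M)) := by unfold o4; infer_instance
instance s5_dfun {ι : Type} (t : (ι → M) → M) [DFun t] : DFun (fun v => s5 (t v)) := by unfold s5; infer_instance

/-- The ordinal `b` is inaccessible in the ground model. -/
def IcM (jf b : M) : Prop := Jn jf o3 b b b = ∅

instance icM_dfn {ι : Type} (t s : (ι → M) → M) [DFun t] [DFun s] : Dfn (fun v => IcM (t v) (s v)) := by
  unfold IcM; infer_instance

/-- The properties of the model used for the upper bound. `Cn cf n b` is `F(b)⁺ⁿ` where `F(b)` is the cardinal `2^b` of the ground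
model if `b` is inaccessible there (`IcM jf b`); `app mf (suc n)` is `(2^k)⁺ⁿ` of the ground model; `Jn jf (s5 n) b y` is an injection of
the ordinals `≤ y` to `Cn cf n b`, for `y < Cn cf (suc n) b`; `{x ∈ b | Jn jf ∅ b i x = ∅}`, `i ∈ Cn cf ∅ b`, are the subsets of the
inaccessible `b` in the ground model; `{x ∈ k | Cn kf j x = ∅}`, `j ∈ app mf (suc ∅)`, are the subsets of `k` in the ground model. -/
structure UI (k l cf jf mf kf : M) : Prop where
  reg : Reg k
  ordl : IsOrd l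
  mu0 : app mf ∅ = k
  mu_mem : ∀ n, n ∈ (omega : M) → app mf n ∈ app mf (suc n)
  mu_l : ∀ n, n ∈ (omega : M) → app mf n ∈ l
  mu_cof : ∀ x, x ∈ l → ∃ n, n ∈ (omega : M) ∧ x ∈ app mf n
  c_mem : ∀ n b, n ∈ (omega : M) → b ∈ k → Cn cf n b ∈ k
  j_mem : ∀ n b y f, n ∈ (omega : M) → b ∈ k → y ∈ k → f ∈ k → Jn jf n b y f ∈ k
  j_c : ∀ n b y f, n ∈ (omega : M) → b ∈ k → y ∈ Cn cf (suc n) b → f ∈ suc y →
    Jn jf (s5 n) b y f ∈ Cn cf n b
  j_inj : ∀ n b y f f', n ∈ (omega : M) → b ∈ k → y ∈ Cn cf (suc n) b → f ∈ suc y → f' ∈ suc y →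
    Jn jf (s5 n) b y f = Jn jf (s5 n) b y f' → f = f'
  card1 : ∀ n, n ∈ (omega : M) → ¬ Img (app mf n) (app mf (suc n))
  card2 : ∀ n δ, n ∈ (omega : M) → δ ∈ app mf (suc (suc n)) → Img (app mf (suc n)) δ
  pn : ∀ n, n ∈ (omega : M) → Img (app mf n) (prod (app mf n) (app mf n))
  pl : Img l (prod l l)
  pw : ∀ b, b ∈ k → ∃ n, n ∈ (omega : M) ∧ Img (Cn cf n b) (pow b)
  e_d : ∀ b i i', b ∈ k → IcM jf b → i ∈ Cn cf ∅ b → i' ∈ Cn cf ∅ b → i ≠ i' →
    Jn jf o4 b i i' ∈ b ∧ ¬ (Jn jf ∅ b i (Jn jf o4 b i i') = ∅ ↔ Jn jf ∅ b i' (Jn jf o4 b i i') = ∅)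
  ap : ∀ X, X ⊆ k → (∀ b, b ∈ k → ∃ b' i, b' ∈ k ∧ i ∈ k ∧ ∀ x, x ∈ b → (x ∈ X ↔ Jn jf ∅ b' i x = ∅)) →
    ∃ j, j ∈ app mf (suc ∅) ∧ ∀ x, x ∈ k → (x ∈ X ↔ Cn kf j x = ∅)
  h_lt : ∀ b, b ∈ k → b ≠ ∅ → ¬ IcM jf b → Jn jf o2 b b b ∈ b
  h_v : ∀ b ξ, b ∈ k → b ≠ ∅ → ¬ IcM jf b → ξ ∈ k → Jn jf o1 b ξ ξ ∈ b
  h_s : ∀ μ, μ ∈ k → ∃ β, β ∈ k ∧ ∀ b, b ∈ k → ¬ IcM jf b → Jn jf o2 b b b = μ →
    ∀ x, x ∈ b → ∃ ξ, ξ ∈ β ∧ x ∈ suc (Jn jf o1 b ξ ξ)

/-- A set `Φ` of functions from `k` to `k` such that `A` is not split by the sets `{a | f a ∈ h a}` and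
`{a | f a = h a}`, with the closure properties used in the proof; `z b` is a surjection onto the power set of `b`,
`mb b` is the index of its domain, and `X j`, `j ∈ l`, are subsets of `k`. -/
structure Clo (k l cf jf Φ mb z X : M) : Prop where
  fn : ∀ f, f ∈ Φ → ∀ a, a ∈ k → app f a ∈ k
  cst : ∀ δ, δ ∈ k → ∃ f, f ∈ Φ ∧ ∀ a, a ∈ k → app f a = δ
  idn : ∃ f, f ∈ Φ ∧ ∀ a, a ∈ k → app f a = a
  jcl : ∀ n h y f, n ∈ (omega : M) → h ∈ Φ → y ∈ Φ → f ∈ Φ →
    ∃ f', f' ∈ Φ ∧ ∀ a, a ∈ k → app f' a = Jn jf n (app h a) (app y a) (app f a)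
  mcl : ∀ f, f ∈ Φ → ∃ f', f' ∈ Φ ∧ ∀ a, a ∈ k → app f' a = app mb (app f a)
  ecl : ∀ j f, j ∈ l → f ∈ Φ → ∃ f', f' ∈ Φ ∧ ∀ a, a ∈ k →
    app f' a = mu (fun i => i ∈ Cn cf (app mb (app f a)) (app f a) ∧
      app (app z (app f a)) i = inter (app X j) (app f a))

/-- The data `mb`, `z` for the power sets. -/
structure PwD (k cf mb z : M) : Prop where
  mb_mem : ∀ b, b ∈ k → app mb b ∈ (omega : M)
  sur : ∀ b, b ∈ k → ∀ Y, Y ∈ pow b → ∃ i, i ∈ Cn cf (app mb b) b ∧ app (app z b) i = Y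

/-- `A` is not split by the sets defined from the functions in `Φ`. -/
structure Dcd (k Φ A : M) : Prop where
  unb : Unb k A
  mem : ∀ f h, f ∈ Φ → h ∈ Φ → Ev k A (fun a => app f a ∈ app h a) ∨ Ev k A (fun a => app f a ∉ app h a)
  eq : ∀ f h, f ∈ Φ → h ∈ Φ → Ev k A (fun a => app f a = app h a) ∨ Ev k A (fun a => app f a ≠ app h a)

/-- `g` is the least element of `Φ` which is not bounded on `A`. -/
structure Gl (k Φ A g : M) : Prop where
  mem : g ∈ Φ
  unb : ∀ β, β ∈ k → ¬ Ev k A (fun a => app g a ∈ β)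
  least : ∀ f, f ∈ Φ → Ev k A (fun a => app f a ∈ app g a) → ∃ β, β ∈ k ∧ Ev k A (fun a => app f a ∈ β)

end Pool.Agent.SplH
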