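import Pool.Agent.SplH.T2

set_option autoImplicit false
set_option linter.all false

/-!
# T3 (2): functions of the ground model in the model

`exists_fn4`: `f = vl G h.fn.rg` (range of the family of names `f4N F`, Lav/MLev2 `rgNm`, `mem_rg`, `rel_rg` with `s x = opN (opN ..) (opN ..)`, `t x = ck Q (F ..)`; `InN N` by `inN_op`, `LEnv.ckn`,
`h.pr`, `h.cl`). `vl G (opN τ σ) = opair (vl G τ) (vl G σ)`: `op_pair` (Lav/AC) and `pair_iff` (SCBridge) (the model is `mdl ..` = the instance `envModel`). So the pair of `opair (opair (lv a) (lv b)) (opair (lv c) (lv d))` and `y` belongs to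
`f` iff `y = lv (F a b c d)` (`→`: the index `x` has the same four entries by `opair_inj`, `lv_inj`); then `app_eq`.
`exists_fn2`: `lam (prod (ll G N L) (ll G N L)) (fun p => app f (opair p p))`; `exists_fn1`: `lam (ll G N L) (fun x => app f (opair (opair x x) (opair x x)))`.
-/

namespace Pool.Agent.SplH

open FirstOrder FirstOrder.Language Pool.Agent.H55.SC Pool.Agent.H55.ZFU Pool.Agent.H55.Lav

variable {Q : Type} [Preorder Q] [OrderTop Q] {L : Type} [LinearOrder L] [WellFoundedLT L]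
variable {N : Set (Un Q)} {G : Set Q} [Env N G] [LEnv N L]

theorem t3_op {τ σ : Nm Q} (hτ : InN N τ) (hσ : InN N σ) :
    vl G (inN_op (Env.zok (N := N) (G := G)) hτ hσ) = opair (vl G hτ) (vl G hσ) :=
  pair_iff.1 (op_pair (Env.ok (N := N) (G := G)) (Env.zok (N := N) (G := G)) (Env.gen (N := N) (G := G)) hτ hσ)

theorem t3_f4 {F : L → L → L → L → L} (h : F4Ok N F) (x : L × L × L × L) (hx : InT N x) :
    vl G (h.fn.fn x hx) = opair (opair (opair (lv G ⟨x.1, (h.pr x hx).1⟩) (lv G ⟨x.2.1, (h.pr x hx).2.1⟩))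
      (opair (lv G ⟨x.2.2.1, (h.pr x hx).2.2.1⟩) (lv G ⟨x.2.2.2, (h.pr x hx).2.2.2⟩)))
      (lv G ⟨F x.1 x.2.1 x.2.2.1 x.2.2.2, h.cl _ _ _ _ (h.pr x hx).1 (h.pr x hx).2.1 (h.pr x hx).2.2.1 (h.pr x hx).2.2.2⟩) := by
  have zok := Env.zok (N := N) (G := G)
  have i1 := LEnv.ckn (N := N) x.1 (h.pr x hx).1
  have i2 := LEnv.ckn (N := N) x.2.1 (h.pr x hx).2.1
  have i3 := LEnv.ckn (N := N) x.2.2.1 (h.pr x hx).2.2.1
  have i4 := LEnv.ckn (N := N) x.2.2.2 (h.pr x hx).2.2.2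
  have i5 := LEnv.ckn (N := N) _ (h.cl _ _ _ _ (h.pr x hx).1 (h.pr x hx).2.1 (h.pr x hx).2.2.1 (h.pr x hx).2.2.2)
  have e1 := t3_op (G := G) i1 i2
  have e2 := t3_op (G := G) i3 i4
  have e3 := t3_op (G := G) (inN_op zok i1 i2) (inN_op zok i3 i4)
  have e4 := t3_op (G := G) (inN_op zok (inN_op zok i1 i2) (inN_op zok i3 i4)) i5
  rw [e1, e2] at e3
  rw [e3] at e4
  exact e4

theorem exists_fn4 {F : L → L → L → L → L} (h : F4Ok N F) : ∃ f : MM N G, ∀ a b c d : LN N L,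
    app f (opair (opair (lv G a) (lv G b)) (opair (lv G c) (lv G d))) =
      lv G ⟨F a.1 b.1 c.1 d.1, h.cl a.1 b.1 c.1 d.1 a.2 b.2 c.2 d.2⟩ := by
  have htop : (⊤ : Q) ∈ G := top_mem (Env.ok (N := N) (G := G)) (Env.gen (N := N) (G := G))
  refine ⟨vl G h.fn.rg, fun a b c d => ?_⟩
  have hmem : ∀ z : MM N G, z ∈ vl G h.fn.rg ↔ ∃ x, ∃ hx : InT N x, z = vl G (h.fn.fn x hx) :=
    fun z => mem_rg htop h.fn
  have hin : opair (opair (opair (lv G a) (lv G b)) (opair (lv G c) (lv G d)))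
      (lv G ⟨F a.1 b.1 c.1 d.1, h.cl a.1 b.1 c.1 d.1 a.2 b.2 c.2 d.2⟩) ∈ vl G h.fn.rg := by
    rw [hmem]
    have hx : InT N (a.1, b.1, c.1, d.1) := h.tup _ _ _ _ a.2 b.2 c.2 d.2
    exact ⟨(a.1, b.1, c.1, d.1), hx, (t3_f4 (G := G) h (a.1, b.1, c.1, d.1) hx).symm⟩
  refine app_eq ⟨_, hin, ?_⟩ hin
  intro y hy
  obtain ⟨x, hx, he⟩ := (hmem _).1 hy
  rw [t3_f4 h x hx, opair_inj, opair_inj, opair_inj, opair_inj] at he
  obtain ⟨⟨⟨h1, h2⟩, h3, h4⟩, h5⟩ := he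
  have k1 : a.1 = x.1 := congrArg Subtype.val (lv_inj h1)
  have k2 : b.1 = x.2.1 := congrArg Subtype.val (lv_inj h2)
  have k3 : c.1 = x.2.2.1 := congrArg Subtype.val (lv_inj h3)
  have k4 : d.1 = x.2.2.2 := congrArg Subtype.val (lv_inj h4)
  rw [h5]
  congr 1
  apply Subtype.ext
  change F x.1 x.2.1 x.2.2.1 x.2.2.2 = F a.1 b.1 c.1 d.1
  rw [k1, k2, k3, k4]

theorem exists_fn2 {F : L → L → L} (h : F4Ok N (fun a b _ _ => F a b)) : ∃ f : MM N G, ∀ a b : LN N L,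
    app f (opair (lv G a) (lv G b)) = lv G ⟨F a.1 b.1, h.cl a.1 b.1 a.1 a.1 a.2 b.2 a.2 a.2⟩ := by
  obtain ⟨f, hf⟩ := exists_fn4 (G := G) h
  refine ⟨lam (prod (ll G N L) (ll G N L)) (fun p => app f (opair p p)), fun a b => ?_⟩
  have hmem : opair (lv G a) (lv G b) ∈ prod (ll G N L) (ll G N L) :=
    opair_mem_prod.2 ⟨mem_ll.2 ⟨a, rfl⟩, mem_ll.2 ⟨b, rfl⟩⟩
  rw [app_lam hmem]
  exact hf a b a b

theorem exists_fn1 {F : L → L} (h : F4Ok N (fun a _ _ _ => F a)) : ∃ f : MM N G, ∀ a : LN N L,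
    app f (lv G a) = lv G ⟨F a.1, h.cl a.1 a.1 a.1 a.1 a.2 a.2 a.2 a.2⟩ := by
  obtain ⟨f, hf⟩ := exists_fn4 (G := G) h
  refine ⟨lam (ll G N L) (fun x => app f (opair (opair x x) (opair x x))), fun a => ?_⟩
  have hmem : lv G a ∈ ll G N L := mem_ll.2 ⟨a, rfl⟩
  rw [app_lam hmem]
  exact hf a a a a

end Pool.Agent.SplH
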