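import Pool.Agent.SplH.T2

set_option autoImplicit false
set_option linter.all false

/-!
# T4: names of sets and families of subsets of `L`; decoding
-/

namespace Pool.Agent.SplH

open FirstOrder FirstOrder.Language Pool.Agent.H55.SC Pool.Agent.H55.ZFU Pool.Agent.H55.Lav

variable {Q : Type} [Preorder Q] [OrderTop Q] {L : Type} [LinearOrder L] [WellFoundedLT L]
variable {N : Set (Un Q)} {G : Set Q} [Env N G] [LEnv N L]

theorem dec2 (R : MM N G → MM N G → Prop) [Dfn2 R] : ∃ S : L → L → Set Q, InT N S ∧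
    ∀ i j : LN N L, R (lv G i) (lv G j) ↔ Ht G (S i.1 j.1) := by
  have he : Env N G := inferInstance
  have hR : Dfn2 R := inferInstance
  obtain ⟨m, ψ, σ, hσ, h⟩ := decode he.ok he.fok he.gen hR.out
  refine ⟨_, LEnv.d2 ψ σ hσ, fun i j => ?_⟩
  have hv : ∀ t, InN N ((![ck Q i.1, ck Q j.1] : Fin 2 → Nm Q) t) := by
    intro t
    fin_cases t
    · exact LEnv.ckn i.1 i.2
    · exact LEnv.ckn j.1 j.2
  exact h ![ck Q i.1, ck Q j.1] hv

theorem dec1 (R : MM N G → Prop) [Dfn1 R] : ∃ S : L → Set Q, InT N S ∧ ∀ i : LN N L, R (lv G i) ↔ Ht G (S i.1) := by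
  have he : Env N G := inferInstance
  have hR : Dfn1 R := inferInstance
  obtain ⟨m, ψ, σ, hσ, h⟩ := decode he.ok he.fok he.gen hR.out
  refine ⟨_, LEnv.d1 ψ σ hσ, fun i => ?_⟩
  exact h (fun _ => ck Q i.1) (fun _ => LEnv.ckn i.1 i.2)

theorem t4_mem_sb {A : L → Set Q} (hA : InN N (sbN A)) (x : MM N G) :
    x ∈ (vl G hA : MM N G) ↔ ∃ i : LN N L, x = lv G i ∧ Ht G (A i.1) := by
  constructor
  · intro h
    obtain ⟨⟨i, q, hq⟩, h1, h2, h3⟩ := mem_val.mp h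
    exact ⟨⟨i, LEnv.ckw i h1⟩, Subtype.ext h3.symm, q, h2, hq⟩
  · rintro ⟨i, rfl, q, hq, hqx⟩
    exact mem_val.mpr ⟨⟨i.1, q, hqx⟩, LEnv.ckn i.1 i.2, hq, rfl⟩

theorem exists_set {A : L → Set Q} (hA : InT N A) : ∃ a : MM N G, ∀ x, x ∈ a ↔ ∃ i : LN N L, x = lv G i ∧ Ht G (A i.1) :=
  ⟨vl G (LEnv.sb A hA), fun x => t4_mem_sb _ x⟩

theorem exists_fam {z : L → L → Set Q} (hz : InT N z) : ∃ f : MM N G, ∀ (i : LN N L) (x : MM N G),
    x ∈ app f (lv G i) ↔ ∃ j : LN N L, x = lv G j ∧ Ht G (z i.1 j.1) := by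
  have he : Env N G := inferInstance
  have hs : ∀ i : L, InT N i → InN N (ck Q i) := LEnv.ckn
  have ht : ∀ i : L, InT N i → InN N (sbN (z i)) := fun i hi => LEnv.sb (z i) (LEnv.sec z hz i hi)
  have fok' : FnOk N (fun i : L => opN (ck Q i) (sbN (z i))) := LEnv.fm z hz
  refine ⟨vl G fok'.rg, fun i x => ?_⟩
  have key : ∀ y : MM N G, opair (lv G i) y ∈ (vl G fok'.rg : MM N G) ↔ y = vl G (ht i.1 i.2) := by
    intro y
    rw [← rel_iff]
    refine (rel_rg he.ok he.fok he.zok he.gen hs ht fok').trans ⟨?_, ?_⟩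
    · rintro ⟨j, hj, h1, h2⟩
      have h3 : lv G i = lv G (⟨j, hj⟩ : LN N L) := h1
      have h4 := lv_inj h3
      subst h4
      exact h2
    · intro h
      exact ⟨i.1, i.2, rfl, h⟩
  have happ : app (vl G fok'.rg : MM N G) (lv G i) = vl G (ht i.1 i.2) :=
    app_eq ⟨vl G (ht i.1 i.2), (key _).2 rfl, fun y hy => (key y).1 hy⟩ ((key _).2 rfl)
  rw [happ]
  exact t4_mem_sb _ x

omit [LEnv N L] [LinearOrder L] [WellFoundedLT L] in
theorem ht_u {U : Set Q} (hU : InT N U) {q : Q} (hq : q ∈ G) (h : ∀ q' ≤ q, ∃ q'' ≤ q', q'' ∈ U) : ∃ q' ∈ G, q' ∈ U := by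
  have he : Env N G := inferInstance
  refine ht_of_fo he.qok he.gen hU hq (fun q' hq' => ?_)
  obtain ⟨q'', h1, h2⟩ := h q' hq'
  exact ⟨q'', h1, q'', h2, le_rfl⟩

end Pool.Agent.SplH
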