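import Pool.Agent.SplH.VDefs
import Pool.Agent.SplH.IDefs
import Pool.Agent.H55.Sig.Hz2

set_option autoImplicit false
set_option linter.all false

/-!
# MP_72b20c_lc, block C: the model `MM N G` over a wellordered type `L`

`Env N G`: the closure properties of the countable set `N` and genericity of `G`, which make `MM N G` a model of ZFC (`Model`, `Pure`, `Choice` of
Pool/Agent/H55). `LEnv N L`: closure properties for the wellordered type `L`; `lv G i` is the ordinal of the model given by `i ∈ L ∩ N`, `ll G N L` is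
the set of all of them. `F4Ok N F`: closure properties for the function `F` of the ground model. All these hold for almost all `N` (filter
`club (Un Q)` of Lav/Club).
-/

namespace Pool.Agent.SplH

open FirstOrder FirstOrder.Language Pool.Agent.H55.SC Pool.Agent.H55.ZFU Pool.Agent.H55.Lav

variable {Q : Type} [Preorder Q] [OrderTop Q]

/-- `N` has the closure properties for a model of ZFC, and `G` is generic over `N`. -/
class Env (N : Set (Un Q)) (G : Set Q) : Prop where
  ok : NOk N
  fok : FOk N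
  zok : ZOk N
  aok : AOk N
  qok : QOk N
  gen : GenF N G

section env
variable {N : Set (Un Q)} {G : Set Q} [h : Env N G]

@[reducible] noncomputable instance envModel : Model (MM N G) := mdl h.ok h.fok h.zok h.gen
instance envPure : Pool.Agent.H55.ZFU.Pure (MM N G) := zPure (zf h.ok h.fok h.zok h.gen)
instance envChoice : Pool.Agent.H55.ZFU.Choice (MM N G) := Pool.Agent.H55.Hz.choice_of (choice_ax h.ok h.fok h.zok h.aok h.gen)

omit h in
/-- Almost all `N` have the closure properties. -/
theorem env_club : ∀ᶠ N in club (Un Q), ∀ G : Set Q, GenF N G → Env N G := by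
  filter_upwards [nok_club (Q := Q), fok_club, zok_club, aok_club, qok_club] with N h1 h2 h3 h4 h5 G hG
  exact ⟨h1, h2, h3, h4, h5, hG⟩

lemma mem_ee {x y : MM N G} : x ∈ y ↔ EE x y := Iff.rfl

end env

variable {L : Type} [LinearOrder L] [WellFoundedLT L]

/-- The name of a subset of `L`. -/
def sbN (A : L → Set Q) : Nm Q := .mk (Σ a : L, {q : Q // q ∈ A a}) (fun y => ck Q y.1) (fun y => y.2.1)

/-- Closure properties of `N` for the wellordered type `L`. -/
class LEnv (N : Set (Un Q)) (L : Type) [LinearOrder L] [WellFoundedLT L] : Prop where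
  ckn : ∀ i : L, InT N i → InN N (ck Q i)
  ckw : ∀ i : L, InN N (ck Q i) → InT N i
  ckT : InN N (ckT Q L)
  iok : IOk N L
  sec : ∀ S : L → L → Set Q, InT N S → ∀ i : L, InT N i → InT N (S i)
  d2 : ∀ {m : ℕ} (ψ : Fml (m + 2)) (σ : Fin m → Nm Q), (∀ i, InN N (σ i)) →
    InT N (fun (i : L) (j : L) => {q : Q | frc ψ (Fin.append σ ![ck Q i, ck Q j]) q})
  d1 : ∀ {m : ℕ} (ψ : Fml (m + 1)) (σ : Fin m → Nm Q), (∀ i, InN N (σ i)) →
    InT N (fun (i : L) => {q : Q | frc ψ (Fin.append σ (fun _ => ck Q i)) q})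
  sb : ∀ A : L → Set Q, InT N A → InN N (sbN A)
  fm : ∀ z : L → L → Set Q, InT N z → FnOk N (fun i : L => opN (ck Q i) (sbN (z i)))

/-- The elements of `L` in `N`. -/
abbrev LN (N : Set (Un Q)) (L : Type) : Type := {i : L // InT N i}

/-- The ordinal of the model given by an element of `L ∩ N`. -/
noncomputable def lv (G : Set Q) {N : Set (Un Q)} [LEnv N L] (i : LN N L) : MM N G := vl G (LEnv.ckn i.1 i.2)

/-- The ordinal of the model given by `L`. -/
noncomputable def ll (G : Set Q) (N : Set (Un Q)) (L : Type) [LinearOrder L] [WellFoundedLT L] [LEnv N L] : MM N G :=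
  vl G (LEnv.ckT (N := N) (L := L))

/-- The name of the pair of `(a, b)`, `(c, d)` and the value of `F`. -/
def f4N (F : L → L → L → L → L) (x : L × L × L × L) : Nm Q :=
  opN (opN (opN (ck Q x.1) (ck Q x.2.1)) (opN (ck Q x.2.2.1) (ck Q x.2.2.2))) (ck Q (F x.1 x.2.1 x.2.2.1 x.2.2.2))

/-- Closure properties of `N` for a function of the ground model. -/
structure F4Ok (N : Set (Un Q)) (F : L → L → L → L → L) : Prop where
  cl : ∀ a b c d, InT N a → InT N b → InT N c → InT N d → InT N (F a b c d)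
  tup : ∀ a b c d : L, InT N a → InT N b → InT N c → InT N d → InT N (a, b, c, d)
  pr : ∀ x : L × L × L × L, InT N x → InT N x.1 ∧ InT N x.2.1 ∧ InT N x.2.2.1 ∧ InT N x.2.2.2
  fn : FnOk N (f4N (Q := Q) F)

/-- Closure properties of `N` for the data of the ground model. -/
class DEnv (N : Set (Un Q)) (D : VDat L) : Prop where
  nL : ∀ n : ℕ, InT N (D.nL n)
  om : InT N D.om
  mu : F4Ok N (fun a _ _ _ => D.mu a)
  c : F4Ok N (fun a b _ _ => D.c a b)
  J : F4Ok N (fun a b c d => D.J a b c d)
  s : F4Ok N (fun a b c _ => D.s a b c)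
  p : F4Ok N (fun a b _ _ => D.p a b)
  q : F4Ok N (fun a b _ _ => D.q a b)
  pL : F4Ok N (fun a _ _ _ => D.pL a)
  qL : F4Ok N (fun a _ _ _ => D.qL a)
  eK : F4Ok N (fun a b _ _ => D.eK a b)
  be : F4Ok N (fun a _ _ _ => D.be a)

section denv
variable {N : Set (Un Q)} (D : VDat L) [DEnv N D]

/-- `n` -/
def VDat.nN (n : ℕ) : LN N L := ⟨D.nL n, DEnv.nL n⟩
/-- `ω` -/
def VDat.omN : LN N L := ⟨D.om, DEnv.om⟩
/-- the function `mu` -/
def VDat.muN (a : LN N L) : LN N L := ⟨D.mu a.1, (DEnv.mu (N := N) (D := D)).cl a.1 a.1 a.1 a.1 a.2 a.2 a.2 a.2⟩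
/-- the function `c` -/
def VDat.cN (a b : LN N L) : LN N L := ⟨D.c a.1 b.1, (DEnv.c (N := N) (D := D)).cl a.1 b.1 a.1 a.1 a.2 b.2 a.2 a.2⟩
/-- `κ` -/
def VDat.kN : LN N L := D.muN (D.nN (N := N) 0)

end denv

end Pool.Agent.SplH
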