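import Pool.Agent.SplH.VDefs
import Pool.Agent.SplC.V2
import Pool.Agent.SplC.V4

set_option autoImplicit false
set_option linter.all false

/-!
# The type of the ordinals below `(2^κ)⁺ω`, without the generalized continuum hypothesis
-/

namespace Pool.Agent.SplH

open Cardinal Pool.Agent.SplK Pool.Agent.H55.Lav
open Pool.Agent.SplC (LOrd lord_lt lord_card lord_n lord_elt lord_le v2_J v2_s v2_p v2_L v2_inf v2_card v2_small)

/-- the cardinals `κ`, `2^κ`, `(2^κ)⁺`, ... -/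
noncomputable def mc (κ : Cardinal.{0}) : ℕ → Cardinal.{0}
  | 0 => κ
  | n + 1 => pl (2 ^ κ) n

theorem mc_zero (κ : Cardinal.{0}) : mc κ 0 = κ := rfl
theorem mc_succ (κ : Cardinal.{0}) (n : ℕ) : mc κ (n + 1) = pl (2 ^ κ) n := rfl

theorem le_plc (c : Cardinal.{0}) (n : ℕ) : c ≤ pl c n := by
  induction n with
  | zero => exact le_rfl
  | succ n ih => rw [pl_succ]; exact ih.trans (Order.le_succ _)

theorem pl_mono {c d : Cardinal.{0}} (h : c ≤ d) (n : ℕ) : pl c n ≤ pl d n := by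
  induction n with
  | zero => exact h
  | succ n ih => rw [pl_succ, pl_succ]; exact Order.succ_le_succ ih

theorem mc_lt (κ : Cardinal.{0}) (n : ℕ) : mc κ n < mc κ (n + 1) := by
  cases n with
  | zero => rw [mc_zero, mc_succ, pl_zero]; exact Cardinal.cantor κ
  | succ n => rw [mc_succ, mc_succ, pl_succ]; exact Order.lt_succ _

theorem mc_le (κ : Cardinal.{0}) (n : ℕ) : mc κ n ≤ pl (2 ^ κ) n := (mc_lt κ n).le

theorem mc_inf {κ : Cardinal.{0}} (h : ℵ₀ ≤ κ) (n : ℕ) : κ ≤ mc κ n := by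
  induction n with
  | zero => exact le_rfl
  | succ n ih => exact ih.trans (mc_lt κ n).le

theorem exists_e' {K : Type} [LinearOrder K] (hK : Inac K) {L : Type} [LinearOrder L] {o : L → Ordinal.{0}}
    {μ : Cardinal.{0}} (h : LOrd L o μ) (hμ : #K ≤ μ) :
    ∃ e : K → L, StrictMono e ∧ (∀ x, (∃ a, e a = x) ↔ o x < (#K).ord) ∧
      ∀ a, (o (e a)).card = #(Set.Iio a) := by
  haveI := hK.wf
  have hcard : ∀ a : K, (Ordinal.typein (α := K) (· < ·) a).card = #(Set.Iio a) := fun a =>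
    Ordinal.card_typein (r := ((· < ·) : K → K → Prop)) a
  have hlt : ∀ a : K, Ordinal.typein (α := K) (· < ·) a < (#K).ord := by
    intro a
    rw [Cardinal.lt_ord, hcard a]
    exact hK.seg a
  obtain ⟨x0, hx0⟩ := lord_elt h (c := #K) (n := 0) (by rw [pl_zero]; exact hμ)
  have hex : ∀ a : K, ∃ y, o y = Ordinal.typein (α := K) (· < ·) a := fun a =>
    lord_le h (x := x0) (by rw [hx0]; exact (hlt a).le)
  choose e he using hex
  refine ⟨e, ?_, ?_, ?_⟩
  · intro a b hab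
    rw [← lord_lt h, he, he]
    exact (Ordinal.typein_lt_typein (α := K) (· < ·)).2 hab
  · intro x
    constructor
    · rintro ⟨a, rfl⟩
      rw [he]
      exact hlt a
    · intro hx
      obtain ⟨a, ha⟩ := Ordinal.typein_surj (α := K) (· < ·) (hx.trans_le (Cardinal.ord_le_type (α := K) (· < ·)))
      refine ⟨a, h.mono.injective ?_⟩
      rw [he, ha]
  · intro a
    rw [he, hcard a]

/-- a cardinal below the size of a proper initial segment is the size of a smaller initial segment -/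
theorem exists_iio {K : Type} [LinearOrder K] [WellFoundedLT K] {b : K} {c : Cardinal.{0}} (hc : c < #(Set.Iio b)) :
    ∃ μ < b, #(Set.Iio μ) = c := by
  have hcard : ∀ a : K, (Ordinal.typein (α := K) (· < ·) a).card = #(Set.Iio a) := fun a =>
    Ordinal.card_typein (r := ((· < ·) : K → K → Prop)) a
  have h1 : c.ord < Ordinal.typein (α := K) (· < ·) b := by
    by_contra h
    have h2 := Ordinal.card_le_card (not_lt.1 h)
    rw [hcard, Cardinal.card_ord] at h2
    exact absurd hc (not_lt.2 h2)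
  obtain ⟨μ, hμ⟩ := Ordinal.typein_surj (α := K) (· < ·) (h1.trans (Ordinal.typein_lt_type (α := K) (· < ·) b))
  refine ⟨μ, ?_, ?_⟩
  · rw [← Ordinal.typein_lt_typein (α := K) (· < ·), hμ]
    exact h1
  · rw [← hcard, hμ, Cardinal.card_ord]

/-- the elements with an initial segment which is not inaccessible -/
theorem v_sing {K : Type} [LinearOrder K] [WellFoundedLT K] {b : K} (h0 : ∃ a, a < b) (hb : ¬ Inac (Set.Iio b)) :
    ∃ μ < b, ∃ S : Set K, (∀ s ∈ S, s < b) ∧ #S ≤ 2 ^ (max ℵ₀ #(Set.Iio μ)) ∧ ∀ x < b, ∃ s ∈ S, x ≤ s := by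
  have hle : ∀ c : Cardinal.{0}, c ≤ 2 ^ c := fun c => (Cardinal.cantor c).le
  obtain ⟨a0, ha0⟩ := h0
  by_cases h1 : #(Set.Iio b) ≤ ℵ₀
  · exact ⟨a0, ha0, Set.Iio b, fun s hs => hs, h1.trans ((le_max_left _ _).trans (hle _)), fun x hx => ⟨x, hx, le_rfl⟩⟩
  by_cases h2 : ∃ a < b, #(Set.Iio b) ≤ 2 ^ (max ℵ₀ #(Set.Iio a))
  · obtain ⟨a, ha, h⟩ := h2
    exact ⟨a, ha, Set.Iio b, fun s hs => hs, h, fun x hx => ⟨x, hx, le_rfl⟩⟩
  push Not at h2
  have hsub : ∀ a : Set.Iio b, #(Set.Iio a) ≤ #(Set.Iio a.1) := fun a =>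
    Cardinal.mk_le_of_injective (f := fun x : Set.Iio a => (⟨x.1.1, x.2⟩ : Set.Iio a.1)) (fun x y h => by
      have h3 : x.1.1 = y.1.1 := congrArg (fun z : Set.Iio a.1 => z.1) h
      exact Subtype.ext (Subtype.ext h3))
  have h3 : ∃ S : Set (Set.Iio b), #S < #(Set.Iio b) ∧ ∀ c : Set.Iio b, ∃ a ∈ S, c ≤ a := by
    by_contra hcon
    push Not at hcon
    apply hb
    refine ⟨inferInstance, not_le.1 h1, fun a => ?_, fun S hS => ?_, fun a => ?_⟩
    · exact ((hsub a).trans ((le_max_right _ _).trans (hle _))).trans_lt (h2 a.1 a.2)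
    · obtain ⟨c, hc⟩ := hcon S hS
      exact ⟨c, hc⟩
    · exact (Cardinal.power_le_power_left two_ne_zero ((hsub a).trans (le_max_right _ _))).trans_lt (h2 a.1 a.2)
  obtain ⟨S, hS, hS'⟩ := h3
  obtain ⟨μ, hμ, hμ'⟩ := exists_iio hS
  refine ⟨μ, hμ, Subtype.val '' S, ?_, ?_, ?_⟩
  · rintro _ ⟨s, _, rfl⟩
    exact s.2
  · refine Cardinal.mk_image_le.trans ?_
    rw [← hμ']
    exact (le_max_right _ _).trans (hle _)
  · intro x hx
    obtain ⟨s, hs, h⟩ := hS' ⟨x, hx⟩
    exact ⟨s.1, ⟨s, hs, rfl⟩, h⟩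

end Pool.Agent.SplH
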