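import Pool.Agent.SplH.V1

set_option autoImplicit false
set_option linter.all false

/-!
# Functions on `L`, without the generalized continuum hypothesis
-/

namespace Pool.Agent.SplH

open Cardinal Pool.Agent.SplK Pool.Agent.H55.Lav
open Pool.Agent.SplC (LOrd lord_lt lord_card lord_n lord_elt lord_le v2_J v2_s v2_p v2_L v2_inf v2_card v2_small)

/-- the element `b` represents an element of `K` with an inaccessible initial segment -/
def IcL {K L : Type} [LinearOrder K] [LinearOrder L] (e : K → L) (b : L) : Prop := ∃ a, e a = b ∧ Inac (Set.Iio a)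

/-- the ground model functions for the elements which are not inaccessible -/
theorem vh {K : Type} [LinearOrder K] (hK : Inac K) {L : Type} [LinearOrder L] {o : L → Ordinal.{0}}
    (h : LOrd L o (2 ^ #K)) {e : K → L} (he : StrictMono e) (hr : ∀ x, (∃ a, e a = x) ↔ o x < (#K).ord)
    (hc : ∀ a, (o (e a)).card = #(Set.Iio a)) {k n0 : L} (hk : o k = (#K).ord) (hn0 : o n0 = 0) :
    ∃ be : L → L, (∀ x, be x < k) ∧ ∀ b, n0 < b → b < k → ¬ IcL e b → ∃ μ < b, ∃ g : L → L, (∀ ξ, g ξ < b) ∧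
      ∀ x < b, ∃ ξ < be μ, x ≤ g ξ := by
  classical
  haveI := hK.wf
  have hlt : ∀ {x y : L}, o x < o y ↔ x < y := fun {x y} => lord_lt h
  have hkr : ∀ x, (∃ a, e a = x) ↔ x < k := fun x => by rw [hr, ← hk, hlt]
  have hlim : ∀ a : K, 2 ^ (max ℵ₀ #(Set.Iio a)) < #K := by
    intro a
    have h1 : max ℵ₀ #(Set.Iio a) < #K := max_lt hK.unc (hK.seg a)
    obtain ⟨S, hS⟩ := (Cardinal.le_mk_iff_exists_set (c := max ℵ₀ #(Set.Iio a))).mp h1.le
    obtain ⟨b, hb⟩ := hK.reg S (by rw [hS]; exact h1)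
    have h2 : max ℵ₀ #(Set.Iio a) ≤ #(Set.Iio b) := by
      rw [← hS]
      exact Cardinal.mk_le_mk_of_subset (fun a ha => hb a ha)
    exact (Cardinal.power_le_power_left two_ne_zero h2).trans_lt (hK.lim b)
  have hbex : ∀ a : K, ∃ y, o y = (2 ^ (max ℵ₀ #(Set.Iio a)) : Cardinal.{0}).ord ∧ y < k := by
    intro a
    obtain ⟨y, hy⟩ := lord_le h (x := k) (α := (2 ^ (max ℵ₀ #(Set.Iio a)) : Cardinal.{0}).ord) (by
      rw [hk]
      exact (Cardinal.ord_lt_ord.2 (hlim a)).le)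
    refine ⟨y, hy, ?_⟩
    rw [← hlt, hy, hk]
    exact Cardinal.ord_lt_ord.2 (hlim a)
  choose bb hbb1 hbb2 using hbex
  have hkpos : n0 < k := by
    rw [← hlt, hn0, hk, pos_iff_ne_zero]
    intro h0
    have h1 := congrArg Ordinal.card h0
    rw [Cardinal.card_ord, Ordinal.card_zero] at h1
    exact (Cardinal.aleph0_pos.trans hK.unc).ne' h1
  obtain ⟨be, hbe⟩ : ∃ be : L → L, be = fun x => if hx : ∃ a, e a = x then bb hx.choose else n0 := ⟨_, rfl⟩
  have hbe1 : ∀ a, be (e a) = bb a := by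
    intro a
    have hx : ∃ a', e a' = e a := ⟨a, rfl⟩
    rw [hbe]
    simp only [dif_pos hx]
    rw [he.injective hx.choose_spec]
  refine ⟨be, fun x => ?_, fun b hb0 hbk hnI => ?_⟩
  · by_cases hx : ∃ a, e a = x
    · obtain ⟨a, rfl⟩ := hx
      rw [hbe1]
      exact hbb2 a
    · rw [hbe]
      simp only [dif_neg hx]
      exact hkpos
  obtain ⟨b', rfl⟩ := (hkr b).2 hbk
  obtain ⟨a0, ha0⟩ := (hkr n0).2 hkpos
  have h1 : ¬ Inac (Set.Iio b') := fun h2 => hnI ⟨b', rfl, h2⟩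
  obtain ⟨μ, hμ, S, hS1, hS2, hS3⟩ := v_sing ⟨a0, he.lt_iff_lt.1 (by rw [ha0]; exact hb0)⟩ h1
  obtain ⟨s0, hs0, _⟩ := hS3 μ hμ
  have h4 : #(Set.Iio (be (e μ))) = 2 ^ (max ℵ₀ #(Set.Iio μ)) := by
    rw [hbe1, lord_card h, hbb1, Cardinal.card_ord]
  have h5 : #S ≤ #(Set.Iio (be (e μ))) := by rw [h4]; exact hS2
  obtain ⟨i⟩ := (Cardinal.le_def _ _).1 h5
  refine ⟨e μ, he hμ, fun x => if hx : ∃ s : S, (i s).1 = x then e hx.choose.1 else e s0, ?_, ?_⟩
  · intro ξ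
    by_cases hx : ∃ s : S, (i s).1 = ξ
    · simp only [dif_pos hx]
      exact he (hS1 _ hx.choose.2)
    · simp only [dif_neg hx]
      exact he (hS1 _ hs0)
  · intro x hx
    obtain ⟨x', rfl⟩ := (hkr x).2 (hx.trans hbk)
    obtain ⟨s, hs, hxs⟩ := hS3 x' (he.lt_iff_lt.1 hx)
    refine ⟨(i ⟨s, hs⟩).1, (i ⟨s, hs⟩).2, ?_⟩
    have hex : ∃ s' : S, (i s').1 = (i ⟨s, hs⟩).1 := ⟨⟨s, hs⟩, rfl⟩
    simp only [dif_pos hex]
    have h6 := i.injective (Subtype.ext hex.choose_spec)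
    rw [h6]
    exact he.le_iff_le.2 hxs

/-- the subsets of an inaccessible element -/
theorem ve {L : Type} [LinearOrder L] {b z : L} (h : #(Set.Iio z) = 2 ^ #(Set.Iio b)) :
    ∃ E : L → Set L, (∀ i, i < z → ∀ i', i' < z → i ≠ i' → ∃ x < b, ¬ (x ∈ E i ↔ x ∈ E i')) ∧
      ∀ X : Set L, ∃ i < z, ∀ x < b, (x ∈ X ↔ x ∈ E i) := by
  classical
  have h1 : #(Set.Iio z) = #(Set (Set.Iio b)) := by rw [h, Cardinal.mk_set]
  obtain ⟨φ⟩ := Cardinal.eq.1 h1
  refine ⟨fun i => if hi : i < z then Subtype.val '' (φ ⟨i, hi⟩) else ∅, ?_, ?_⟩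
  · intro i hi i' hi' hne
    by_contra hcon
    push Not at hcon
    apply hne
    have h2 : φ ⟨i, hi⟩ = φ ⟨i', hi'⟩ := by
      ext ⟨x, hx⟩
      have h3 := hcon x hx
      simp only [dif_pos hi, dif_pos hi'] at h3
      constructor
      · intro h4
        obtain ⟨y, hy, hyx⟩ := h3.1 ⟨⟨x, hx⟩, h4, rfl⟩
        have h5 : y = ⟨x, hx⟩ := Subtype.ext hyx
        rw [← h5]
        exact hy
      · intro h4
        obtain ⟨y, hy, hyx⟩ := h3.2 ⟨⟨x, hx⟩, h4, rfl⟩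
        have h5 : y = ⟨x, hx⟩ := Subtype.ext hyx
        rw [← h5]
        exact hy
    have h4 := φ.injective h2
    exact congrArg Subtype.val h4
  · intro X
    refine ⟨(φ.symm {x | x.1 ∈ X}).1, (φ.symm {x | x.1 ∈ X}).2, fun x hx => ?_⟩
    have hi : (φ.symm {x | x.1 ∈ X}).1 < z := (φ.symm {x | x.1 ∈ X}).2
    simp only [dif_pos hi]
    have h2 : φ ⟨(φ.symm {x | x.1 ∈ X}).1, hi⟩ = {x | x.1 ∈ X} := φ.apply_symm_apply _
    rw [h2]
    constructor
    · intro h3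
      exact ⟨⟨x, hx⟩, h3, rfl⟩
    · rintro ⟨y, hy, rfl⟩
      exact hy

end Pool.Agent.SplH
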