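import Pool.Agent.SplH.V2

set_option autoImplicit false
set_option linter.all false

/-!
# The ordinals and functions of the ground model, without the generalized continuum hypothesis
-/

namespace Pool.Agent.SplH

open Cardinal Pool.Agent.SplK Pool.Agent.H55.Lav
open Pool.Agent.SplC (LOrd lord_lt lord_card lord_n lord_elt lord_le v2_J v2_s v2_p v2_L v2_inf v2_card v2_small)

/-- The intended meaning of the fields `mu`, `c` of `VDat`. -/
structure VSpec {K L : Type} [LinearOrder K] [LinearOrder L] (o : L → Ordinal.{0}) (e : K → L) (F : K → Cardinal.{0})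
    (D : VDat L) : Prop where
  mu : ∀ n, o (D.mu (D.nL n)) = (mc #K n).ord
  c : ∀ n (a : K), o (D.c (D.nL n) (e a)) = (pl (max ℵ₀ (F a)) n).ord

theorem exists_vdat {K : Type} [LinearOrder K] (hK : Inac K) {L : Type} [LinearOrder L] {o : L → Ordinal.{0}}
    (h : LOrd L o (2 ^ #K)) {e : K → L} (he : StrictMono e) (hr : ∀ x, (∃ a, e a = x) ↔ o x < (#K).ord)
    (hcd : ∀ a, (o (e a)).card = #(Set.Iio a)) (F : K → Cardinal.{0}) (hF1 : ∀ b, F b < #K)
    (hF2 : ∀ b, Inac (Set.Iio b) → F b = 2 ^ #(Set.Iio b)) : ∃ D : VDat L, VSpec o e F D := by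
  classical
  obtain ⟨κ, hκ⟩ : ∃ κ : Cardinal.{0}, κ = #K := ⟨_, rfl⟩
  have hunc : ℵ₀ < κ := hκ ▸ hK.unc
  have hlim : ∀ x < κ, 2 ^ x < κ := by
    intro x hx
    rw [hκ] at hx ⊢
    obtain ⟨S, hS⟩ := (Cardinal.le_mk_iff_exists_set (c := x)).mp hx.le
    obtain ⟨b, hb⟩ := hK.reg S (by rw [hS]; exact hx)
    have h1 : x ≤ #(Set.Iio b) := by
      rw [← hS]
      exact Cardinal.mk_le_mk_of_subset (fun a ha => hb a ha)
    exact (Cardinal.power_le_power_left two_ne_zero h1).trans_lt (hK.lim b)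
  have hlt : ∀ {x y : L}, o x < o y ↔ x < y := fun {x y} => lord_lt h
  have hle : ∀ {x y : L}, o x ≤ o y ↔ x ≤ y := fun {x y} => h.mono.le_iff_le
  have hex : ∀ (n : ℕ) (α : Ordinal.{0}), α ≤ (mc κ n).ord → ∃ x, o x = α := by
    intro n α hα
    obtain ⟨y, hy⟩ := lord_elt h (c := mc κ n) (n := n) (by rw [hκ]; exact mc_le _ n)
    exact lord_le h (x := y) (by rw [hy]; exact hα)
  obtain ⟨x0, hx0⟩ := hex 0 0 zero_le
  obtain ⟨t, ht⟩ : ∃ t : Ordinal.{0} → L, ∀ α, (∃ x, o x = α) → o (t α) = α :=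
    ⟨fun α => if hh : ∃ x, o x = α then hh.choose else x0, fun α hh => by
      simp only [dif_pos hh]
      exact hh.choose_spec⟩
  have htn : ∀ (n : ℕ) (α : Ordinal.{0}), α ≤ (mc κ n).ord → o (t α) = α := fun n α hα => ht α (hex n α hα)
  have hω : Ordinal.omega0 ≤ κ.ord := by
    rw [← Cardinal.ord_aleph0]
    exact Cardinal.ord_le_ord.mpr hunc.le
  have hωlt : Ordinal.omega0 < κ.ord := by
    rw [← Cardinal.ord_aleph0]
    exact Cardinal.ord_lt_ord.mpr hunc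
  -- naturals
  obtain ⟨nL, hnL⟩ : ∃ nL : ℕ → L, ∀ n, o (nL n) = (n : Ordinal.{0}) :=
    ⟨fun n => t n, fun n => htn 0 n (by rw [mc_zero]; exact (Ordinal.natCast_lt_omega0 n).le.trans hω)⟩
  have hinj : Function.Injective nL := by
    intro m n hmn
    have h1 := congrArg o hmn
    rw [hnL, hnL] at h1
    exact_mod_cast h1
  have hn0 : o (nL 0) = 0 := by rw [hnL]; rfl
  have h10 : nL 1 ≠ nL 0 := fun h1 => absurd (hinj h1) (by decide)
  obtain ⟨om, hom⟩ : ∃ om : L, o om = Ordinal.omega0 := ⟨t _, htn 0 _ (by rw [mc_zero]; exact hω)⟩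
  -- the cardinals
  obtain ⟨mu, hmu⟩ : ∃ mu : L → L, ∀ n, o (mu (nL n)) = (mc κ n).ord := by
    refine ⟨Function.extend nL (fun n => t (mc κ n).ord) (fun _ => t 0), fun n => ?_⟩
    rw [hinj.extend_apply]
    exact htn n _ le_rfl
  obtain ⟨k, hk⟩ : ∃ k : L, k = mu (nL 0) := ⟨_, rfl⟩
  have hok : o k = κ.ord := by rw [hk, hmu, mc_zero]
  have hok' : o k = (#K).ord := by rw [hok, hκ]
  have hkr : ∀ x, (∃ a, e a = x) ↔ x < k := fun x => by rw [hr, ← hok', hlt]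
  have hnk : ∀ n, nL n < k := by
    intro n
    rw [← hlt, hnL, hok]
    exact (Ordinal.natCast_lt_omega0 n).trans hωlt
  -- the cardinals F
  obtain ⟨FL, hFL⟩ : ∃ FL : L → Cardinal.{0}, ∀ a, FL (e a) = F a := by
    refine ⟨fun x => if hx : ∃ a, e a = x then F hx.choose else 0, fun a => ?_⟩
    have hx : ∃ a', e a' = e a := ⟨a, rfl⟩
    simp only [dif_pos hx]
    rw [he.injective hx.choose_spec]
  have hmx : ∀ b, b < k → max ℵ₀ (FL b) < κ := by
    intro b hb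
    obtain ⟨a, rfl⟩ := (hkr b).2 hb
    rw [hFL, hκ]
    exact max_lt (hκ ▸ hunc) (hF1 a)
  have hpl : ∀ b, b < k → ∀ n, pl (max ℵ₀ (FL b)) n < κ := fun b hb n => v2_small hlim (hmx b hb) n
  obtain ⟨c, hc1, hc2⟩ : ∃ c : L → L → L, (∀ n b, b < k → o (c (nL n) b) = (pl (max ℵ₀ (FL b)) n).ord) ∧
      ∀ n b, c n b < k := by
    refine ⟨fun x b => Function.extend nL (fun n => if b < k then t (pl (max ℵ₀ (FL b)) n).ord else x0)
      (fun _ => x0) x, ?_, ?_⟩
    · intro n b hb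
      simp only [hinj.extend_apply, if_pos hb]
      refine htn 0 _ ?_
      rw [mc_zero]
      exact Cardinal.ord_le_ord.mpr (hpl b hb n).le
    · intro x b
      have h0 : x0 < k := by
        rw [← hlt, hx0, hok]
        exact Ordinal.omega0_pos.trans hωlt
      by_cases hx : ∃ n, nL n = x
      · obtain ⟨n, rfl⟩ := hx
        simp only [hinj.extend_apply]
        by_cases hb : b < k
        · rw [if_pos hb, ← hlt, hok, htn 0 _ (by
            rw [mc_zero]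
            exact Cardinal.ord_le_ord.mpr (hpl b hb n).le)]
          exact Cardinal.ord_lt_ord.mpr (hpl b hb n)
        · rw [if_neg hb]
          exact h0
      · simp only [Function.extend_apply' _ _ _ hx]
        exact h0
  -- cardinality of closed segments
  have hIic : ∀ (y : L) (n m : ℕ) (e : Cardinal.{0}), ℵ₀ ≤ e → (pl e (n + 1)).ord ≤ (mc κ m).ord →
      o y < (pl e (n + 1)).ord → #(Set.Iic y) ≤ pl e n := by
    intro y n m e he hek hy
    obtain ⟨y', hy'⟩ := hex m (o y + 1) ((Order.add_one_le_of_lt hy).trans hek)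
    have h1 : Set.Iic y = Set.Iio y' := by
      ext x
      rw [Set.mem_Iic, Set.mem_Iio, ← hlt, hy', ← hle, Order.lt_add_one_iff]
    rw [h1, lord_card h, hy']
    exact v2_card he hy
  have hIio : ∀ z : L, #(Set.Iio z) = (o z).card := lord_card h
  -- the injections
  have hJex : ∀ (n : ℕ) (b y : L), ∃ g : L → L, b < k → y < c (nL (n + 1)) b →
      (∀ f ≤ y, g f < c (nL n) b) ∧ ∀ f ≤ y, ∀ f' ≤ y, g f = g f' → f = f' := by
    intro n b y
    by_cases hb : b < k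
    · by_cases hy : y < c (nL (n + 1)) b
      · have h1 : o y < (pl (max ℵ₀ (FL b)) (n + 1)).ord := by
          rw [← hc1 (n + 1) b hb]
          exact hlt.mpr hy
        have h2 : #(Set.Iic y) ≤ pl (max ℵ₀ (FL b)) n := by
          refine hIic y n 0 _ (le_max_left _ _) ?_ h1
          rw [mc_zero]
          exact Cardinal.ord_le_ord.mpr (hpl b hb (n + 1)).le
        have h3 : #(Set.Iio (c (nL n) b)) = pl (max ℵ₀ (FL b)) n := by
          rw [hIio, hc1 n b hb, Cardinal.card_ord]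
        obtain ⟨g, hg1, hg2⟩ := v2_J (y := y) (z := c (nL n) b) (by rw [h3]; exact h2)
        exact ⟨g, fun _ _ => ⟨hg1, hg2⟩⟩
      · exact ⟨id, fun _ h2 => (hy h2).elim⟩
    · exact ⟨id, fun h1 => (hb h1).elim⟩
  choose G hG using hJex
  -- the subsets of inaccessible elements
  have hEex : ∀ b : L, ∃ E : L → Set L, b < k → IcL e b → ∀ i, i < c (nL 0) b → ∀ i', i' < c (nL 0) b → i ≠ i' →
      ∃ x < b, ¬ (x ∈ E i ↔ x ∈ E i') := by
    intro b
    by_cases hb : b < k ∧ IcL e b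
    · obtain ⟨hb1, a, rfl, ha⟩ := hb
      have h1 : #(Set.Iio (c (nL 0) (e a))) = 2 ^ #(Set.Iio (e a)) := by
        rw [hIio, hc1 0 _ hb1, Cardinal.card_ord, pl_zero, hFL, hF2 a ha, hIio, hcd a]
        refine max_eq_right ?_
        have h2 := ha.unc
        have h3 := Cardinal.cantor #(Set.Iio a)
        exact h2.le.trans h3.le
      obtain ⟨E, hE, -⟩ := ve h1
      exact ⟨E, fun _ _ => hE⟩
    · exact ⟨fun _ => ∅, fun h1 h2 => (hb ⟨h1, h2⟩).elim⟩
  choose E hE using hEex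
  have hDex : ∀ b i i' : L, ∃ x, b < k → IcL e b → i < c (nL 0) b → i' < c (nL 0) b → i ≠ i' →
      x < b ∧ ¬ (x ∈ E b i ↔ x ∈ E b i') := by
    intro b i i'
    by_cases hh : b < k ∧ IcL e b ∧ i < c (nL 0) b ∧ i' < c (nL 0) b ∧ i ≠ i'
    · obtain ⟨x, hx1, hx2⟩ := hE b hh.1 hh.2.1 i hh.2.2.1 i' hh.2.2.2.1 hh.2.2.2.2
      exact ⟨x, fun _ _ _ _ _ => ⟨hx1, hx2⟩⟩
    · exact ⟨b, fun h1 h2 h3 h4 h5 => (hh ⟨h1, h2, h3, h4, h5⟩).elim⟩
  choose D4 hD4 using hDex
  -- the elements which are not inaccessible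
  obtain ⟨be, hbe, hbe'⟩ := vh hK h he hr hcd hok' hn0
  have hmex : ∀ b : L, ∃ μ : L, ∃ g : L → L, nL 0 < b → b < k → ¬ IcL e b → μ < b ∧ (∀ ξ, g ξ < b) ∧
      ∀ x < b, ∃ ξ < be μ, x ≤ g ξ := by
    intro b
    by_cases hh : nL 0 < b ∧ b < k ∧ ¬ IcL e b
    · obtain ⟨μ, hμ, g, hg1, hg2⟩ := hbe' b hh.1 hh.2.1 hh.2.2
      exact ⟨μ, g, fun _ _ _ => ⟨hμ, hg1, hg2⟩⟩
    · exact ⟨b, id, fun h1 h2 h3 => (hh ⟨h1, h2, h3⟩).elim⟩
  choose m2 g1 hm using hmex
  -- the function J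
  obtain ⟨J0, hJ0⟩ : ∃ J0 : ℕ → L → L → L → L, J0 = fun n b y f =>
      match n with
      | 0 => if b < k ∧ IcL e b ∧ f ∈ E b y then nL 0 else nL 1
      | 1 => g1 b y
      | 2 => m2 b
      | 3 => if IcL e b then nL 0 else nL 1
      | 4 => D4 b y f
      | (m + 5) => if b < k ∧ y < c (nL (m + 1)) b ∧ f ≤ y then G m b y f else nL 0 := ⟨_, rfl⟩
  have hJ00 : ∀ b y f, J0 0 b y f = if b < k ∧ IcL e b ∧ f ∈ E b y then nL 0 else nL 1 := fun b y f => by rw [hJ0]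
  have hJ01 : ∀ b y f, J0 1 b y f = g1 b y := fun b y f => by rw [hJ0]
  have hJ02 : ∀ b y f, J0 2 b y f = m2 b := fun b y f => by rw [hJ0]
  have hJ03 : ∀ b y f, J0 3 b y f = if IcL e b then nL 0 else nL 1 := fun b y f => by rw [hJ0]
  have hJ04 : ∀ b y f, J0 4 b y f = D4 b y f := fun b y f => by rw [hJ0]
  have hJ05 : ∀ m b y f, J0 (m + 5) b y f =
      if b < k ∧ y < c (nL (m + 1)) b ∧ f ≤ y then G m b y f else nL 0 := fun m b y f => by rw [hJ0]
  obtain ⟨J, hJ1, hJ2⟩ : ∃ J : L → L → L → L → L, (∀ (n : ℕ) b y f, J0 n b y f < k → J (nL n) b y f = J0 n b y f) ∧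
      ∀ n b y f, J n b y f < k := by
    refine ⟨fun x b y f => Function.extend nL (fun n => if J0 n b y f < k then J0 n b y f else nL 0)
      (fun _ => nL 0) x, ?_, ?_⟩
    · intro n b y f h1
      simp only [hinj.extend_apply, if_pos h1]
    · intro x b y f
      by_cases hx : ∃ n, nL n = x
      · obtain ⟨n, rfl⟩ := hx
        simp only [hinj.extend_apply]
        by_cases hh : J0 n b y f < k
        · rw [if_pos hh]
          exact hh
        · rw [if_neg hh]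
          exact hnk 0
      · simp only [Function.extend_apply' _ _ _ hx]
        exact hnk 0
  have hj0 : ∀ b y f, b < k → IcL e b → (J (nL 0) b y f = nL 0 ↔ f ∈ E b y) := by
    intro b y f hb hI
    have h1 : J0 0 b y f < k := by
      rw [hJ00]
      split_ifs
      · exact hnk 0
      · exact hnk 1
    rw [hJ1 0 b y f h1, hJ00]
    by_cases hf : f ∈ E b y
    · rw [if_pos ⟨hb, hI, hf⟩]
      exact ⟨fun _ => hf, fun _ => rfl⟩
    · rw [if_neg (fun h2 => hf h2.2.2)]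
      exact ⟨fun h2 => (h10 h2).elim, fun h2 => (hf h2).elim⟩
  have hj3 : ∀ b y f, (J (nL 3) b y f = nL 0 ↔ IcL e b) := by
    intro b y f
    have h1 : J0 3 b y f < k := by
      rw [hJ03]
      split_ifs
      · exact hnk 0
      · exact hnk 1
    rw [hJ1 3 b y f h1, hJ03]
    by_cases hI : IcL e b
    · rw [if_pos hI]
      exact ⟨fun _ => hI, fun _ => rfl⟩
    · rw [if_neg hI]
      exact ⟨fun h2 => (h10 h2).elim, fun h2 => (hI h2).elim⟩
  have hj2 : ∀ b y f, nL 0 < b → b < k → ¬ IcL e b → J (nL 2) b y f = m2 b := by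
    intro b y f h1 h2 h3
    have h4 : J0 2 b y f < k := by
      rw [hJ02]
      exact (hm b h1 h2 h3).1.trans h2
    rw [hJ1 2 b y f h4, hJ02]
  have hj1 : ∀ b y f, nL 0 < b → b < k → ¬ IcL e b → J (nL 1) b y f = g1 b y := by
    intro b y f h1 h2 h3
    have h4 : J0 1 b y f < k := by
      rw [hJ01]
      exact ((hm b h1 h2 h3).2.1 y).trans h2
    rw [hJ1 1 b y f h4, hJ01]
  have hj5 : ∀ (n : ℕ) b y f, b < k → y < c (nL (n + 1)) b → f ≤ y → J (nL (n + 5)) b y f = G n b y f := by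
    intro n b y f h1 h2 h3
    have h4 : J0 (n + 5) b y f = G n b y f := by
      rw [hJ05, if_pos ⟨h1, h2, h3⟩]
    have h5 : J0 (n + 5) b y f < k := by
      rw [h4]
      exact ((hG n b y h1 h2).1 f h3).trans (hc2 _ _)
    rw [hJ1 _ b y f h5, h4]
  -- s
  have hmcinf : ∀ n, ℵ₀ ≤ mc κ n := fun n => hunc.le.trans (mc_inf hunc.le n)
  have hmuIio : ∀ n, #(Set.Iio (mu (nL n))) = mc κ n := by
    intro n
    rw [hIio, hmu, Cardinal.card_ord]
  have hsex : ∀ (n : ℕ) (δ : L), ∃ g : L → L, δ < mu (nL (n + 1)) → 1 ≤ n → ∀ y < δ, ∃ x < mu (nL n), g x = y := by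
    intro n δ
    by_cases hδ : δ < mu (nL (n + 1)) ∧ 1 ≤ n
    · obtain ⟨m, rfl⟩ : ∃ m, n = m + 1 := ⟨n - 1, by omega⟩
      have h1 : o δ < (pl (2 ^ κ) (m + 1)).ord := by
        rw [← mc_succ, ← hmu]
        exact hlt.mpr hδ.1
      have h2 : #(Set.Iic δ) ≤ pl (2 ^ κ) m := hIic δ m (m + 2) (2 ^ κ) (hunc.le.trans (Cardinal.cantor κ).le) le_rfl h1
      have h3 : #(Set.Iio δ) ≤ #(Set.Iio (mu (nL (m + 1)))) := by
        rw [hmuIio, mc_succ]
        exact (Cardinal.mk_le_mk_of_subset Set.Iio_subset_Iic_self).trans h2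
      obtain ⟨g, hg⟩ := v2_s h3
      exact ⟨g, fun _ _ => hg⟩
    · exact ⟨id, fun h1 h2 => (hδ ⟨h1, h2⟩).elim⟩
  choose S hS using hsex
  obtain ⟨s, hs⟩ : ∃ s : L → L → L → L, ∀ n, s (nL n) = S n :=
    ⟨Function.extend nL S (fun _ _ => id), fun n => hinj.extend_apply _ _ n⟩
  have hpex : ∀ n : ℕ, ∃ pq : (L → L) × (L → L), ∀ x y, x < mu (nL n) → y < mu (nL n) →
      ∃ z < mu (nL n), pq.1 z = x ∧ pq.2 z = y := by
    intro n
    obtain ⟨p, q, hpq⟩ := v2_p (μ := mu (nL n)) (by rw [hmuIio]; exact hmcinf n)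
    exact ⟨(p, q), hpq⟩
  choose PQ hPQ using hpex
  obtain ⟨p, hp⟩ : ∃ p : L → L → L, ∀ n, p (nL n) = (PQ n).1 :=
    ⟨Function.extend nL (fun n => (PQ n).1) (fun _ => id), fun n => hinj.extend_apply _ _ n⟩
  obtain ⟨q, hq⟩ : ∃ q : L → L → L, ∀ n, q (nL n) = (PQ n).2 :=
    ⟨Function.extend nL (fun n => (PQ n).2) (fun _ => id), fun n => hinj.extend_apply _ _ n⟩
  obtain ⟨pL, qL, hpqL⟩ := v2_L (L := L) (by
    have h1 : #(Set.Iio k) ≤ #L := Cardinal.mk_set_le _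
    rw [hk, hmuIio, mc_zero] at h1
    exact hunc.le.trans h1)
  -- the subsets of k
  obtain ⟨EK, -, hEK⟩ := ve (b := mu (nL 0)) (z := mu (nL 1)) (by
    rw [hmuIio, hmuIio, mc_succ, mc_zero, pl_zero])
  obtain ⟨eK, heK⟩ : ∃ eK : L → L → L, ∀ j x, eK j x = nL 0 ↔ x ∈ EK j := by
    refine ⟨fun j x => if x ∈ EK j then nL 0 else nL 1, fun j x => ?_⟩
    show (if x ∈ EK j then nL 0 else nL 1) = nL 0 ↔ x ∈ EK j
    by_cases hx : x ∈ EK j
    · rw [if_pos hx]
      exact ⟨fun _ => hx, fun _ => rfl⟩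
    · rw [if_neg hx]
      exact ⟨fun h1 => (h10 h1).elim, fun h1 => (hx h1).elim⟩
  have hpos : ∀ {x b : L}, x < b → nL 0 < b := by
    intro x b hx
    rw [← hlt, hn0]
    exact lt_of_le_of_lt zero_le (hlt.2 hx)
  refine ⟨{ nL := nL, om := om, mu := mu, c := c, J := J, s := s, p := p, q := q, pL := pL, qL := qL, eK := eK, be := be
            nL_lt := ?_, om_iff := ?_, om_lt := ?_, mu_lt := ?_, mu_cof := ?_, c_lt := ?_, J_lt := ?_
            J_c := ?_, J_inj := ?_, s_sur := ?_, pq := ?_, pqL := hpqL, e_d := ?_, eK_sur := ?_, h_lt := ?_, h_v := ?_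
            be_lt := ?_, h_s := ?_ }, { mu := ?_, c := ?_ }⟩
  · intro m n hmn
    rw [← hlt, hnL, hnL]
    exact_mod_cast hmn
  · intro x
    rw [← hlt, hom, Ordinal.lt_omega0]
    constructor
    · rintro ⟨n, hn⟩
      refine ⟨n, h.mono.injective ?_⟩
      rw [hnL, hn]
    · rintro ⟨n, rfl⟩
      exact ⟨n, hnL n⟩
  · rw [← hlt, hom, hmu, mc_zero]
    exact hωlt
  · intro n
    rw [← hlt, hmu, hmu]
    exact Cardinal.ord_lt_ord.mpr (mc_lt κ n)
  · intro x
    obtain ⟨n, hn⟩ := lord_n h x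
    exact ⟨n + 1, by rw [← hlt, hmu, mc_succ, hκ]; exact hn⟩
  · intro n b
    rw [← hk]
    exact hc2 n b
  · intro n b y f
    rw [← hk]
    exact hJ2 n b y f
  · intro n b y f hb hy hf
    rw [← hk] at hb
    rw [hj5 n b y f hb hy hf]
    exact (hG n b y hb hy).1 f hf
  · intro n b y f f' hb hy hf hf' he
    rw [← hk] at hb
    rw [hj5 n b y f hb hy hf, hj5 n b y f' hb hy hf'] at he
    exact (hG n b y hb hy).2 f hf f' hf' he
  · intro n δ hδ y hy
    rw [hs]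
    exact hS (n + 1) δ hδ (by omega) y hy
  · intro n x y hx hy
    rw [hp, hq]
    exact hPQ n x y hx hy
  · intro b i i' hb hI hi hi' hne
    rw [← hk] at hb
    rw [hj3] at hI
    obtain ⟨h1, h2⟩ := hD4 b i i' hb hI hi hi' hne
    have h3 : J0 4 b i i' = D4 b i i' := hJ04 b i i'
    have h4 : J (nL 4) b i i' = D4 b i i' := by
      rw [hJ1 4 b i i' (by rw [h3]; exact h1.trans hb), h3]
    rw [h4, hj0 b i _ hb hI, hj0 b i' _ hb hI]
    exact ⟨h1, h2⟩
  · intro X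
    obtain ⟨j, hj, hj'⟩ := hEK X
    exact ⟨j, hj, fun x hx => by rw [heK]; exact hj' x hx⟩
  · intro b hb0 hb hI
    rw [← hk] at hb
    rw [Ne, hj3] at hI
    rw [hj2 b b b hb0 hb hI]
    exact (hm b hb0 hb hI).1
  · intro b ξ hb0 hb hI
    rw [← hk] at hb
    rw [Ne, hj3] at hI
    rw [hj1 b ξ ξ hb0 hb hI]
    exact (hm b hb0 hb hI).2.1 ξ
  · intro x
    rw [← hk]
    exact hbe x
  · intro b hb hI x hx
    rw [← hk] at hb
    rw [Ne, hj3] at hI
    have hb0 := hpos hx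
    rw [hj2 b b b hb0 hb hI]
    obtain ⟨ξ, hξ, hx'⟩ := (hm b hb0 hb hI).2.2 x hx
    exact ⟨ξ, hξ, by rw [hj1 b ξ ξ hb0 hb hI]; exact hx'⟩
  · intro n
    show o (mu (nL n)) = _
    rw [hmu, hκ]
  · intro n a
    show o (c (nL n) (e a)) = _
    rw [hc1 n (e a) ((hkr _).1 ⟨a, rfl⟩), hFL]

end Pool.Agent.SplH
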